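import Pool.Agent.P.MP_0dac36_co.Cluster

namespace Pool.Agent.P.MP_0dac36_co

open Finset

variable {V : Type} [DecidableEq V]

/-- sets built by adding seeds and vertices with many edges to the current set -/
inductive Built (U : Finset (Sym2 V)) (W : Finset V) (θ : ℝ) (Z : V → Prop) : Finset V → Prop
  | empty : Built U W θ Z ∅
  | add (P : Finset V) (v : V) : Built U W θ Z P → v ∉ P → v ∈ W → (Z v ∨ 2 * θ ≤ nm U P v) →
      Built U W θ Z (insert v P)

lemma Built.subset {U : Finset (Sym2 V)} {W : Finset V} {θ : ℝ} {Z : V → Prop} {P : Finset V}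
    (h : Built U W θ Z P) : P ⊆ W := by
  induction h with
  | empty => exact empty_subset _
  | add P v _ _ h3 _ ih => exact insert_subset h3 ih

lemma Built.mono {U : Finset (Sym2 V)} {W : Finset V} {θ : ℝ} {Z Z' : V → Prop} {P : Finset V}
    (h : Built U W θ Z P) : (∀ v ∈ P, Z v → Z' v) → Built U W θ Z' P := by
  induction h with
  | empty => exact fun _ => Built.empty
  | add P v _ h2 h3 h4 ih =>
    intro hZ
    refine Built.add P v (ih fun x hx => hZ x (mem_insert_of_mem hx)) h2 h3 ?_
    exact h4.imp_left (hZ v (mem_insert_self _ _))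

lemma Built.closed_ineq {U : Finset (Sym2 V)} {W : Finset V} {θ : ℝ} {Z : V → Prop}
    (hθ : 0 ≤ θ) {P : Finset V} (h : Built U W θ Z P) :
    ∀ S ⊆ P, (∀ x ∈ S, ∀ y ∈ P, s(x, y) ∈ U → y ∈ S) →
      2 * θ * ∑ v ∈ S, ind (¬ Z v) ≤ es U S := by
  induction h with
  | empty =>
    intro S hS _
    rw [subset_empty.1 hS]
    simp only [sum_empty, mul_zero]
    exact cnt_nonneg _ _
  | add P v _ h2 _ h4 ih =>
    intro S hS hc
    by_cases hv : v ∈ S
    · have hS' : S.erase v ⊆ P := fun x hx => by
        have := mem_insert.1 (hS (mem_of_mem_erase hx))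
        exact this.resolve_left (ne_of_mem_erase hx)
      have h5 := ih (S.erase v) hS' (fun x hx y hy hxy => mem_erase.2
        ⟨fun h => h2 (h ▸ hy), hc x (mem_of_mem_erase hx) y (mem_insert_of_mem hy) hxy⟩)
      have h6 : es U (S.erase v) + nm U P v ≤ es U S := by
        unfold es nm
        rw [cnt_eq, cnt_eq, cnt_eq, ← sum_add_distrib]
        refine sum_le_sum fun e he => ?_
        by_cases h7 : v ∈ e ∧ ∃ u ∈ e, u ∈ P
        · obtain ⟨h8, u, hu, huP⟩ := h7
          have huv : v ≠ u := fun h => h2 (h ▸ huP)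
          have he' : e = s(v, u) := (Sym2.mem_and_mem_iff huv).1 ⟨h8, hu⟩
          have huS : u ∈ S := hc v hv u (mem_insert_of_mem huP) (he' ▸ he)
          rw [ind_neg (fun h => (notMem_erase v S) (h v h8)), ind_pos (p := ∀ u ∈ e, u ∈ S)]
          · simpa using ind_le_one _
          · intro x hx
            rw [he'] at hx
            rcases Sym2.mem_iff.1 hx with rfl | rfl
            · exact hv
            · exact huS
        · rw [ind_neg h7, add_zero]
          exact ind_mono fun h u hu => mem_of_mem_erase (h u hu)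
      rw [← add_sum_erase S _ hv, mul_add]
      rcases h4 with h4 | h4
      · rw [ind_neg (not_not.2 h4)]
        have := cnt_nonneg U (fun e => v ∈ e ∧ ∃ u ∈ e, u ∈ P)
        unfold nm at h6
        linarith
      · have := mul_le_mul_of_nonneg_left (ind_le_one (¬ Z v)) (by linarith : 0 ≤ 2 * θ)
        linarith
    · have hS' : S ⊆ P := fun x hx =>
        (mem_insert.1 (hS hx)).resolve_left (fun h => hv (h ▸ hx))
      exact ih S hS' (fun x hx y hy hxy => hc x hx y (mem_insert_of_mem hy) hxy)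

lemma comp_insert_subset (U : Finset (Sym2 V)) (P : Finset V) (v : V) :
    comp U (insert v P) v ⊆ insert v ((nb U P v).biUnion (comp U P)) := by
  intro y hy
  have key : ∀ y, Rch U (insert v P) v y → y ∈ insert v ((nb U P v).biUnion (comp U P)) := by
    intro y hy
    induction hy with
    | refl => exact mem_insert_self _ _
    | @tail b c _ hbc ih =>
      by_cases hcv : c = v
      · rw [hcv]; exact mem_insert_self _ _
      have hcP : c ∈ P := (mem_insert.1 hbc.2.1).resolve_left hcv
      refine mem_insert_of_mem ?_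
      rcases mem_insert.1 ih with hb | hb
      · refine mem_biUnion.2 ⟨c, mem_filter.2 ⟨hcP, hb ▸ hbc.2.2⟩,
          mem_comp.2 ⟨hcP, Relation.ReflTransGen.refl⟩⟩
      · obtain ⟨u, hu, hbu⟩ := mem_biUnion.1 hb
        exact mem_biUnion.2 ⟨u, hu, comp_closed hbu hcP hbc.2.2⟩
  exact key y (mem_comp.1 hy).2

omit [DecidableEq V] in
lemma Rch.symm {U : Finset (Sym2 V)} {P : Finset V} {x y : V} (h : Rch U P x y) : Rch U P y x := by
  induction h with
  | refl => exact Relation.ReflTransGen.refl
  | tail _ hbc ih =>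
    exact Relation.ReflTransGen.head ⟨hbc.2.1, hbc.1, by rw [Sym2.eq_swap]; exact hbc.2.2⟩ ih

lemma comp_insert_cases (U : Finset (Sym2 V)) (P : Finset V) (v x : V) (hx : x ∈ insert v P) :
    comp U (insert v P) x ⊆ comp U (insert v P) v ∨ (x ∈ P ∧ comp U (insert v P) x ⊆ comp U P x) := by
  by_cases h : Rch U (insert v P) x v
  · left
    intro y hy
    rw [mem_comp] at hy ⊢
    exact ⟨hy.1, Relation.ReflTransGen.trans h.symm hy.2⟩
  · right
    have hxP : x ∈ P := (mem_insert.1 hx).resolve_left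
      (fun hxv => h (by rw [hxv]; exact Relation.ReflTransGen.refl))
    refine ⟨hxP, fun y hy => ?_⟩
    have key : ∀ y, Rch U (insert v P) x y → y ∈ comp U P x := by
      intro y hy
      induction hy with
      | refl => exact mem_comp.2 ⟨hxP, Relation.ReflTransGen.refl⟩
      | @tail b c hb hbc ih =>
        have h0 : Rch U (insert v P) x c := Relation.ReflTransGen.tail hb hbc
        have hcv : c ≠ v := fun hcv => h (by rw [hcv] at h0; exact h0)
        exact comp_closed ih ((mem_insert.1 hbc.2.1).resolve_left hcv) hbc.2.2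
    exact key y (mem_comp.1 hy).2

lemma Built.comp_small {U : Finset (Sym2 V)} {W : Finset V} {θ : ℝ} {Z : V → Prop}
    [DecidablePred Z] (hθ : 0 < θ) {n m0 m : ℕ} (hn : ∀ v, dg U v ≤ n) (hm : n * m0 + 1 ≤ m)
    (hsp : ∀ S : Finset V, S.card ≤ m → es U S ≤ θ * S.card)
    (hbad : ∀ S ⊆ W, Tour U S → m0 < S.card → S.card ≤ m → 2 * (S.filter Z).card < S.card)
    {P : Finset V} (h : Built U W θ Z P) : ∀ x ∈ P, (comp U P x).card ≤ m0 := by
  induction h with
  | empty => intro x hx; simp at hx
  | add P v h1 h2 h3 h4 ih =>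
    have hB : Built U W θ Z (insert v P) := Built.add P v h1 h2 h3 h4
    have hv : (comp U (insert v P) v).card ≤ m0 := by
      by_contra hc
      push Not at hc
      have h5 : (comp U (insert v P) v).card ≤ m := by
        refine (card_le_card (comp_insert_subset U P v)).trans ((card_insert_le _ _).trans ?_)
        have h6 : ((nb U P v).biUnion (comp U P)).card ≤ n * m0 := by
          refine card_biUnion_le.trans ?_
          refine (sum_le_card_nsmul _ _ m0 (fun u hu => ih u (mem_filter.1 hu).1)).trans ?_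
          rw [smul_eq_mul]
          have := (card_nb_le U P v).trans (hn v)
          exact Nat.mul_le_mul_right _ (by exact_mod_cast this)
        omega
      have hsub : comp U (insert v P) v ⊆ insert v P := fun y hy => (mem_comp.1 hy).1
      have h7 := hbad _ (hsub.trans hB.subset) (tour_comp U _ (mem_insert_self v P)) hc h5
      have h8 := hB.closed_ineq hθ.le _ hsub (fun x hx y hy hxy => comp_closed hx hy hxy)
      have h9 := hsp _ h5
      have h10 : ∑ x ∈ comp U (insert v P) v, ind (¬ Z x) =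
          (comp U (insert v P) v).card - (((comp U (insert v P) v).filter Z).card : ℝ) := by
        rw [card_filter, card_eq_sum_ones]
        push_cast
        rw [← sum_sub_distrib]
        refine sum_congr rfl fun x _ => ?_
        by_cases hz : Z x
        · rw [ind_neg (not_not.2 hz), if_pos hz]; norm_num
        · rw [ind_pos hz, if_neg hz]; norm_num
      have h11 : 2 * (((comp U (insert v P) v).filter Z).card : ℝ) <
          (comp U (insert v P) v).card := by exact_mod_cast h7
      rw [h10] at h8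
      nlinarith
    intro x hx
    rcases comp_insert_cases U P v x hx with h5 | ⟨h5, h6⟩
    · exact (card_le_card h5).trans hv
    · exact (card_le_card h6).trans (ih x h5)

lemma Built.exists_closure {U : Finset (Sym2 V)} {W : Finset V} {θ : ℝ} {Z : V → Prop}
    (hθ : 0 < θ) (hW : ∀ e ∈ U, ∀ v ∈ e, v ∈ W) {P : Finset V} (h : Built U W θ Z P) :
    ∃ P', P ⊆ P' ∧ Built U W θ Z P' ∧ ∀ v ∉ P', nm U P' v < 2 * θ := by
  classical
  obtain ⟨P', hP', hmax⟩ := exists_max_image
    (W.powerset.filter (fun S => P ⊆ S ∧ Built U W θ Z S)) Finset.card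
    ⟨P, mem_filter.2 ⟨mem_powerset.2 h.subset, Subset.rfl, h⟩⟩
  obtain ⟨_, h2, h3⟩ := mem_filter.1 hP'
  refine ⟨P', h2, h3, fun v hv => ?_⟩
  by_contra hc
  push Not at hc
  by_cases hvW : v ∈ W
  · have h4 := Built.add P' v h3 hv hvW (Or.inr hc)
    have := hmax _ (mem_filter.2 ⟨mem_powerset.2 h4.subset, h2.trans (subset_insert _ _), h4⟩)
    rw [card_insert_of_notMem hv] at this
    omega
  · have : nm U P' v = 0 := cnt_eq_zero fun e he h => hvW (hW e he v h.1)
    linarith

lemma sum_nm_le (U : Finset (Sym2 V)) (S : Finset V) :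
    ∑ v ∈ S, nm U (S.erase v) v ≤ 2 * es U S := by
  unfold nm es
  simp_rw [cnt_eq]
  rw [sum_comm, mul_sum]
  refine sum_le_sum fun e _ => ?_
  by_cases h : ∀ u ∈ e, u ∈ S
  · rw [ind_pos h, mul_one]
    calc ∑ v ∈ S, ind (v ∈ e ∧ ∃ u ∈ e, u ∈ S.erase v) ≤ ∑ v ∈ S, ind (v ∈ e) :=
          sum_le_sum fun v _ => ind_mono fun h => h.1
      _ = ((S.filter (fun v => v ∈ e)).card : ℝ) := by
          rw [card_filter]; push_cast
          refine sum_congr rfl fun v _ => ?_
          by_cases hv : v ∈ e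
          · rw [ind_pos hv, if_pos hv]
          · rw [ind_neg hv, if_neg hv]
      _ ≤ 2 := by exact_mod_cast card_filter_mem_le_two S e
  · rw [ind_neg h, mul_zero]
    refine le_of_eq (sum_eq_zero fun v hv => ind_neg ?_)
    rintro ⟨h1, u, hu, huS⟩
    have he : e = s(v, u) := (Sym2.mem_and_mem_iff (ne_of_mem_erase huS).symm).1 ⟨h1, hu⟩
    refine h fun x hx => ?_
    rw [he] at hx
    rcases Sym2.mem_iff.1 hx with rfl | rfl
    · exact hv
    · exact mem_of_mem_erase huS

lemma exists_low {U : Finset (Sym2 V)} {θ : ℝ} {m : ℕ}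
    (hsp : ∀ S : Finset V, S.card ≤ m → es U S ≤ θ * S.card) {P : Finset V}
    (hP : ∀ x ∈ P, (comp U P x).card ≤ m) {S : Finset V} (hS : S ⊆ P) (hne : S.Nonempty) :
    ∃ v ∈ S, nm U (S.erase v) v ≤ 2 * θ := by
  obtain ⟨x, hx⟩ := hne
  set C := S ∩ comp U P x with hC
  have hxC : x ∈ C := mem_inter.2 ⟨hx, mem_comp.2 ⟨hS hx, Relation.ReflTransGen.refl⟩⟩
  have h1 : C.card ≤ m := (card_le_card inter_subset_right).trans (hP x (hS hx))
  have h2 := (sum_nm_le U C).trans (mul_le_mul_of_nonneg_left (hsp C h1) (by norm_num))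
  have h3 : ∑ v ∈ C, nm U (C.erase v) v ≤ ∑ _v ∈ C, 2 * θ := by
    rw [sum_const, nsmul_eq_mul]; linarith
  obtain ⟨v, hv, h4⟩ := exists_le_of_sum_le ⟨x, hxC⟩ h3
  refine ⟨v, (mem_inter.1 hv).1, le_trans ?_ h4⟩
  refine cnt_mono_pred fun e he => ?_
  rintro ⟨h5, u, hu, huS⟩
  have he' : e = s(v, u) := (Sym2.mem_and_mem_iff (ne_of_mem_erase huS).symm).1 ⟨h5, hu⟩
  refine ⟨h5, u, hu, mem_erase.2 ⟨ne_of_mem_erase huS, mem_inter.2 ⟨mem_of_mem_erase huS, ?_⟩⟩⟩
  exact comp_closed (mem_inter.1 hv).2 (hS (mem_of_mem_erase huS)) (he' ▸ he)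

end Pool.Agent.P.MP_0dac36_co
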