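import Pool.Agent.P.MP_0dac36_co.Pot

namespace Pool.Agent.P.MP_0dac36_co

open Finset

variable {V : Type} [DecidableEq V]

/-- number of edges of `U` at `v` with an end in `P` -/
noncomputable def nm (U : Finset (Sym2 V)) (P : Finset V) (v : V) : ℝ :=
  cnt U (fun e => v ∈ e ∧ ∃ u ∈ e, u ∈ P)

/-- number of edges of `U` inside `S` -/
noncomputable def es (U : Finset (Sym2 V)) (S : Finset V) : ℝ := cnt U (fun e => ∀ u ∈ e, u ∈ S)

/-- `S` is the support of a walk with `2|S|-1` vertices -/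
def Tour (U : Finset (Sym2 V)) (S : Finset V) : Prop :=
  ∃ l : List V, l.toFinset = S ∧ l.length + 1 = 2 * S.card ∧
    List.IsChain (fun a b => s(a, b) ∈ U) l

lemma Tour.single (U : Finset (Sym2 V)) (x : V) : Tour U {x} :=
  ⟨[x], by simp, by simp, by simp⟩

lemma Tour.grow {U : Finset (Sym2 V)} {S : Finset V} (h : Tour U S) {x u : V} (hx : x ∈ S)
    (hu : u ∉ S) (hxu : s(x, u) ∈ U) : Tour U (insert u S) := by
  obtain ⟨l, h1, h2, h3⟩ := h
  have hxl : x ∈ l := by rw [← List.mem_toFinset, h1]; exact hx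
  obtain ⟨l1, l2, rfl⟩ := List.append_of_mem hxl
  refine ⟨l1 ++ x :: u :: x :: l2, ?_, ?_, ?_⟩
  · rw [← h1]; ext y; simp
  · rw [card_insert_of_notMem hu]; simp at h2 ⊢; omega
  · rw [List.isChain_split] at h3 ⊢
    refine ⟨h3.1, ?_⟩
    rw [List.isChain_cons_cons, List.isChain_cons_cons]
    exact ⟨hxu, by rw [Sym2.eq_swap]; exact hxu, h3.2⟩

def Rch (U : Finset (Sym2 V)) (P : Finset V) : V → V → Prop :=
  Relation.ReflTransGen (fun a b => a ∈ P ∧ b ∈ P ∧ s(a, b) ∈ U)

open Classical in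
noncomputable def comp (U : Finset (Sym2 V)) (P : Finset V) (x : V) : Finset V :=
  P.filter (fun y => Rch U P x y)

omit [DecidableEq V] in
lemma mem_comp {U : Finset (Sym2 V)} {P : Finset V} {x y : V} :
    y ∈ comp U P x ↔ y ∈ P ∧ Rch U P x y := by
  classical
  unfold comp; rw [mem_filter]

omit [DecidableEq V] in
lemma comp_closed {U : Finset (Sym2 V)} {P : Finset V} {x y z : V} (hy : y ∈ comp U P x)
    (hz : z ∈ P) (h : s(y, z) ∈ U) : z ∈ comp U P x := by
  rw [mem_comp] at hy ⊢
  exact ⟨hz, Relation.ReflTransGen.tail hy.2 ⟨hy.1, hz, h⟩⟩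

lemma tour_comp (U : Finset (Sym2 V)) (P : Finset V) {x : V} (hx : x ∈ P) :
    Tour U (comp U P x) := by
  classical
  have hxc : x ∈ comp U P x := mem_comp.2 ⟨hx, Relation.ReflTransGen.refl⟩
  obtain ⟨S, hS, hmax⟩ := exists_max_image
    ((comp U P x).powerset.filter (fun S => x ∈ S ∧ Tour U S)) Finset.card
    ⟨{x}, mem_filter.2 ⟨mem_powerset.2 (singleton_subset_iff.2 hxc), mem_singleton_self _,
      Tour.single U x⟩⟩
  obtain ⟨hS1, hS2, hS3⟩ := mem_filter.1 hS
  rw [mem_powerset] at hS1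
  have : ∀ y, Rch U P x y → y ∈ S := by
    intro y hy
    induction hy with
    | refl => exact hS2
    | @tail b c hb hbc ih =>
      by_contra hc
      have hcc : c ∈ comp U P x := comp_closed (hS1 ih) hbc.2.1 hbc.2.2
      have := hmax (insert c S) (mem_filter.2 ⟨mem_powerset.2 (insert_subset hcc hS1),
        mem_insert_of_mem hS2, hS3.grow ih hc hbc.2.2⟩)
      rw [card_insert_of_notMem hc] at this
      omega
  have h2 : comp U P x = S := Subset.antisymm (fun y hy => this y (mem_comp.1 hy).2) hS1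
  rw [h2]; exact hS3

/-- neighbours inside `W` -/
def nb (U : Finset (Sym2 V)) (W : Finset V) (a : V) : Finset V := W.filter (fun b => s(a, b) ∈ U)

lemma card_nb_le (U : Finset (Sym2 V)) (W : Finset V) (a : V) : ((nb U W a).card : ℝ) ≤ dg U a := by
  rw [dg, cnt_eq_card]
  have : (nb U W a).card ≤ (U.filter (fun e => a ∈ e)).card := by
    refine card_le_card_of_injOn (fun b => s(a, b)) ?_ ?_
    · intro b hb
      have := (mem_filter.1 hb).2
      simp only [coe_filter, Set.mem_ofPred_eq]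
      exact ⟨this, Sym2.mem_mk_left _ _⟩
    · intro b _ c _ h
      exact Sym2.congr_right.1 h
  exact_mod_cast this

def wstep (U : Finset (Sym2 V)) (W : Finset V) : List V → Finset (List V)
  | [] => ∅
  | a :: t => (nb U W a).image (fun b => b :: a :: t)

def walks (U : Finset (Sym2 V)) (W : Finset V) : ℕ → Finset (List V)
  | 0 => W.image (fun v => [v])
  | k + 1 => (walks U W k).biUnion (wstep U W)

lemma card_walks_le {U : Finset (Sym2 V)} {W : Finset V} {n : ℕ} (hn : ∀ v, dg U v ≤ n) (k : ℕ) :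
    (walks U W k).card ≤ W.card * n ^ k := by
  induction k with
  | zero => simpa [walks] using card_image_le
  | succ k ih =>
    rw [walks]
    refine card_biUnion_le.trans ?_
    have : ∀ l ∈ walks U W k, (wstep U W l).card ≤ n := by
      intro l _
      cases l with
      | nil => simp [wstep]
      | cons a t =>
        rw [wstep]
        refine card_image_le.trans ?_
        have := (card_nb_le U W a).trans (hn a)
        exact_mod_cast this
    refine (sum_le_card_nsmul _ _ n this).trans ?_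
    rw [smul_eq_mul, pow_succ, ← mul_assoc]
    exact Nat.mul_le_mul_right _ ih

lemma mem_walks {U : Finset (Sym2 V)} {W : Finset V} (k : ℕ) : ∀ l : List V, l.length = k + 1 →
    List.IsChain (fun a b => s(a, b) ∈ U) l → (∀ x ∈ l, x ∈ W) → l ∈ walks U W k := by
  induction k with
  | zero =>
    intro l hl _ hW
    match l, hl with
    | [a], _ => exact mem_image.2 ⟨a, hW a (by simp), rfl⟩
  | succ k ih =>
    intro l hl hc hW
    match l, hl with
    | b :: a :: t, hl =>
      rw [List.isChain_cons_cons] at hc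
      rw [walks, mem_biUnion]
      refine ⟨a :: t, ih _ (by simpa using hl) hc.2 (fun x hx => hW x (List.mem_cons_of_mem _ hx)), ?_⟩
      rw [wstep]
      exact mem_image.2 ⟨b, mem_filter.2 ⟨hW b (by simp), by rw [Sym2.eq_swap]; exact hc.1⟩, rfl⟩

lemma length_of_mem_walks {U : Finset (Sym2 V)} {W : Finset V} (k : ℕ) :
    ∀ l ∈ walks U W k, l.length = k + 1 := by
  induction k with
  | zero =>
    intro l hl
    obtain ⟨a, _, rfl⟩ := mem_image.1 hl
    rfl
  | succ k ih =>
    intro l hl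
    rw [walks, mem_biUnion] at hl
    obtain ⟨l', h1, h2⟩ := hl
    cases l' with
    | nil => simp [wstep] at h2
    | cons a t =>
      rw [wstep] at h2
      obtain ⟨b, _, rfl⟩ := mem_image.1 h2
      have := ih _ h1
      simp at this ⊢
      omega

lemma geom_Ioc {ρ : ℝ} (h0 : 0 ≤ ρ) (h1 : ρ ≤ 1 / 2) (a b : ℕ) :
    ∑ s ∈ Ioc a b, ρ ^ s ≤ 2 * ρ ^ (a + 1) := by
  have key : ∀ j : ℕ, ∑ s ∈ Ioc a (a + j), ρ ^ s ≤ 2 * ρ ^ (a + 1) - 2 * ρ ^ (a + j + 1) := by
    intro j
    induction j with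
    | zero => simp
    | succ j ih =>
      rw [← add_assoc, sum_Ioc_succ_top (by omega)]
      have h2 : 0 ≤ ρ ^ (a + j + 1) := pow_nonneg h0 _
      have h3 : ρ ^ (a + j + 1 + 1) = ρ ^ (a + j + 1) * ρ := pow_succ _ _
      nlinarith
  rcases le_total a b with hab | hab
  · obtain ⟨j, rfl⟩ := Nat.exists_eq_add_of_le hab
    have := key j
    have h2 : 0 ≤ ρ ^ (a + j + 1) := pow_nonneg h0 _
    linarith
  · rw [Ioc_eq_empty (by omega)]
    simp only [sum_empty]
    positivity

/-- the family of terms of the potential -/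
lemma exists_family {U : Finset (Sym2 V)} {W : Finset V} {n : ℕ} (hn : ∀ v, dg U v ≤ n)
    (hn1 : 1 ≤ n) (m0 m : ℕ) {k : ℝ} (hk : 1 ≤ k) (hρ : 4 * (n : ℝ) ^ 2 / k ≤ 1 / 2) :
    ∃ (T : Finset (ℕ × List V × Finset V)) (w : ℕ × List V × Finset V → ℝ),
      (∀ τ ∈ T, 0 ≤ w τ) ∧ ∑ τ ∈ T, w τ ≤ W.card * (2 * (4 * (n : ℝ) ^ 2 / k) ^ (m0 + 1)) ∧
      ∀ S Z : Finset V, S ⊆ W → Tour U S → m0 < S.card → S.card ≤ m → Z ⊆ S →
        S.card ≤ 2 * Z.card → ∃ τ ∈ T, τ.2.2 = Z ∧ 1 ≤ w τ * (k ^ 2) ^ Z.card := by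
  classical
  have hk0 : 0 < k := by linarith
  refine ⟨(Ioc m0 m).biUnion (fun s => ((walks U W (2 * s - 2)).biUnion
      (fun l => l.toFinset.powerset.image (fun Z => (s, l, Z))))), fun τ => (1 / k) ^ τ.1,
      fun τ _ => by positivity, ?_, ?_⟩
  · rw [sum_biUnion]
    · have : ∀ s ∈ Ioc m0 m, ∑ τ ∈ (walks U W (2 * s - 2)).biUnion
          (fun l => l.toFinset.powerset.image (fun Z => (s, l, Z))), (1 / k) ^ τ.1 ≤
          W.card * (4 * (n : ℝ) ^ 2 / k) ^ s := by
        intro s hs
        have hs1 : 1 ≤ s := by have := (mem_Ioc.1 hs).1; omega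
        have h1 : ∀ τ ∈ (walks U W (2 * s - 2)).biUnion
            (fun l => l.toFinset.powerset.image (fun Z => (s, l, Z))), (1 / k) ^ τ.1 = (1 / k) ^ s := by
          intro τ hτ
          obtain ⟨l, _, h2⟩ := mem_biUnion.1 hτ
          obtain ⟨Z, _, rfl⟩ := mem_image.1 h2
          rfl
        rw [sum_congr rfl h1, sum_const, nsmul_eq_mul]
        have h2 : ((walks U W (2 * s - 2)).biUnion
            (fun l => l.toFinset.powerset.image (fun Z => (s, l, Z)))).card ≤
            W.card * n ^ (2 * s) * 4 ^ s := by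
          refine card_biUnion_le.trans ?_
          have h3 : ∀ l ∈ walks U W (2 * s - 2),
              (l.toFinset.powerset.image (fun Z => (s, l, Z))).card ≤ 4 ^ s := by
            intro l hl
            refine card_image_le.trans ?_
            rw [card_powerset]
            have h4 := List.toFinset_card_le l
            rw [length_of_mem_walks _ l hl] at h4
            calc 2 ^ l.toFinset.card ≤ 2 ^ (2 * s) := Nat.pow_le_pow_right (by norm_num) (by omega)
              _ = 4 ^ s := by rw [pow_mul]; norm_num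
          refine (sum_le_card_nsmul _ _ _ h3).trans ?_
          rw [smul_eq_mul]
          refine Nat.mul_le_mul_right _ ((card_walks_le hn _).trans ?_)
          exact Nat.mul_le_mul_left _ (Nat.pow_le_pow_right hn1 (by omega))
        have h3 : (((walks U W (2 * s - 2)).biUnion
            (fun l => l.toFinset.powerset.image (fun Z => (s, l, Z)))).card : ℝ) ≤
            W.card * (n : ℝ) ^ (2 * s) * 4 ^ s := by exact_mod_cast h2
        refine (mul_le_mul_of_nonneg_right h3 (by positivity)).trans (le_of_eq ?_)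
        rw [pow_mul, div_pow, div_pow, mul_pow, one_pow]
        ring
      refine (sum_le_sum this).trans ?_
      rw [← mul_sum]
      exact mul_le_mul_of_nonneg_left (geom_Ioc (by positivity) hρ _ _) (Nat.cast_nonneg _)
    · intro s _ t _ hst
      rw [Function.onFun, Finset.disjoint_left]
      intro τ h1 h2
      obtain ⟨l, _, h3⟩ := mem_biUnion.1 h1
      obtain ⟨Z, _, rfl⟩ := mem_image.1 h3
      obtain ⟨l', _, h4⟩ := mem_biUnion.1 h2
      obtain ⟨Z', _, h5⟩ := mem_image.1 h4
      exact hst (congrArg Prod.fst h5).symm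
  · intro S Z hSW hS h1 h2 hZ h3
    obtain ⟨l, hl1, hl2, hl3⟩ := hS
    refine ⟨(S.card, l, Z), mem_biUnion.2 ⟨S.card, mem_Ioc.2 ⟨h1, h2⟩, mem_biUnion.2 ⟨l,
      mem_walks _ l (by omega) hl3 (fun x hx => hSW (by rw [← hl1]; exact List.mem_toFinset.2 hx)),
      mem_image.2 ⟨Z, mem_powerset.2 (hl1 ▸ hZ), rfl⟩⟩⟩, rfl, ?_⟩
    show 1 ≤ (1 / k) ^ S.card * (k ^ 2) ^ Z.card
    rw [← pow_mul, div_pow, one_pow, div_mul_eq_mul_div, one_mul, le_div_iff₀ (by positivity), one_mul]
    exact pow_le_pow_right₀ hk h3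

end Pool.Agent.P.MP_0dac36_co
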