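import Pool.Agent.P.MP_0dac36_co.Winv

namespace Pool.Agent.P.MP_0dac36_co

open Finset

variable {V : Type} [DecidableEq V] {ι : Type}

lemma Built.union_seeds {U : Finset (Sym2 V)} {W : Finset V} {θ : ℝ} {Z : V → Prop} {P : Finset V}
    (h : Built U W θ Z P) (N : Finset V) : N ⊆ W → (∀ v ∈ N, Z v) → Built U W θ Z (P ∪ N) := by
  induction N using Finset.induction_on with
  | empty => intro _ _; rwa [union_empty]
  | insert v N _ ih =>
    intro h1 h2
    have h3 := ih ((subset_insert _ _).trans h1) (fun x hx => h2 x (mem_insert_of_mem hx))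
    rw [union_insert]
    by_cases hv : v ∈ P ∪ N
    · rwa [insert_eq_of_mem hv]
    · exact Built.add _ v h3 hv (h1 (mem_insert_self _ _)) (Or.inl (h2 v (mem_insert_self _ _)))

noncomputable def En (a : ℝ) (D B : V → ℝ) : V → ℝ := fun v => Real.exp (a * D v - 8 * a ^ 2 * B v)

lemma En_maker (a : ℝ) (D B : V → ℝ) (e : Sym2 V) :
    En a (fun v => D v + ind (v ∈ e)) B = scale (En a D B) (Real.exp a) e := by
  funext v
  unfold En scale
  beta_reduce
  by_cases h : v ∈ e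
  · rw [if_pos h, ind_pos h, ← Real.exp_add]; congr 1; ring
  · rw [if_neg h, ind_neg h, add_zero]

lemma En_breaker (a : ℝ) (D B : V → ℝ) (e : Sym2 V) :
    En a (fun v => D v - ind (v ∈ e)) (fun v => B v + ind (v ∈ e)) =
      scale (En a D B) (Real.exp (-(a + 8 * a ^ 2))) e := by
  funext v
  unfold En scale
  beta_reduce
  by_cases h : v ∈ e
  · rw [if_pos h, ind_pos h, ← Real.exp_add]; congr 1; ring
  · rw [if_neg h, ind_neg h, add_zero, sub_zero]

theorem core_abs {U0 : Finset (Sym2 V)} {W : Finset V} {n m0 m : ℕ} {θ X a Q K : ℝ}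
    (hW : ∀ e ∈ U0, ∀ v ∈ e, v ∈ W) (hn : ∀ v, dg U0 v ≤ n) (hθ : 0 < θ) (hX : 0 < X)
    (ha : 0 ≤ a) (ha' : a ≤ 1 / 16) (hm : n * m0 + 1 ≤ m) (hm0 : m0 ≤ m)
    (hsp : ∀ S : Finset V, S.card ≤ m → es U0 S ≤ θ * S.card)
    (hQ : 4 * θ + X + 2 ≤ 2 * Q) (hK0 : 0 ≤ K) (hK : K ≤ Real.exp (a * X - 8 * a ^ 2 * n))
    {T : Finset ι} {Y : ι → Finset V} {w : ι → ℝ} (hw : ∀ τ ∈ T, 0 ≤ w τ)
    (hsum : Real.exp a ^ 2 * ∑ τ ∈ T, w τ < 1)
    (hfam : ∀ S Z : Finset V, S ⊆ W → Tour U0 S → m0 < S.card → S.card ≤ m → Z ⊆ S →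
      S.card ≤ 2 * Z.card → ∃ τ ∈ T, Y τ = Z ∧ 1 ≤ w τ * K ^ Z.card) :
    Safe U0 (fun v => dg U0 v / 2 + Q) := by
  classical
  have hEpos : ∀ (D B : V → ℝ) v, 0 ≤ En a D B v := fun D B v => (Real.exp_pos _).le
  have hα : 1 ≤ Real.exp a := Real.one_le_exp ha
  refine ⟨fun U c => ∃ (P : Finset V) (own : Sym2 V → V) (D B : V → ℝ), WInv U0 U c P own D Q ∧
      Built U0 W θ (fun v => a * X - 8 * a ^ 2 * n ≤ a * D v - 8 * a ^ 2 * B v) P ∧
      (∀ v ∉ P, nm U0 P v < 2 * θ) ∧ (∀ v ∉ P, D v < X) ∧ (∀ v, B v + dg U v ≤ n) ∧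
      ∀ e ∈ U, (∀ u ∈ e, u ∉ P) → Phi T Y w (scale (En a D B) (Real.exp a) e) < 1, ?_, ?_⟩
  · refine ⟨∅, fun e => e.out.1, fun _ => 0, fun _ => 0, ⟨Subset.rfl, ?_, ?_, ?_⟩, Built.empty,
      ?_, fun _ _ => hX, fun v => by simpa using hn v, ?_⟩
    · rintro e _ ⟨u, _, hu⟩; simp at hu
    · intro v _
      have := cnt_nonneg (U0 \ U0) (fun e => v ∈ e ∧ ∃ u ∈ e, u ∈ (∅ : Finset V))
      unfold nm
      linarith
    · intro v hv; simp at hv
    · intro v _
      have : nm U0 ∅ v = 0 := cnt_eq_zero fun e _ h => by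
        obtain ⟨u, _, hu⟩ := h.2; simp at hu
      linarith
    · intro e _ _
      refine (Phi_scale_le' hw (hEpos _ _) _ (one_le_pow₀ hα) e).trans_lt ?_
      have : Phi T Y w (En a (fun _ => 0) (fun _ => 0)) = ∑ τ ∈ T, w τ := by
        unfold Phi En; simp
      rw [this]; exact hsum
  rintro U c ⟨P, own, D, B, hI, hB, hcl, hD, hBn, hΦ⟩
  refine ⟨fun v => ?_, fun e he => ?_⟩
  · have h0 : 0 ≤ dg U v := cnt_nonneg _ _
    by_cases hv : v ∈ P
    · have h1 := cnt_nonneg U (fun e => v ∈ e ∧ own e ≠ v)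
      rcases hI.inn v hv with h2 | h2
      · linarith
      · linarith [h2.2]
    · have h1 := hI.out v hv
      have h2 := hcl v hv
      have h3 := hD v hv
      have h4 : nm (U0 \ U) P v ≤ nm U0 P v := cnt_mono_set sdiff_subset _
      linarith
  by_cases hmain : ∃ u ∈ e, u ∈ P
  · obtain ⟨U', h1, h2, h3⟩ := hI.owned he hmain
    refine ⟨U', h1, P, own, D, B, h3, hB, hcl, hD, fun v => ?_, fun f hf hf' => hΦ f (h2 f hf hf') hf'⟩
    have : dg U' v ≤ dg U v := cnt_mono_set (h1.subset.trans (erase_subset _ _)) _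
    linarith [hBn v]
  have hmain' : ∀ u ∈ e, u ∉ P := fun u hu h => hmain ⟨u, hu, h⟩
  have hI1 := hI.maker_main he hmain'
  set D1 : V → ℝ := fun v => D v + ind (v ∈ e) with hD1
  have hΦ1 : Phi T Y w (En a D1 B) < 1 := by rw [hD1, En_maker]; exact hΦ e he hmain'
  set Z1 : V → Prop := fun v => a * X - 8 * a ^ 2 * n ≤ a * D1 v - 8 * a ^ 2 * B v with hZ1
  have hB1 : Built U0 W θ Z1 P := by
    refine hB.mono fun v hv h => ?_
    have : D1 v = D v := by
      simp only [hD1]; rw [ind_neg (fun h' => hmain' v h' hv), add_zero]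
    simp only [hZ1]; rw [this]; exact h
  have hB2 := hB1.union_seeds (W.filter (fun v => X ≤ D1 v)) (filter_subset _ _) (by
    intro v hv
    have h1 := (mem_filter.1 hv).2
    have h2 := hBn v
    have h3 : 0 ≤ dg U v := cnt_nonneg _ _
    have h4 : a * X ≤ a * D1 v := mul_le_mul_of_nonneg_left h1 ha
    have h5 : 8 * a ^ 2 * B v ≤ 8 * a ^ 2 * n :=
      mul_le_mul_of_nonneg_left (by linarith) (by positivity)
    simp only [hZ1]; linarith)
  obtain ⟨P2, hP2, hB3, hcl2⟩ := hB2.exists_closure hθ hW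
  have hPP2 : P ⊆ P2 := subset_union_left.trans hP2
  have hD2 : ∀ v ∉ P2, D1 v < X := by
    intro v hv
    by_cases hvW : v ∈ W
    · by_contra hc
      push Not at hc
      exact hv (hP2 (mem_union_right _ (mem_filter.2 ⟨hvW, hc⟩)))
    · have : D1 v = D v := by
        simp only [hD1]; rw [ind_neg (fun h' => hvW (hW e (hI.sub he) v h')), add_zero]
      rw [this]; exact hD v (fun h => hv (hPP2 h))
  have hbad : ∀ S ⊆ W, Tour U0 S → m0 < S.card → S.card ≤ m →
      2 * (S.filter Z1).card < S.card := by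
    intro S hS h1 h2 h3
    by_contra hc
    push Not at hc
    obtain ⟨τ, hτ, h4, h5⟩ := hfam S (S.filter Z1) hS h1 h2 h3 (filter_subset _ _) hc
    have h6 := term_le_Phi (T := T) (Y := Y) hw (hEpos D1 B) hτ
    have h7 : K ^ (S.filter Z1).card ≤ ∏ v ∈ Y τ, En a D1 B v := by
      rw [h4, ← prod_const]
      refine prod_le_prod (fun _ _ => hK0) fun v hv => hK.trans ?_
      exact Real.exp_le_exp.2 (mem_filter.1 hv).2
    have h8 := mul_le_mul_of_nonneg_left h7 (hw τ hτ)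
    linarith
  have hsmall := hB3.comp_small hθ hn hm hsp hbad
  obtain ⟨own2, hI2⟩ := hI1.joinAll (θ := θ) _ (P2 \ P) rfl sdiff_disjoint
    (fun S hS hne => exists_low hsp (fun x hx => (hsmall x hx).trans hm0)
      (hS.trans sdiff_subset) hne) (by
      intro v hv
      have h1 := hcl v (mem_sdiff.1 hv).2
      have h2 := hD v (mem_sdiff.1 hv).2
      have h3 := ind_le_one (v ∈ e)
      simp only [hD1]
      linarith)
  rw [union_sdiff_of_subset hPP2] at hI2
  have hBn1 : ∀ v, B v + dg (U.erase e) v ≤ n := by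
    intro v
    have : dg (U.erase e) v ≤ dg U v := cnt_mono_set (erase_subset _ _) _
    linarith [hBn v]
  by_cases hex : ((U.erase e).filter (fun f => ∀ u ∈ f, u ∉ P2)).Nonempty
  · obtain ⟨f, hf, hmax⟩ := exists_max_image _ (Wt T Y w (En a D1 B)) hex
    obtain ⟨hf1, hf2⟩ := mem_filter.1 hf
    refine ⟨(U.erase e).erase f, Or.inr ⟨f, hf1, rfl⟩, P2, own2, fun v => D1 v - ind (v ∈ f),
      fun v => B v + ind (v ∈ f), hI2.breaker_main hf1 hf2, ?_, hcl2, ?_, ?_, ?_⟩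
    · refine hB3.mono fun v hv h => ?_
      beta_reduce
      rw [ind_neg (fun h' => hf2 v h' hv), add_zero, sub_zero]
      exact h
    · intro v hv
      have := hD2 v hv
      have := ind_nonneg (v ∈ f)
      linarith
    · intro v
      rw [dg_erase hf1]
      linarith [hBn1 v]
    · intro g hg hg'
      rw [En_breaker]
      refine (Phi_greedy hw (hEpos D1 B) hα (Real.exp_pos _).le ?_ (exp_pair ha ha') ?_).trans_lt hΦ1
      · rw [Real.exp_le_one_iff]; nlinarith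
      · exact hmax g (mem_filter.2 ⟨mem_of_mem_erase hg, hg'⟩)
  · refine ⟨U.erase e, Or.inl rfl, P2, own2, D1, B, hI2, hB3, hcl2, hD2, hBn1, ?_⟩
    intro g hg hg'
    exact absurd ⟨g, mem_filter.2 ⟨hg, hg'⟩⟩ hex

end Pool.Agent.P.MP_0dac36_co
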