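import Mathlib

namespace Pool.Agent.P.MP_0dac36_co

/-- The degree game on the edges of `G`. A position is: whose turn it is (`true` for Maker,
`false` for Breaker), the set `M` of edges Maker has claimed and the set `B` of edges Breaker
has claimed. `MakerForces G d t M B` says that from this position Maker has a strategy
guaranteeing that, when every edge has been claimed, some vertex lies in at least `d` of his edges. -/
inductive MakerForces {V : Type} [DecidableEq V] (G : SimpleGraph V) (d : ℕ) :
    Bool → Finset (Sym2 V) → Finset (Sym2 V) → Prop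
  | finish (t : Bool) (M B : Finset (Sym2 V)) :
      (∀ e ∈ G.edgeSet, e ∈ M ∨ e ∈ B) →
      (∃ v : V, d ≤ (M.filter (fun e => v ∈ e)).card) → MakerForces G d t M B
  | maker (M B : Finset (Sym2 V)) (e : Sym2 V) :
      e ∈ G.edgeSet → e ∉ M → e ∉ B →
      MakerForces G d false (insert e M) B → MakerForces G d true M B
  | breaker (M B : Finset (Sym2 V)) :
      (∃ e ∈ G.edgeSet, e ∉ M ∧ e ∉ B) →
      (∀ e ∈ G.edgeSet, e ∉ M → e ∉ B → MakerForces G d true M (insert e B)) →
      MakerForces G d false M B

/-- `tower h s` is the tower of `h` twos with `s` on top: `tower 0 s = s`,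
`tower (h+1) s = 2 ^ tower h s`. -/
def tower (h s : ℕ) : ℕ := Nat.rec s (fun _ t => 2 ^ t) h

end Pool.Agent.P.MP_0dac36_co
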