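import Pool.Agent.P.MP_0dac36_co.LBase

namespace Pool.Agent.P.MP_0dac36_co.LG

open Finset

lemma count_bound {a p L N : ℝ} {i r : ℕ} (ha0 : 0 < a) (ha1 : a < 1) (hp : 0 < p)
    (hL : -Real.log p ≤ L) (hL0 : 0 ≤ L) (h : p * (1 + a) ^ i * (1 - a) ^ r < 1)
    (h2 : (i : ℝ) + 2 * r ≤ N) : (3 - a) * ((i : ℝ) + r) ≤ 2 * N + L / a := by
  have h1a : 0 < 1 - a := by linarith
  have h1b : 0 < 1 + a := by linarith
  have h3 := Real.log_neg (by positivity) h
  rw [Real.log_mul (by positivity) (by positivity), Real.log_mul (by positivity) (by positivity),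
    Real.log_pow, Real.log_pow] at h3
  have h4 := Real.one_sub_inv_le_log_of_pos h1a
  have h5 := Real.one_sub_inv_le_log_of_pos h1b
  have hi : (0 : ℝ) ≤ i := Nat.cast_nonneg _
  have hr : (0 : ℝ) ≤ r := Nat.cast_nonneg _
  have h6 : (i : ℝ) * (1 - (1 + a)⁻¹) + r * (1 - (1 - a)⁻¹) ≤ L := by
    have := mul_le_mul_of_nonneg_left h4 hr
    have := mul_le_mul_of_nonneg_left h5 hi
    linarith
  have h7 : ((i : ℝ) * (1 - (1 + a)⁻¹) + r * (1 - (1 - a)⁻¹)) * ((1 + a) * (1 - a) / a) =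
      i * (1 - a) - r * (1 + a) := by
    field_simp
    ring
  have h8 : (1 + a) * (1 - a) / a ≤ 1 / a := by
    rw [div_le_div_iff_of_pos_right ha0]; nlinarith
  have h9 : (i : ℝ) * (1 - a) - r * (1 + a) ≤ L / a := by
    rw [← h7]
    calc _ ≤ L * ((1 + a) * (1 - a) / a) := mul_le_mul_of_nonneg_right h6 (by positivity)
      _ ≤ L * (1 / a) := mul_le_mul_of_nonneg_left h8 hL0
      _ = L / a := by ring
  nlinarith

lemma log_small (A ε : ℝ) (hε : 0 < ε) :
    ∃ n₀ : ℕ, ∀ n : ℕ, n₀ ≤ n → A + Real.log (n + 1) ≤ ε * n := by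
  obtain ⟨n₀, hn₀⟩ := exists_nat_ge ((A + ε / 2 - 1 - Real.log (ε / 2)) / (ε / 2))
  refine ⟨n₀, fun n hn => ?_⟩
  have h1 : (n₀ : ℝ) ≤ n := by exact_mod_cast hn
  have h2 := hn₀.trans h1
  rw [div_le_iff₀ (by positivity)] at h2
  have h3 := Real.log_le_sub_one_of_pos (x := ε / 2 * (n + 1)) (by positivity)
  rw [Real.log_mul (by positivity) (by positivity)] at h3
  linarith

theorem two_thirds (c : ℝ) (hc : 2 / 3 < c) : ∃ n₀ : ℕ, ∀ n : ℕ, n₀ ≤ n →
    ∀ (V : Type) [Fintype V] [DecidableEq V] (G : SimpleGraph V) [DecidableRel G.Adj],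
      (∀ v : V, G.degree v ≤ n) →
      ∀ d : ℕ, MakerForces G d true ∅ ∅ → (d : ℝ) ≤ c * (n : ℝ) := by
  set η : ℝ := 3 * c - 2 with hη
  have hη0 : 0 < η := by linarith
  have hc0 : 0 < c := by linarith
  set a : ℝ := min (1 / 2) (η / (2 * c)) with ha
  have ha0 : 0 < a := lt_min (by norm_num) (by positivity)
  have ha1 : a ≤ 1 / 2 := min_le_left _ _
  have ha2 : a * c ≤ η / 2 := by
    calc a * c ≤ η / (2 * c) * c := mul_le_mul_of_nonneg_right (min_le_right _ _) hc0.le
      _ = η / 2 := by field_simp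
  obtain ⟨n₀, hn₀⟩ := log_small ((2 * a + 1501) / 1500) (η / 2 * a / 1500) (by positivity)
  refine ⟨max n₀ 1, fun n hn V _ _ G _ hdeg d hM => ?_⟩
  have hn1 : 1 ≤ n := (le_max_right _ _).trans hn
  have hlog := hn₀ n ((le_max_left _ _).trans hn)
  obtain ⟨dd, hd, hball, hadj⟩ := exists_met G hn1 hdeg
  have h1a : 0 < 1 - a := by linarith
  set l : ℝ := 1 / (1 - a) with hl
  have hl1 : 1 ≤ l := by rw [hl, le_div_iff₀ h1a]; linarith
  have hl2 : l ≤ 2 := by rw [hl, div_le_iff₀ h1a]; linarith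
  have hl0 : 0 < l := by linarith
  set T : ℝ := ((n + 1 : ℕ) : ℝ) ^ 1 * l with hT
  have hT0 : 0 < T := by positivity
  set p : ℝ := 1 / 2 / T ^ 1500 with hp
  have hp0 : 0 < p := by positivity
  have hw : Win dd 1 l (fun _ => p) :=
    win_local (m := n + 1) (p := p) hd (by omega) hball le_rfl hl1 hp0.le
      (by rw [← hT, hp, div_mul_cancel₀ _ (by positivity)]) _ (fun _ => le_rfl)
  have hlog2 : Real.log 2 ≤ 1 := by
    have := Real.log_le_sub_one_of_pos (x := 2) (by norm_num)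
    linarith
  have hL : -Real.log p ≤ 1501 + 1500 * Real.log (n + 1) := by
    rw [hp, Real.log_div (by norm_num) (by positivity), Real.log_pow, hT,
      Real.log_mul (by positivity) (by positivity), pow_one, one_div, Real.log_inv]
    have := Real.log_le_log hl0 hl2
    push_cast
    linarith
  have hlog0 : 0 ≤ Real.log (n + 1) := Real.log_nonneg (by
    have : (0 : ℝ) ≤ n := Nat.cast_nonneg _
    linarith)
  have hS : Safe G.edgeFinset (fun _ => c * n) := by
    refine safe_of_win G hdeg hd hadj ha0 (by linarith) hw fun i r h1 h2 => ?_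
    have h3 := count_bound ha0 (by linarith) hp0 hL (by positivity) h1 h2
    have h4 : (1501 + 1500 * Real.log (n + 1)) / a ≤ η / 2 * n - 2 := by
      rw [div_le_iff₀ ha0]
      linarith
    have hn0 : (0 : ℝ) ≤ n := Nat.cast_nonneg _
    have h5 : (3 - a) * ((i : ℝ) + r) ≤ (3 - a) * (c * n) := by
      have := mul_le_mul_of_nonneg_right ha2 hn0
      nlinarith
    exact le_of_mul_le_mul_left h5 (by linarith)
  by_contra hcon
  push Not at hcon
  refine Safe.not_forces G d true ∅ ∅ hM _ _ hS (fun v => ?_)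
    (fun _ e he _ _ => SimpleGraph.mem_edgeFinset.2 he) (fun h => by simp at h)
  have h1 : dg (∅ : Finset (Sym2 V)) v = 0 := cnt_eq_zero fun e he => by simp at he
  rw [h1]
  linarith

end Pool.Agent.P.MP_0dac36_co.LG
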