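import Pool.Agent.P.MP_0dac36_co.HNum
import Pool.Agent.P.MP_0dac36_co.LMain

set_option linter.unusedSectionVars false

namespace Pool.Agent.P.MP_0dac36_co.HG

open Finset

variable {V : Type} [Fintype V] [DecidableEq V]

/-- free neighbours -/
def nb (U : Finset (Sym2 V)) (v : V) : Finset V := univ.filter (fun u => s(v, u) ∈ U)

lemma mem_nb {U : Finset (Sym2 V)} {v u : V} : u ∈ nb U v ↔ s(v, u) ∈ U := by simp [nb]

lemma nb_symm {U : Finset (Sym2 V)} {v u : V} : u ∈ nb U v ↔ v ∈ nb U u := by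
  rw [mem_nb, mem_nb, Sym2.eq_swap]

lemma nb_erase_left (U : Finset (Sym2 V)) (x y : V) :
    nb (U.erase s(x, y)) x = (nb U x).erase y := by
  ext u
  simp only [mem_nb, mem_erase, ne_eq, Sym2.congr_right]

lemma nb_erase_right (U : Finset (Sym2 V)) (x y : V) :
    nb (U.erase s(x, y)) y = (nb U y).erase x := by
  rw [Sym2.eq_swap]; exact nb_erase_left U y x

lemma nb_erase_ne (U : Finset (Sym2 V)) {x y v : V} (hx : v ≠ x) (hy : v ≠ y) :
    nb (U.erase s(x, y)) v = nb U v := by
  ext u
  simp only [mem_nb, mem_erase, ne_eq, and_iff_right_iff_imp]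
  intro _ h
  rcases Sym2.eq_iff.1 h with h | h
  · exact hx h.1
  · exact hy h.1

/-- weighted size -/
noncomputable def Ws (S : Finset V) (q : V → ℝ) : ℝ := ∑ u ∈ S, 1 / q u

lemma Ws_erase {S : Finset V} {y : V} (h : y ∈ S) (q : V → ℝ) :
    Ws (S.erase y) q = Ws S q - 1 / q y := Finset.sum_erase_eq_sub h

lemma Ws_upd_out {S : Finset V} {x : V} (h : x ∉ S) (q : V → ℝ) (a : ℝ) :
    Ws S (Function.update q x a) = Ws S q :=
  Finset.sum_congr rfl fun u hu => by rw [Function.update_of_ne (by rintro rfl; exact h hu)]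

lemma Ws_upd_in {S : Finset V} {x : V} (h : x ∈ S) (q : V → ℝ) (a : ℝ) :
    Ws S (Function.update q x a) = Ws S q + (1 / a - 1 / q x) := by
  have h1 := Ws_erase h (Function.update q x a)
  rw [Ws_upd_out (notMem_erase x S), Ws_erase h, Function.update_self] at h1
  linarith

lemma inv_range {q : ℝ} (h1 : 1 / 2 ≤ q) (h2 : q ≤ 1) : 1 ≤ 1 / q ∧ 1 / q ≤ 2 := by
  have hq : 0 < q := by linarith
  exact ⟨by rw [le_div_iff₀ hq]; linarith, by rw [div_le_iff₀ hq]; linarith⟩

lemma card_le_Ws (S : Finset V) {q : V → ℝ} (hq : ∀ v, 1 / 2 ≤ q v ∧ q v ≤ 1) :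
    (S.card : ℝ) ≤ Ws S q := by
  have := Finset.card_nsmul_le_sum S (fun u => 1 / q u) 1
    (fun u _ => (inv_range (hq u).1 (hq u).2).1)
  simpa [Ws] using this

/-- allowance for a vertex without free edges -/
noncomputable def Ex (U : Finset (Sym2 V)) (v : V) : ℝ := if (nb U v).Nonempty then 0 else 2

lemma Ex_le (U : Finset (Sym2 V)) (v : V) : Ex U v ≤ 2 := by
  unfold Ex; split_ifs <;> norm_num

lemma Ex_nonneg (U : Finset (Sym2 V)) (v : V) : 0 ≤ Ex U v := by
  unfold Ex; split_ifs <;> norm_num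

lemma Ex_mono {U U' : Finset (Sym2 V)} (h : U' ⊆ U) (v : V) : Ex U v ≤ Ex U' v := by
  by_cases h1 : (nb U v).Nonempty
  · have : Ex U v = 0 := if_pos h1
    rw [this]; exact Ex_nonneg _ _
  · have h2 : ¬ (nb U' v).Nonempty := fun ⟨u, hu⟩ => h1 ⟨u, mem_nb.2 (h (mem_nb.1 hu))⟩
    unfold Ex
    rw [if_neg h1, if_neg h2]

/-- the potential of every vertex is dominated by the controlled variable -/
def Dom (U : Finset (Sym2 V)) (q m z : V → ℝ) : Prop :=
  ∀ v, m v * (1 - 16 * lam) + T (q v) * Ws (nb U v) q + q v ≤ z v + Ex U v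

lemma avg {N : Finset V} (hN : N.Nonempty) (A B : V → ℝ)
    (h : ∀ v ∈ N, A v + ((N.card : ℝ) - 1) * B v ≤ 0) :
    ∃ w ∈ N, ∑ v ∈ N, (if v = w then A v else B v) ≤ 0 := by
  refine Finset.exists_le_of_sum_le (g := fun _ => (0 : ℝ)) hN ?_
  rw [Finset.sum_comm, Finset.sum_const_zero]
  refine Finset.sum_nonpos fun v hv => le_trans (le_of_eq ?_) (h v hv)
  have e : ∀ w, (if v = w then A v else B v) = (if v = w then A v - B v else 0) + B v := by
    intro w; split_ifs <;> ring
  simp only [e, Finset.sum_add_distrib, Finset.sum_ite_eq, hv, if_true, Finset.sum_const,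
    nsmul_eq_mul]
  ring

lemma sum_split {N : Finset V} {x y : V} (hxy : x ≠ y) (hx : x ∉ N) (hy : y ∉ N) (F : V → ℝ)
    (h : ∀ v, v ≠ x → v ≠ y → v ∉ N → F v = 0) : ∑ v, F v = F x + F y + ∑ v ∈ N, F v := by
  have h1 : ∑ v ∈ insert x (insert y N), F v = ∑ v, F v :=
    Finset.sum_subset (subset_univ _) fun v _ hv => by
      simp only [mem_insert, not_or] at hv
      exact h v hv.1 hv.2.1 hv.2.2
  rw [← h1, Finset.sum_insert (by simp [hxy, hx]), Finset.sum_insert hy]
  ring

/-- Maker took `xy` and Breaker answers at `x` -/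
lemma serve {U : Finset (Sym2 V)} (hU : ∀ v, v ∉ nb U v) {q m z : V → ℝ}
    (hq : ∀ v, 1 / 2 ≤ q v ∧ q v ≤ 1) (hd : Dom U q m z) {x y : V} (he : s(x, y) ∈ U)
    (γ : V → ℝ) (hγ : ∀ v, 0 ≤ γ v) :
    ∃ (U' : Finset (Sym2 V)) (q' δ : V → ℝ), Reply U s(x, y) U' ∧
      (∀ v, 1 / 2 ≤ q' v ∧ q' v ≤ 1) ∧
      Dom U' q' (fun v => m v + ind (v ∈ s(x, y))) (fun v => z v + δ v) ∧
      (∀ v, -4 ≤ δ v ∧ δ v ≤ 4) ∧ (∀ v, v ≠ x → v ∉ nb U x → δ v = 0) ∧
      ∑ v, γ v * (Real.exp (lam * δ v) - 1) ≤
        γ x * (Real.exp (lam * (1 - T (q x) / q y - Dr (q x) - 16 * lam)) - 1) +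
        γ y * (Real.exp (lam * (1 - T (q y) / q x - 16 * lam)) - 1) := by
  have hl : lam = 1 / 100000 := rfl
  have hyx : y ∈ nb U x := mem_nb.2 he
  have hxy' : x ∈ nb U y := nb_symm.1 hyx
  have hxy : x ≠ y := by rintro rfl; exact hU x hyx
  set N : Finset V := (nb U x).erase y with hN
  have hxN : x ∉ N := fun h => hU x (mem_of_mem_erase h)
  have hyN : y ∉ N := notMem_erase _ _
  have hEx : Ex U x = 0 := if_pos ⟨y, hyx⟩
  have hEy : Ex U y = 0 := if_pos ⟨x, hxy'⟩
  have gx := g_bound (hq x).1 (hq x).2 (hq y).1 (hq y).2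
  have gy := g_bound (hq y).1 (hq y).2 (hq x).1 (hq x).2
  have d1 := Dr_ge (hq x).1
  have d2 := Dr_le (hq x).1 (hq x).2
  have ix : ind (x ∈ s(x, y)) = 1 := ind_pos (Sym2.mem_mk_left _ _)
  have iy : ind (y ∈ s(x, y)) = 1 := ind_pos (Sym2.mem_mk_right _ _)
  have io : ∀ v, v ≠ x → v ≠ y → ind (v ∈ s(x, y)) = 0 := fun v h1 h2 =>
    ind_neg (by simp [h1, h2])
  set α : ℝ := 1 - T (q x) / q y - Dr (q x) - 16 * lam with hα
  set β : ℝ := 1 - T (q y) / q x - 16 * lam with hβ
  have hα4 : -4 ≤ α ∧ α ≤ 4 := by rw [hα, hl]; constructor <;> linarith [gx.1, gx.2]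
  have hβ4 : -4 ≤ β ∧ β ≤ 4 := by rw [hβ, hl]; constructor <;> linarith [gy.1, gy.2]
  have hWx : Ws N q = Ws (nb U x) q - 1 / q y := Ws_erase hyx q
  have hWy : Ws ((nb U y).erase x) q = Ws (nb U y) q - 1 / q x := Ws_erase hxy' q
  have dy : ∀ E : ℝ, 0 ≤ E → (m y + 1) * (1 - 16 * lam) +
      T (q y) * Ws ((nb U y).erase x) q + q y ≤ z y + β + E := by
    intro E hE
    have h1 := hd y
    rw [hEy] at h1
    rw [hWy, hβ, mul_sub (T (q y)), mul_one_div]
    linarith
  by_cases hNe : N.Nonempty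
  swap
  · refine ⟨U.erase s(x, y), q, fun v => if v = x then α else if v = y then β else 0,
      Or.inl rfl, hq, fun v => ?_, fun v => ?_, fun v h1 h2 => ?_, ?_⟩
    · by_cases hvx : v = x
      · subst hvx
        have h1 := hd v
        have h2 : Ex (U.erase s(v, y)) v = 2 := if_neg (by rw [nb_erase_left]; exact hNe)
        simp only [if_true]
        rw [hEx] at h1
        rw [h2, ix, nb_erase_left, ← hN, hWx, hα, mul_sub (T (q v)), mul_one_div]
        linarith
      · by_cases hvy : v = y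
        · subst hvy
          simp only [if_neg hvx, if_true]
          rw [iy, nb_erase_right]
          exact dy _ (Ex_nonneg _ _)
        · have h1 := hd v
          have h2 := Ex_mono (erase_subset s(x, y) U) v
          simp only [if_neg hvx, if_neg hvy]
          rw [io v hvx hvy, nb_erase_ne U hvx hvy]
          linarith
    · beta_reduce
      split_ifs
      · exact hα4
      · exact hβ4
      · norm_num
    · beta_reduce
      rw [if_neg h1, if_neg (by rintro rfl; exact h2 hyx)]
    · rw [sum_split (N := ∅) hxy (by simp) (by simp) _ (fun v h1 h2 _ => by simp [h1, h2])]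
      simp [hxy.symm]
  · have hc1 : (1 : ℝ) ≤ N.card := by exact_mod_cast hNe.card_pos
    have hc2 := card_le_Ws N hq
    obtain ⟨a, a1, a2, a3, a4⟩ := upd (hq x).1 (hq x).2 (hc1.trans hc2)
    have ia := inv_range a1 (a2.trans (hq x).2)
    have iq := inv_range (hq x).1 (hq x).2
    set Δ : ℝ := 1 / a - 1 / q x with hΔ
    have hΔ0 : 0 ≤ Δ := sub_nonneg.2 (one_div_le_one_div_of_le (by linarith) a2)
    have hΔ1 : Δ ≤ 1 := by rw [hΔ]; linarith [ia.2, iq.1]
    have hΔ2 : Δ * ((N.card : ℝ) - 1) ≤ (1 - 3 * lam) * (1 / q x) := by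
      rw [mul_one_div]
      exact le_trans (mul_le_mul_of_nonneg_left (by linarith) hΔ0) a4
    have T0 : ∀ v, 0 ≤ T (q v) := fun v => le_trans (by norm_num) (T_ge _)
    have T1 : ∀ v, T (q v) ≤ 1 := fun v => T_le (hq v).1 (hq v).2
    obtain ⟨w, hw, hs⟩ := avg hNe
      (fun v => γ v * (Real.exp (lam * -(T (q v) * (1 / q x))) - 1))
      (fun v => γ v * (Real.exp (lam * (T (q v) * Δ)) - 1)) (fun v _ => by
        have := mul_nonpos_of_nonneg_of_nonpos (hγ v) (exp_nb (T0 v) (T1 v)
          (by linarith [iq.1]) iq.2 hΔ0 hΔ1 (sub_nonneg.2 hc1) hΔ2)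
        linarith)
    have hwx : w ≠ x := by rintro rfl; exact hxN hw
    have hwy : w ≠ y := by rintro rfl; exact hyN hw
    have hw1 : s(x, w) ∈ U.erase s(x, y) := mem_nb.1 (by rw [nb_erase_left]; exact hw)
    have hsub : (U.erase s(x, y)).erase s(x, w) ⊆ U := (erase_subset _ _).trans (erase_subset _ _)
    refine ⟨(U.erase s(x, y)).erase s(x, w), Function.update q x a,
      fun v => if v = x then α else if v = y then β else if v ∈ N then
        (if v = w then -(T (q v) * (1 / q x)) else T (q v) * Δ) else 0,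
      Or.inr ⟨_, hw1, rfl⟩, fun v => ?_, fun v => ?_, fun v => ?_, fun v h1 h2 => ?_, ?_⟩
    · by_cases hvx : v = x
      · subst hvx; rw [Function.update_self]; exact ⟨a1, a2.trans (hq v).2⟩
      · rw [Function.update_of_ne hvx]; exact hq v
    · have hE := Ex_mono hsub v
      have h1 := hd v
      by_cases hvx : v = x
      · subst hvx
        simp only [if_true]
        rw [ix, nb_erase_left, nb_erase_left, ← hN, Function.update_self,
          Ws_upd_out (fun h => hxN (mem_of_mem_erase h)), Ws_erase hw, hα]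
        have b1 : T a * (Ws N q - 1 / q w) ≤ T a * (Ws N q - 1) :=
          mul_le_mul_of_nonneg_left (by linarith [(inv_range (hq w).1 (hq w).2).1])
            (le_trans (by norm_num) (T_ge a))
        have b2 : T (q v) * Ws N q = T (q v) * Ws (nb U v) q - T (q v) / q y := by
          rw [hWx, mul_sub, mul_one_div]
        linarith
      · rw [Function.update_of_ne hvx]
        by_cases hvy : v = y
        · subst hvy
          simp only [if_neg hvx, if_true]
          rw [iy, nb_erase_ne _ hvx hwy.symm, nb_erase_right, Ws_upd_out (notMem_erase _ _)]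
          exact dy _ (Ex_nonneg _ _)
        · simp only [if_neg hvx, if_neg hvy]
          rw [io v hvx hvy]
          by_cases hvN : v ∈ N
          · have hxv : x ∈ nb U v := nb_symm.1 (mem_of_mem_erase hvN)
            rw [if_pos hvN]
            by_cases hvw : v = w
            · subst hvw
              rw [if_pos rfl, nb_erase_right, nb_erase_ne U hvx hvy,
                Ws_upd_out (notMem_erase _ _), Ws_erase hxv]
              linarith
            · rw [if_neg hvw, nb_erase_ne _ hvx hvw, nb_erase_ne U hvx hvy, Ws_upd_in hxv, ← hΔ]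
              linarith
          · have hvw : v ≠ w := by rintro rfl; exact hvN hw
            have hxv : x ∉ nb U v := fun h => hvN (mem_erase.2 ⟨hvy, nb_symm.1 h⟩)
            rw [if_neg hvN, nb_erase_ne _ hvx hvw, nb_erase_ne U hvx hvy, Ws_upd_out hxv]
            linarith
    · beta_reduce
      have t0 := T0 v
      have t1 := T1 v
      split_ifs
      · exact hα4
      · exact hβ4
      · constructor <;> nlinarith [iq.1, iq.2]
      · constructor <;> nlinarith
      · norm_num
    · beta_reduce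
      rw [if_neg h1, if_neg (by rintro rfl; exact h2 hyx),
        if_neg (fun h => h2 (mem_of_mem_erase h))]
    · rw [sum_split hxy hxN hyN _ (fun v h1 h2 h3 => by simp [h1, h2, h3])]
      simp only [if_true, if_neg hxy.symm]
      refine add_le_of_nonpos_right (le_trans (le_of_eq ?_) hs)
      refine Finset.sum_congr rfl fun v hv => ?_
      rw [if_neg (by rintro rfl; exact hxN hv), if_neg (by rintro rfl; exact hyN hv), if_pos hv]
      split_ifs <;> rfl

end Pool.Agent.P.MP_0dac36_co.HG
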