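import Pool.Agent.P.MP_0dac36_co.HGame

set_option linter.unusedSectionVars false

namespace Pool.Agent.P.MP_0dac36_co.HG

open Finset LG

variable {V : Type} [Fintype V] [DecidableEq V]

lemma safe_of_win (G : SimpleGraph V) [DecidableRel G.Adj] {n : ℕ} (hdeg : ∀ v, G.degree v ≤ n)
    {d : V → V → ℕ} (hd : Met d) (hadj : ∀ x y, G.Adj x y → d x y ≤ 1) {p c0 : ℝ} (hp : 0 < p)
    (hw : Win d 2 2 (fun _ => p))
    (hc : -Real.log p / lam + (T 1 * n + 3) ≤ c0 * (1 - 16 * lam)) :
    Safe G.edgeFinset (fun _ => c0) := by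
  have hl : lam = 1 / 100000 := rfl
  have hl0 : 0 < lam := by rw [hl]; norm_num
  set L : ℝ := T 1 * n + 1 with hL
  refine ⟨fun U c => U ⊆ G.edgeFinset ∧ ∃ q z : V → ℝ, (∀ v, 1 / 2 ≤ q v ∧ q v ≤ 1) ∧
    Dom U q (fun v => c0 - c v) z ∧ Win d 2 2 (fun v => p * Real.exp (lam * (z v - L))),
    ⟨Subset.rfl, fun _ => 1, fun _ => L, fun _ => by norm_num, fun v => ?_, by simpa using hw⟩, ?_⟩
  · have h1 : nb G.edgeFinset v = G.neighborFinset v := by
      ext u; simp [mem_nb]
    have h2 : Ws (nb G.edgeFinset v) (fun _ => 1) ≤ n := by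
      rw [h1]
      simpa [Ws] using hdeg v
    have h3 := mul_le_mul_of_nonneg_left h2 (le_trans (by norm_num) (T_ge 1))
    have h4 := Ex_nonneg G.edgeFinset v
    simp only [sub_self, zero_mul]
    linarith
  rintro U c ⟨hU, q, z, hq, hD, hW⟩
  have hnb : ∀ v u, u ∈ nb U v → G.Adj v u := fun v u h => by simpa using hU (mem_nb.1 h)
  have hloop : ∀ v, v ∉ nb U v := fun v h => G.irrefl (hnb v v h)
  refine ⟨fun v => ?_, ?_⟩
  · have h1 : p * Real.exp (lam * (z v - L)) < 1 := hW.lt_one v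
    have h2 := Real.log_neg (by positivity) h1
    rw [Real.log_mul hp.ne' (Real.exp_pos _).ne', Real.log_exp] at h2
    have h3 : z v - L ≤ -Real.log p / lam := by rw [le_div_iff₀ hl0]; linarith
    have h4 := hD v
    have h5 := Ex_le U v
    have h6 : 0 ≤ T (q v) * Ws (nb U v) q := mul_nonneg (le_trans (by norm_num) (T_ge _))
      (le_trans (Nat.cast_nonneg _) (card_le_Ws _ hq))
    have h7 := (hq v).1
    have h8 : 0 ≤ c v * (1 - 16 * lam) := by
      beta_reduce at h4
      linarith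
    exact nonneg_of_mul_nonneg_left h8 (by rw [hl]; norm_num)
  intro e he
  induction e using Sym2.ind with
  | _ x y =>
    have hxy : G.Adj x y := by simpa using hU he
    obtain ⟨γ, hγ0, hγ⟩ := hW.step x
    have fin : ∀ (u : V) (U' : Finset (Sym2 V)) (q' δ : V → ℝ), d x u ≤ 1 → Reply U s(x, y) U' →
        (∀ v, 1 / 2 ≤ q' v ∧ q' v ≤ 1) →
        Dom U' q' (fun v => c0 - c v + ind (v ∈ s(x, y))) (fun v => z v + δ v) →
        (∀ v, -4 ≤ δ v ∧ δ v ≤ 4) → (∀ v, v ≠ u → v ∉ nb U u → δ v = 0) →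
        ∑ v, γ v * (Real.exp (lam * δ v) - 1) ≤ 0 →
        ∃ U', Reply U s(x, y) U' ∧ U' ⊆ G.edgeFinset ∧ ∃ q z : V → ℝ,
          (∀ v, 1 / 2 ≤ q v ∧ q v ≤ 1) ∧ Dom U' q (fun v => c0 - (c v - ind (v ∈ s(x, y)))) z ∧
          Win d 2 2 (fun v => p * Real.exp (lam * (z v - L))) := by
      intro u U' q' δ hu h1 h2 h3 h4 h5 h6
      refine ⟨U', h1, h1.subset.trans ((erase_subset _ _).trans hU), q', fun v => z v + δ v, h2,
        ?_, ?_⟩
      · have e : (fun v => c0 - (c v - ind (v ∈ s(x, y)))) =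
            fun v => c0 - c v + ind (v ∈ s(x, y)) := by
          funext v; ring
        rw [e]; exact h3
      · have h7 := hγ (fun v => Real.exp (lam * δ v)) (fun v hv => by
          have a1 : v ≠ u := by rintro rfl; omega
          have a2 : v ∉ nb U u := fun h => by
            have := hadj u v (hnb u v h)
            have := hd.tri x u v
            omega
          rw [h5 v a1 a2, mul_zero, Real.exp_zero])
          (fun v => exp_range (h4 v).1 (h4 v).2) h6
        have e : (fun v => p * Real.exp (lam * (z v + δ v - L))) =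
            fun v => p * Real.exp (lam * (z v - L)) * Real.exp (lam * δ v) := by
          funext v
          rw [mul_assoc, ← Real.exp_add]
          congr 2
          ring
        rw [e]; exact h7
    have he' : s(y, x) ∈ U := by rwa [Sym2.eq_swap]
    obtain ⟨U1, q1, δ1, a1, a2, a3, a4, a5, a6⟩ := serve hloop hq hD he γ hγ0
    obtain ⟨U2, q2, δ2, b1, b2, b3, b4, b5, b6⟩ := serve hloop hq hD he' γ hγ0
    rw [Sym2.eq_swap] at b1 b3
    obtain ⟨P, p0, p1, p2, p3⟩ := pair (hq x).1 (hq x).2 (hq y).1 (hq y).2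
    have gx := g_bound (hq x).1 (hq x).2 (hq y).1 (hq y).2
    have gy := g_bound (hq y).1 (hq y).2 (hq x).1 (hq x).2
    have e1 := mul_nonpos_of_nonneg_of_nonpos (hγ0 x) (exp_end p0 p1 gx.1 (by linarith [gx.2])
      (by linarith [Dr_ge (hq x).1]) (Dr_le (hq x).1 (hq x).2) p2)
    have e2 := mul_nonpos_of_nonneg_of_nonpos (hγ0 y) (exp_end (sub_nonneg.2 p1) (by linarith)
      gy.1 (by linarith [gy.2]) (by linarith [Dr_ge (hq y).1]) (Dr_le (hq y).1 (hq y).2) p3)
    rcases le_or_gt (∑ v, γ v * (Real.exp (lam * δ1 v) - 1)) 0 with h | h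
    · exact fin x U1 q1 δ1 (by rw [hd.self]; omega) a1 a2 a3 a4 a5 h
    · refine fin y U2 q2 δ2 (hadj x y hxy) b1 b2 b3 b4 b5 ?_
      by_contra h'
      push Not at h'
      have c1 := mul_le_mul_of_nonneg_left a6 p0
      have c2 := mul_le_mul_of_nonneg_left b6 (sub_nonneg.2 p1)
      generalize ∑ v, γ v * (Real.exp (lam * δ1 v) - 1) = S1 at *
      generalize ∑ v, γ v * (Real.exp (lam * δ2 v) - 1) = S2 at *
      have c3 : 0 < P * S1 + (1 - P) * S2 := by
        rcases p0.eq_or_lt with h0 | h0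
        · rw [← h0]; linarith
        · have := mul_pos h0 h
          have := mul_nonneg (sub_nonneg.2 p1) h'.le
          linarith
      linarith

theorem seven_twelfths : ∃ n₀ : ℕ, ∀ n : ℕ, n₀ ≤ n →
    ∀ (V : Type) [Fintype V] [DecidableEq V] (G : SimpleGraph V) [DecidableRel G.Adj],
      (∀ v : V, G.degree v ≤ n) →
      ∀ d : ℕ, MakerForces G d true ∅ ∅ → (d : ℝ) ≤ 7 / 12 * (n : ℝ) := by
  have hl : lam = 1 / 100000 := rfl
  obtain ⟨n₀, hn₀⟩ := log_small 1 (1 / 10 ^ 12) (by positivity)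
  refine ⟨max n₀ 1, fun n hn V _ _ G _ hdeg d hM => ?_⟩
  have hn1 : 1 ≤ n := (le_max_right _ _).trans hn
  have hlog := hn₀ n ((le_max_left _ _).trans hn)
  obtain ⟨dd, hd, hball, hadj⟩ := exists_met G hn1 hdeg
  set S : ℝ := ((n + 1 : ℕ) : ℝ) ^ 2 * 2 with hS
  have hS0 : 0 < S := by positivity
  set p : ℝ := 1 / 2 / S ^ 1500 with hp
  have hp0 : 0 < p := by positivity
  have hw : Win dd 2 2 (fun _ => p) :=
    win_local (m := n + 1) (p := p) hd (by omega) hball (by norm_num) (by norm_num) hp0.le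
      (by rw [← hS, hp, div_mul_cancel₀ _ (by positivity)]) _ (fun _ => le_rfl)
  have hlog2 : Real.log 2 ≤ 1 := by
    have := Real.log_le_sub_one_of_pos (x := 2) (by norm_num)
    linarith
  have hL : -Real.log p ≤ 1501 + 3000 * Real.log (n + 1) := by
    rw [hp, Real.log_div (by norm_num) (by positivity), Real.log_pow, hS,
      Real.log_mul (by positivity) (by positivity), Real.log_pow, one_div, Real.log_inv]
    push_cast
    linarith
  have hn0 : (0 : ℝ) ≤ n := Nat.cast_nonneg _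
  have hsafe : Safe G.edgeFinset (fun _ => 7 / 12 * n) := by
    refine safe_of_win G hdeg hd hadj hp0 hw ?_
    have e1 : -Real.log p / lam = 100000 * -Real.log p := by rw [hl]; ring
    rw [e1, hl]
    unfold T
    linarith
  by_contra hcon
  push Not at hcon
  refine Safe.not_forces G d true ∅ ∅ hM _ _ hsafe (fun v => ?_)
    (fun _ e he _ _ => SimpleGraph.mem_edgeFinset.2 he) (fun h => by simp at h)
  have h1 : dg (∅ : Finset (Sym2 V)) v = 0 := cnt_eq_zero fun e he => by simp at he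
  rw [h1]
  linarith

end Pool.Agent.P.MP_0dac36_co.HG
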