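import Pool.Agent.P.MP_0dac36_co.HPoly

namespace Pool.Agent.P.MP_0dac36_co.HG

/-- the exponent of the supermartingales -/
noncomputable def lam : ℝ := 1 / 100000

lemma T_ge (q : ℝ) : 1 / 2 ≤ T q := by
  unfold T
  nlinarith [sq_nonneg (q - 1 / 2)]

lemma T_le {q : ℝ} (h1 : 1 / 2 ≤ q) (h2 : q ≤ 1) : T q ≤ 1 := by
  unfold T
  nlinarith

lemma Dr_ge {q : ℝ} (h1 : 1 / 2 ≤ q) : 1 / 2 ≤ Dr q := by
  have := T_ge q
  unfold Dr
  nlinarith

lemma Dr_le {q : ℝ} (h1 : 1 / 2 ≤ q) (h2 : q ≤ 1) : Dr q ≤ 2 := by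
  have := T_le h1 h2
  unfold Dr
  nlinarith

lemma g_bound {x y : ℝ} (h1 : 1 / 2 ≤ x) (h2 : x ≤ 1) (h3 : 1 / 2 ≤ y) (h4 : y ≤ 1) :
    -1 ≤ 1 - T x / y ∧ 1 - T x / y ≤ 1 / 2 := by
  have hy : 0 < y := by linarith
  have a1 := T_ge x
  have a2 := T_le h1 h2
  have b1 : T x / y ≤ 2 := by rw [div_le_iff₀ hy]; linarith
  have b2 : 1 / 2 ≤ T x / y := by rw [le_div_iff₀ hy]; linarith
  constructor <;> linarith

/-- the two endpoints of the edge of Maker can share the reply -/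
lemma pair {x y : ℝ} (h1 : 1 / 2 ≤ x) (h2 : x ≤ 1) (h3 : 1 / 2 ≤ y) (h4 : y ≤ 1) :
    ∃ P : ℝ, 0 ≤ P ∧ P ≤ 1 ∧ 1 - T x / y ≤ P * Dr x ∧ 1 - T y / x ≤ (1 - P) * Dr y := by
  have hx : 0 < x := by linarith
  have hy : 0 < y := by linarith
  have dx := Dr_ge h1
  have dy := Dr_ge h3
  have gx := (g_bound h1 h2 h3 h4).2
  have gy := (g_bound h3 h4 h1 h2).2
  rcases le_total (1 - T x / y) 0 with h | h
  · exact ⟨0, le_rfl, zero_le_one, by linarith, by linarith⟩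
  · have hD : 0 < Dr x := by linarith
    refine ⟨(1 - T x / y) / Dr x, div_nonneg h hD.le, by rw [div_le_one hD]; linarith,
      by rw [div_mul_cancel₀ _ hD.ne'], ?_⟩
    have hp := poly h1 h2 h3 h4
    have e : (1 - (1 - T x / y) / Dr x) * Dr y - (1 - T y / x) =
        (x * y * (Dr x * Dr y) - (x * (y - T x) * Dr y + y * (x - T y) * Dr x)) /
          (x * y * Dr x) := by
      field_simp
      ring
    have : 0 ≤ (x * y * (Dr x * Dr y) - (x * (y - T x) * Dr y + y * (x - T y) * Dr x)) /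
          (x * y * Dr x) := div_nonneg (by linarith) (by positivity)
    linarith

/-- the new survival level of a served vertex -/
lemma upd {q W : ℝ} (h1 : 1 / 2 ≤ q) (h2 : q ≤ 1) (hW : 1 ≤ W) :
    ∃ q' : ℝ, 1 / 2 ≤ q' ∧ q' ≤ q ∧ T q' * (W - 1) + q' ≤ T q * W - Dr q + q ∧
      (1 / q' - 1 / q) * (W - 1) ≤ (1 - 3 * lam) / q := by
  have hq : 0 < q := by linarith
  have hW0 : 0 < W := by linarith
  set a : ℝ := 1 - 3 * lam with ha
  have ha1 : a < 1 := by rw [ha]; unfold lam; norm_num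
  have ha2 : 9999 / 10000 ≤ a := by rw [ha]; unfold lam; norm_num
  set δ : ℝ := q * a / W with hδ
  have hδW : δ * W = q * a := by rw [hδ]; field_simp
  have hδ0 : 0 ≤ δ := by rw [hδ]; positivity
  have key : ∀ q' : ℝ, q - δ ≤ q' → q' ≤ q → (1 / q' - 1 / q) * (W - 1) ≤ a / q := by
    intro q' b1 b2
    have b3 : 0 < q - δ := by
      have : δ * W < q * W := by rw [hδW]; nlinarith
      have := lt_of_mul_lt_mul_right this hW0.le
      linarith
    have b4 : 0 < q' := by linarith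
    have e : a / q - (1 / q' - 1 / q) * (W - 1) = (a * q' - (q - q') * (W - 1)) / (q * q') := by
      field_simp
    have b5 : (q - q') * (W - 1) ≤ δ * (W - 1) :=
      mul_le_mul_of_nonneg_right (by linarith) (by linarith)
    have b6 : a * (q - δ) ≤ a * q' := mul_le_mul_of_nonneg_left b1 (by linarith)
    have b7 : 0 ≤ (a * q' - (q - q') * (W - 1)) / (q * q') :=
      div_nonneg (by nlinarith) (by positivity)
    linarith
  rcases le_total (q - δ) (1 / 2) with h | h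
  · refine ⟨1 / 2, le_rfl, h1, ?_, key _ h h1⟩
    unfold Dr T
    have b1 : 0 ≤ (q - 1 / 2) ^ 2 * (W - 1) := mul_nonneg (sq_nonneg _) (by linarith)
    nlinarith
  · refine ⟨q - δ, h, by linarith, ?_, key _ le_rfl (by linarith)⟩
    have b0 : 0 ≤ q - 1 / 2 := by linarith
    have b1 : (q - 1 / 2) * (δ * W) = (q - 1 / 2) * (q * a) := by rw [hδW]
    have b2 : δ * (δ * W) = δ * (q * a) := by rw [hδW]
    have b3 : (q - 1 / 2) * q * (9999 / 10000) ≤ (q - 1 / 2) * q * a :=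
      mul_le_mul_of_nonneg_left ha2 (mul_nonneg b0 hq.le)
    have b4 : δ * (q * a) ≤ δ * 1 := mul_le_mul_of_nonneg_left (by nlinarith) hδ0
    have b5 : δ * (q - 1 / 2) ≤ δ * 1 := mul_le_mul_of_nonneg_left (by linarith) hδ0
    have b6 : 0 ≤ (q - 1 / 2) * q := mul_nonneg b0 hq.le
    unfold Dr T
    nlinarith [sq_nonneg δ]

lemma exp_le_quad {x : ℝ} (h1 : -1 ≤ x) (h2 : x ≤ 1) : Real.exp x - 1 ≤ x + x ^ 2 := by
  have := Real.abs_exp_sub_one_sub_id_le (x := x) (abs_le.2 ⟨h1, h2⟩)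
  have := (abs_le.1 this).2
  linarith

/-- a free neighbour of the served vertex does not lose on average -/
lemma exp_nb {t ω Δ k : ℝ} (ht0 : 0 ≤ t) (ht1 : t ≤ 1) (hω0 : 0 ≤ ω) (hω : ω ≤ 2) (hΔ0 : 0 ≤ Δ)
    (hΔ : Δ ≤ 1) (hk : 0 ≤ k) (h : Δ * k ≤ (1 - 3 * lam) * ω) :
    (Real.exp (lam * -(t * ω)) - 1) + k * (Real.exp (lam * (t * Δ)) - 1) ≤ 0 := by
  have hl : lam = 1 / 100000 := rfl
  have u0 : 0 ≤ t * ω := mul_nonneg ht0 hω0
  have u1 : t * ω ≤ 2 := by nlinarith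
  have v0 : 0 ≤ t * Δ := mul_nonneg ht0 hΔ0
  have v1 : t * Δ ≤ 1 := by nlinarith
  have w : t * Δ * k ≤ (1 - 3 * lam) * (t * ω) := by nlinarith
  generalize t * ω = u at *
  generalize t * Δ = v at *
  have e1 := exp_le_quad (x := lam * -u) (by rw [hl]; linarith) (by rw [hl]; linarith)
  have e2 := exp_le_quad (x := lam * v) (by rw [hl]; linarith) (by rw [hl]; linarith)
  have e3 := mul_le_mul_of_nonneg_left e2 hk
  have e4 : v * (v * k) ≤ 1 * (v * k) := mul_le_mul_of_nonneg_right v1 (mul_nonneg v0 hk)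
  have e5 : u * u ≤ 2 * u := mul_le_mul_of_nonneg_right u1 u0
  rw [hl] at *
  nlinarith

/-- an endpoint of the edge of Maker does not lose on average -/
lemma exp_end {P g D : ℝ} (hP0 : 0 ≤ P) (hP1 : P ≤ 1) (hg0 : -1 ≤ g) (hg1 : g ≤ 1) (hD0 : 0 ≤ D)
    (hD : D ≤ 2) (h : g ≤ P * D) :
    P * (Real.exp (lam * (g - D - 16 * lam)) - 1) +
      (1 - P) * (Real.exp (lam * (g - 16 * lam)) - 1) ≤ 0 := by
  have hl : lam = 1 / 100000 := rfl
  have e1 := exp_le_quad (x := lam * (g - D - 16 * lam)) (by rw [hl]; linarith)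
    (by rw [hl]; linarith)
  have e2 := exp_le_quad (x := lam * (g - 16 * lam)) (by rw [hl]; linarith) (by rw [hl]; linarith)
  have e3 : (g - D - 16 * lam) ^ 2 ≤ 4 ^ 2 :=
    sq_le_sq' (by rw [hl]; linarith) (by rw [hl]; linarith)
  have e4 : (g - 16 * lam) ^ 2 ≤ 4 ^ 2 :=
    sq_le_sq' (by rw [hl]; linarith) (by rw [hl]; linarith)
  have e5 : Real.exp (lam * (g - D - 16 * lam)) - 1 ≤ lam * (g - D) := by
    rw [mul_pow] at e1
    rw [hl] at *
    nlinarith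
  have e6 : Real.exp (lam * (g - 16 * lam)) - 1 ≤ lam * g := by
    rw [mul_pow] at e2
    rw [hl] at *
    nlinarith
  have e7 := mul_le_mul_of_nonneg_left e5 hP0
  have e8 := mul_le_mul_of_nonneg_left e6 (sub_nonneg.2 hP1)
  rw [hl] at *
  nlinarith

lemma exp_range {x : ℝ} (h1 : -4 ≤ x) (h2 : x ≤ 4) :
    1 / 2 ≤ Real.exp (lam * x) ∧ Real.exp (lam * x) ≤ 2 := by
  have hl : lam = 1 / 100000 := rfl
  have e1 := Real.add_one_le_exp (lam * x)
  have e2 := exp_le_quad (x := lam * x) (by rw [hl]; linarith) (by rw [hl]; linarith)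
  have e3 : x ^ 2 ≤ 4 ^ 2 := sq_le_sq' h1 h2
  rw [mul_pow] at e2
  rw [hl] at *
  constructor <;> nlinarith

end Pool.Agent.P.MP_0dac36_co.HG
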