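import Mathlib

namespace Pool.Agent.P.MP_0dac36_co.HG

/-- value of one unit of weighted free degree at survival level `q` -/
noncomputable def T (q : ℝ) : ℝ := 1 / 2 + 33 / 100 * (q - 1 / 2) ^ 2

/-- drop of the potential of a served vertex at survival level `q` -/
noncomputable def Dr (q : ℝ) : ℝ := T q + 659 / 1000 * (q * (q - 1 / 2))

lemma box1 {x y : ℝ} (h1 : (1 / 2 : ℝ) ≤ x) (h2 : x ≤ (3 / 4 : ℝ)) (h3 : (1 / 2 : ℝ) ≤ y)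
    (h4 : y ≤ (3 / 4 : ℝ)) :
    x * (y - T x) * Dr y + y * (x - T y) * Dr x ≤ x * y * (Dr x * Dr y) := by
  have key : ∀ a b c e : ℝ, 0 ≤ a → 0 ≤ b → 0 ≤ c → 0 ≤ e → 0 ≤
      (4096 : ℝ) * (a ^ 0 * b ^ 4 * c ^ 0 * e ^ 4) +
      (1876352 / 125 : ℝ) * (a ^ 0 * b ^ 4 * c ^ 1 * e ^ 3) +
      (2620416 / 125 : ℝ) * (a ^ 0 * b ^ 4 * c ^ 2 * e ^ 2) +
      (1649248 / 125 : ℝ) * (a ^ 0 * b ^ 4 * c ^ 3 * e ^ 1) +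
      (393184 / 125 : ℝ) * (a ^ 0 * b ^ 4 * c ^ 4 * e ^ 0) +
      (1876352 / 125 : ℝ) * (a ^ 1 * b ^ 3 * c ^ 0 * e ^ 4) +
      (816633124 / 15625 : ℝ) * (a ^ 1 * b ^ 3 * c ^ 1 * e ^ 3) +
      (1078677316 / 15625 : ℝ) * (a ^ 1 * b ^ 3 * c ^ 2 * e ^ 2) +
      (639475951 / 15625 : ℝ) * (a ^ 1 * b ^ 3 * c ^ 3 * e ^ 1) +
      (142887759 / 15625 : ℝ) * (a ^ 1 * b ^ 3 * c ^ 4 * e ^ 0) +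
      (2620416 / 125 : ℝ) * (a ^ 2 * b ^ 2 * c ^ 0 * e ^ 4) +
      (1078677316 / 15625 : ℝ) * (a ^ 2 * b ^ 2 * c ^ 1 * e ^ 3) +
      (1335347164 / 15625 : ℝ) * (a ^ 2 * b ^ 2 * c ^ 2 * e ^ 2) +
      (735441759 / 15625 : ℝ) * (a ^ 2 * b ^ 2 * c ^ 3 * e ^ 1) +
      (151219911 / 15625 : ℝ) * (a ^ 2 * b ^ 2 * c ^ 4 * e ^ 0) +
      (1649248 / 125 : ℝ) * (a ^ 3 * b ^ 1 * c ^ 0 * e ^ 4) +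
      (639475951 / 15625 : ℝ) * (a ^ 3 * b ^ 1 * c ^ 1 * e ^ 3) +
      (735441759 / 15625 : ℝ) * (a ^ 3 * b ^ 1 * c ^ 2 * e ^ 2) +
      (1486675521 / 62500 : ℝ) * (a ^ 3 * b ^ 1 * c ^ 3 * e ^ 1) +
      (278188289 / 62500 : ℝ) * (a ^ 3 * b ^ 1 * c ^ 4 * e ^ 0) +
      (393184 / 125 : ℝ) * (a ^ 4 * b ^ 0 * c ^ 0 * e ^ 4) +
      (142887759 / 15625 : ℝ) * (a ^ 4 * b ^ 0 * c ^ 1 * e ^ 3) +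
      (151219911 / 15625 : ℝ) * (a ^ 4 * b ^ 0 * c ^ 2 * e ^ 2) +
      (278188289 / 62500 : ℝ) * (a ^ 4 * b ^ 0 * c ^ 3 * e ^ 1) +
      (48267681 / 62500 : ℝ) * (a ^ 4 * b ^ 0 * c ^ 4 * e ^ 0) := by
    intro a b c e _ _ _ _
    positivity
  have h5 := key (x - (1 / 2 : ℝ)) ((3 / 4 : ℝ) - x) (y - (1 / 2 : ℝ)) ((3 / 4 : ℝ) - y)
    (by linarith) (by linarith) (by linarith) (by linarith)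
  rw [← sub_nonneg]
  refine le_of_le_of_eq h5 ?_
  unfold Dr T
  ring

lemma box2 {x y : ℝ} (h1 : (1 / 2 : ℝ) ≤ x) (h2 : x ≤ (3 / 4 : ℝ)) (h3 : (3 / 4 : ℝ) ≤ y)
    (h4 : y ≤ (1 : ℝ)) :
    x * (y - T x) * Dr y + y * (x - T y) * Dr x ≤ x * y * (Dr x * Dr y) := by
  have key : ∀ a b c e : ℝ, 0 ≤ a → 0 ≤ b → 0 ≤ c → 0 ≤ e → 0 ≤
      (393184 / 125 : ℝ) * (a ^ 0 * b ^ 4 * c ^ 0 * e ^ 4) +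
      (1496224 / 125 : ℝ) * (a ^ 0 * b ^ 4 * c ^ 1 * e ^ 3) +
      (2161344 / 125 : ℝ) * (a ^ 0 * b ^ 4 * c ^ 2 * e ^ 2) +
      (1396224 / 125 : ℝ) * (a ^ 0 * b ^ 4 * c ^ 3 * e ^ 1) +
      (67584 / 25 : ℝ) * (a ^ 0 * b ^ 4 * c ^ 4 * e ^ 0) +
      (142887759 / 15625 : ℝ) * (a ^ 1 * b ^ 3 * c ^ 0 * e ^ 4) +
      (503626121 / 15625 : ℝ) * (a ^ 1 * b ^ 3 * c ^ 1 * e ^ 3) +
      (671127826 / 15625 : ℝ) * (a ^ 1 * b ^ 3 * c ^ 2 * e ^ 2) +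
      (396773016 / 15625 : ℝ) * (a ^ 1 * b ^ 3 * c ^ 3 * e ^ 1) +
      (86383552 / 15625 : ℝ) * (a ^ 1 * b ^ 3 * c ^ 4 * e ^ 0) +
      (151219911 / 15625 : ℝ) * (a ^ 2 * b ^ 2 * c ^ 0 * e ^ 4) +
      (474317529 / 15625 : ℝ) * (a ^ 2 * b ^ 2 * c ^ 1 * e ^ 3) +
      (551974474 / 15625 : ℝ) * (a ^ 2 * b ^ 2 * c ^ 2 * e ^ 2) +
      (276447384 / 15625 : ℝ) * (a ^ 2 * b ^ 2 * c ^ 3 * e ^ 1) +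
      (47570528 / 15625 : ℝ) * (a ^ 2 * b ^ 2 * c ^ 4 * e ^ 0) +
      (278188289 / 62500 : ℝ) * (a ^ 3 * b ^ 1 * c ^ 0 * e ^ 4) +
      (738830791 / 62500 : ℝ) * (a ^ 3 * b ^ 1 * c ^ 1 * e ^ 3) +
      (349116423 / 31250 : ℝ) * (a ^ 3 * b ^ 1 * c ^ 2 * e ^ 2) +
      (67770834 / 15625 : ℝ) * (a ^ 3 * b ^ 1 * c ^ 3 * e ^ 1) +
      (8373248 / 15625 : ℝ) * (a ^ 3 * b ^ 1 * c ^ 4 * e ^ 0) +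
      (48267681 / 62500 : ℝ) * (a ^ 4 * b ^ 0 * c ^ 0 * e ^ 4) +
      (107953159 / 62500 : ℝ) * (a ^ 4 * b ^ 0 * c ^ 1 * e ^ 3) +
      (47087127 / 31250 : ℝ) * (a ^ 4 * b ^ 0 * c ^ 2 * e ^ 2) +
      (13568466 / 15625 : ℝ) * (a ^ 4 * b ^ 0 * c ^ 3 * e ^ 1) +
      (4946272 / 15625 : ℝ) * (a ^ 4 * b ^ 0 * c ^ 4 * e ^ 0) := by
    intro a b c e _ _ _ _
    positivity
  have h5 := key (x - (1 / 2 : ℝ)) ((3 / 4 : ℝ) - x) (y - (3 / 4 : ℝ)) ((1 : ℝ) - y)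
    (by linarith) (by linarith) (by linarith) (by linarith)
  rw [← sub_nonneg]
  refine le_of_le_of_eq h5 ?_
  unfold Dr T
  ring

lemma box3 {x y : ℝ} (h1 : (3 / 4 : ℝ) ≤ x) (h2 : x ≤ (1 : ℝ)) (h3 : (1 / 2 : ℝ) ≤ y)
    (h4 : y ≤ (3 / 4 : ℝ)) :
    x * (y - T x) * Dr y + y * (x - T y) * Dr x ≤ x * y * (Dr x * Dr y) := by
  have key : ∀ a b c e : ℝ, 0 ≤ a → 0 ≤ b → 0 ≤ c → 0 ≤ e → 0 ≤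
      (393184 / 125 : ℝ) * (a ^ 0 * b ^ 4 * c ^ 0 * e ^ 4) +
      (142887759 / 15625 : ℝ) * (a ^ 0 * b ^ 4 * c ^ 1 * e ^ 3) +
      (151219911 / 15625 : ℝ) * (a ^ 0 * b ^ 4 * c ^ 2 * e ^ 2) +
      (278188289 / 62500 : ℝ) * (a ^ 0 * b ^ 4 * c ^ 3 * e ^ 1) +
      (48267681 / 62500 : ℝ) * (a ^ 0 * b ^ 4 * c ^ 4 * e ^ 0) +
      (1496224 / 125 : ℝ) * (a ^ 1 * b ^ 3 * c ^ 0 * e ^ 4) +
      (503626121 / 15625 : ℝ) * (a ^ 1 * b ^ 3 * c ^ 1 * e ^ 3) +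
      (474317529 / 15625 : ℝ) * (a ^ 1 * b ^ 3 * c ^ 2 * e ^ 2) +
      (738830791 / 62500 : ℝ) * (a ^ 1 * b ^ 3 * c ^ 3 * e ^ 1) +
      (107953159 / 62500 : ℝ) * (a ^ 1 * b ^ 3 * c ^ 4 * e ^ 0) +
      (2161344 / 125 : ℝ) * (a ^ 2 * b ^ 2 * c ^ 0 * e ^ 4) +
      (671127826 / 15625 : ℝ) * (a ^ 2 * b ^ 2 * c ^ 1 * e ^ 3) +
      (551974474 / 15625 : ℝ) * (a ^ 2 * b ^ 2 * c ^ 2 * e ^ 2) +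
      (349116423 / 31250 : ℝ) * (a ^ 2 * b ^ 2 * c ^ 3 * e ^ 1) +
      (47087127 / 31250 : ℝ) * (a ^ 2 * b ^ 2 * c ^ 4 * e ^ 0) +
      (1396224 / 125 : ℝ) * (a ^ 3 * b ^ 1 * c ^ 0 * e ^ 4) +
      (396773016 / 15625 : ℝ) * (a ^ 3 * b ^ 1 * c ^ 1 * e ^ 3) +
      (276447384 / 15625 : ℝ) * (a ^ 3 * b ^ 1 * c ^ 2 * e ^ 2) +
      (67770834 / 15625 : ℝ) * (a ^ 3 * b ^ 1 * c ^ 3 * e ^ 1) +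
      (13568466 / 15625 : ℝ) * (a ^ 3 * b ^ 1 * c ^ 4 * e ^ 0) +
      (67584 / 25 : ℝ) * (a ^ 4 * b ^ 0 * c ^ 0 * e ^ 4) +
      (86383552 / 15625 : ℝ) * (a ^ 4 * b ^ 0 * c ^ 1 * e ^ 3) +
      (47570528 / 15625 : ℝ) * (a ^ 4 * b ^ 0 * c ^ 2 * e ^ 2) +
      (8373248 / 15625 : ℝ) * (a ^ 4 * b ^ 0 * c ^ 3 * e ^ 1) +
      (4946272 / 15625 : ℝ) * (a ^ 4 * b ^ 0 * c ^ 4 * e ^ 0) := by
    intro a b c e _ _ _ _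
    positivity
  have h5 := key (x - (3 / 4 : ℝ)) ((1 : ℝ) - x) (y - (1 / 2 : ℝ)) ((3 / 4 : ℝ) - y)
    (by linarith) (by linarith) (by linarith) (by linarith)
  rw [← sub_nonneg]
  refine le_of_le_of_eq h5 ?_
  unfold Dr T
  ring

lemma box4 {x y : ℝ} (h1 : (3 / 4 : ℝ) ≤ x) (h2 : x ≤ (1 : ℝ)) (h3 : (3 / 4 : ℝ) ≤ y)
    (h4 : y ≤ (1 : ℝ)) :
    x * (y - T x) * Dr y + y * (x - T y) * Dr x ≤ x * y * (Dr x * Dr y) := by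
  have key : ∀ a b c e : ℝ, 0 ≤ a → 0 ≤ b → 0 ≤ c → 0 ≤ e → 0 ≤
      (48267681 / 62500 : ℝ) * (a ^ 0 * b ^ 4 * c ^ 0 * e ^ 4) +
      (107953159 / 62500 : ℝ) * (a ^ 0 * b ^ 4 * c ^ 1 * e ^ 3) +
      (47087127 / 31250 : ℝ) * (a ^ 0 * b ^ 4 * c ^ 2 * e ^ 2) +
      (13568466 / 15625 : ℝ) * (a ^ 0 * b ^ 4 * c ^ 3 * e ^ 1) +
      (4946272 / 15625 : ℝ) * (a ^ 0 * b ^ 4 * c ^ 4 * e ^ 0) +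
      (107953159 / 62500 : ℝ) * (a ^ 1 * b ^ 3 * c ^ 0 * e ^ 4) +
      (124794481 / 62500 : ℝ) * (a ^ 1 * b ^ 3 * c ^ 1 * e ^ 3) +
      (27580593 / 31250 : ℝ) * (a ^ 1 * b ^ 3 * c ^ 2 * e ^ 2) +
      (40776894 / 15625 : ℝ) * (a ^ 1 * b ^ 3 * c ^ 3 * e ^ 1) +
      (31196928 / 15625 : ℝ) * (a ^ 1 * b ^ 3 * c ^ 4 * e ^ 0) +
      (47087127 / 31250 : ℝ) * (a ^ 2 * b ^ 2 * c ^ 0 * e ^ 4) +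
      (27580593 / 31250 : ℝ) * (a ^ 2 * b ^ 2 * c ^ 1 * e ^ 3) +
      (69670729 / 15625 : ℝ) * (a ^ 2 * b ^ 2 * c ^ 2 * e ^ 2) +
      (195465564 / 15625 : ℝ) * (a ^ 2 * b ^ 2 * c ^ 3 * e ^ 1) +
      (116041568 / 15625 : ℝ) * (a ^ 2 * b ^ 2 * c ^ 4 * e ^ 0) +
      (13568466 / 15625 : ℝ) * (a ^ 3 * b ^ 1 * c ^ 0 * e ^ 4) +
      (40776894 / 15625 : ℝ) * (a ^ 3 * b ^ 1 * c ^ 1 * e ^ 3) +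
      (195465564 / 15625 : ℝ) * (a ^ 3 * b ^ 1 * c ^ 2 * e ^ 2) +
      (329957424 / 15625 : ℝ) * (a ^ 3 * b ^ 1 * c ^ 3 * e ^ 1) +
      (161700288 / 15625 : ℝ) * (a ^ 3 * b ^ 1 * c ^ 4 * e ^ 0) +
      (4946272 / 15625 : ℝ) * (a ^ 4 * b ^ 0 * c ^ 0 * e ^ 4) +
      (31196928 / 15625 : ℝ) * (a ^ 4 * b ^ 0 * c ^ 1 * e ^ 3) +
      (116041568 / 15625 : ℝ) * (a ^ 4 * b ^ 0 * c ^ 2 * e ^ 2) +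
      (161700288 / 15625 : ℝ) * (a ^ 4 * b ^ 0 * c ^ 3 * e ^ 1) +
      (71909376 / 15625 : ℝ) * (a ^ 4 * b ^ 0 * c ^ 4 * e ^ 0) := by
    intro a b c e _ _ _ _
    positivity
  have h5 := key (x - (3 / 4 : ℝ)) ((1 : ℝ) - x) (y - (3 / 4 : ℝ)) ((1 : ℝ) - y)
    (by linarith) (by linarith) (by linarith) (by linarith)
  rw [← sub_nonneg]
  refine le_of_le_of_eq h5 ?_
  unfold Dr T
  ring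

lemma poly {x y : ℝ} (h1 : 1 / 2 ≤ x) (h2 : x ≤ 1) (h3 : 1 / 2 ≤ y) (h4 : y ≤ 1) :
    x * (y - T x) * Dr y + y * (x - T y) * Dr x ≤ x * y * (Dr x * Dr y) := by
  rcases le_total x (3 / 4) with hx | hx <;> rcases le_total y (3 / 4) with hy | hy
  · exact box1 h1 hx h3 hy
  · exact box2 h1 hx hy h4
  · exact box3 hx h2 h3 hy
  · exact box4 hx h2 hy h4

end Pool.Agent.P.MP_0dac36_co.HG
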