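import Pool.Agent.P.MP_0dac36_co.Defs

namespace Pool.Agent.P.MP_0dac36_co

open Finset

variable {V : Type} [DecidableEq V]

open Classical in
/-- real valued count of the members of `U` satisfying `p` -/
noncomputable def cnt (U : Finset (Sym2 V)) (p : Sym2 V → Prop) : ℝ :=
  ∑ e ∈ U, if p e then (1 : ℝ) else 0

open Classical in
noncomputable def ind (p : Prop) : ℝ := if p then 1 else 0

omit [DecidableEq V] in
lemma cnt_eq (U : Finset (Sym2 V)) (p : Sym2 V → Prop) : cnt U p = ∑ e ∈ U, ind (p e) := rfl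

lemma ind_nonneg (p : Prop) : 0 ≤ ind p := by unfold ind; split_ifs <;> norm_num
lemma ind_le_one (p : Prop) : ind p ≤ 1 := by unfold ind; split_ifs <;> norm_num
lemma ind_pos {p : Prop} (h : p) : ind p = 1 := by unfold ind; simp [h]
lemma ind_neg {p : Prop} (h : ¬ p) : ind p = 0 := by unfold ind; simp [h]
lemma ind_mono {p q : Prop} (h : p → q) : ind p ≤ ind q := by
  by_cases hp : p
  · rw [ind_pos hp, ind_pos (h hp)]
  · rw [ind_neg hp]; exact ind_nonneg _

omit [DecidableEq V] in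
lemma cnt_nonneg (U : Finset (Sym2 V)) (p : Sym2 V → Prop) : 0 ≤ cnt U p :=
  Finset.sum_nonneg fun _ _ => ind_nonneg _

omit [DecidableEq V] in
lemma cnt_mono_pred {U : Finset (Sym2 V)} {p q : Sym2 V → Prop} (h : ∀ e ∈ U, p e → q e) :
    cnt U p ≤ cnt U q :=
  Finset.sum_le_sum fun e he => ind_mono (h e he)

omit [DecidableEq V] in
lemma cnt_congr {U : Finset (Sym2 V)} {p q : Sym2 V → Prop} (h : ∀ e ∈ U, p e ↔ q e) :
    cnt U p = cnt U q :=
  le_antisymm (cnt_mono_pred fun e he => (h e he).1) (cnt_mono_pred fun e he => (h e he).2)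

omit [DecidableEq V] in
lemma cnt_mono_set {U U' : Finset (Sym2 V)} (h : U' ⊆ U) (p : Sym2 V → Prop) :
    cnt U' p ≤ cnt U p :=
  Finset.sum_le_sum_of_subset_of_nonneg h fun _ _ _ => ind_nonneg _

lemma cnt_erase {U : Finset (Sym2 V)} {e : Sym2 V} (he : e ∈ U) (p : Sym2 V → Prop) :
    cnt (U.erase e) p = cnt U p - ind (p e) := by
  rw [cnt_eq, cnt_eq, ← Finset.add_sum_erase U _ he]; ring

lemma cnt_sdiff {U U' : Finset (Sym2 V)} (h : U' ⊆ U) (p : Sym2 V → Prop) :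
    cnt (U \ U') p = cnt U p - cnt U' p := by
  rw [cnt_eq, cnt_eq, cnt_eq, ← Finset.sum_sdiff h]; ring

omit [DecidableEq V] in
lemma cnt_eq_card (U : Finset (Sym2 V)) (p : Sym2 V → Prop) [DecidablePred p] :
    cnt U p = ((U.filter p).card : ℝ) := by
  rw [cnt_eq, Finset.card_filter]
  push_cast
  refine Finset.sum_congr rfl fun e _ => ?_
  by_cases h : p e
  · rw [ind_pos h, if_pos h]
  · rw [ind_neg h, if_neg h]

omit [DecidableEq V] in
lemma cnt_eq_zero {U : Finset (Sym2 V)} {p : Sym2 V → Prop} (h : ∀ e ∈ U, ¬ p e) :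
    cnt U p = 0 :=
  Finset.sum_eq_zero fun e he => ind_neg (h e he)

omit [DecidableEq V] in
lemma cnt_split (U : Finset (Sym2 V)) (p q : Sym2 V → Prop) :
    cnt U p = cnt U (fun e => p e ∧ q e) + cnt U (fun e => p e ∧ ¬ q e) := by
  rw [cnt_eq, cnt_eq, cnt_eq, ← Finset.sum_add_distrib]
  refine Finset.sum_congr rfl fun e _ => ?_
  by_cases hp : p e <;> by_cases hq : q e <;> simp [ind, hp, hq]

/-- degree of `v` in the edge set `U` -/
noncomputable def dg (U : Finset (Sym2 V)) (v : V) : ℝ := cnt U (fun e => v ∈ e)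

/-- `U'` is what is left of `U` after Maker took `e` and Breaker took at most one more edge. -/
def Reply (U : Finset (Sym2 V)) (e : Sym2 V) (U' : Finset (Sym2 V)) : Prop :=
  U' = U.erase e ∨ ∃ f ∈ U.erase e, U' = (U.erase e).erase f

/-- With free edges `U` and Maker to move, Breaker can keep Maker from getting more than `c v`
further edges at `v`. -/
def Safe (U : Finset (Sym2 V)) (c : V → ℝ) : Prop :=
  ∃ I : Finset (Sym2 V) → (V → ℝ) → Prop, I U c ∧ ∀ U c, I U c →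
    (∀ v, 0 ≤ c v) ∧ ∀ e ∈ U, ∃ U', Reply U e U' ∧ I U' (fun v => c v - ind (v ∈ e))

lemma Reply.subset {U U' : Finset (Sym2 V)} {e : Sym2 V} (h : Reply U e U') : U' ⊆ U.erase e := by
  rcases h with rfl | ⟨f, _, rfl⟩
  · exact Subset.rfl
  · exact erase_subset _ _

lemma Safe.step {U : Finset (Sym2 V)} {c : V → ℝ} (h : Safe U c) :
    (∀ v, 0 ≤ c v) ∧ ∀ e ∈ U, ∃ U', Reply U e U' ∧ Safe U' (fun v => c v - ind (v ∈ e)) := by
  obtain ⟨I, h0, hI⟩ := h
  refine ⟨(hI U c h0).1, fun e he => ?_⟩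
  obtain ⟨U', h1, h2⟩ := (hI U c h0).2 e he
  exact ⟨U', h1, I, h2, hI⟩

lemma Safe.mono {U U' : Finset (Sym2 V)} {c c' : V → ℝ} (h : Safe U c) (hU : U' ⊆ U)
    (hc : ∀ v, c v ≤ c' v) : Safe U' c' := by
  refine ⟨fun U' c' => ∃ U c, Safe U c ∧ U' ⊆ U ∧ ∀ v, c v ≤ c' v, ⟨U, c, h, hU, hc⟩, ?_⟩
  rintro U' c' ⟨U, c, h, hU, hc⟩
  refine ⟨fun v => (h.step.1 v).trans (hc v), fun e he => ?_⟩
  obtain ⟨U1, h1, h2⟩ := h.step.2 e (hU he)
  rcases h1 with rfl | ⟨f, hf, rfl⟩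
  · exact ⟨U'.erase e, Or.inl rfl, _, _, h2, erase_subset_erase _ hU,
      fun v => by have := hc v; linarith⟩
  · by_cases hf' : f ∈ U'.erase e
    · exact ⟨(U'.erase e).erase f, Or.inr ⟨f, hf', rfl⟩, _, _, h2,
        erase_subset_erase _ (erase_subset_erase _ hU), fun v => by have := hc v; linarith⟩
    · refine ⟨U'.erase e, Or.inl rfl, _, _, h2, ?_, fun v => by have := hc v; linarith⟩
      intro x hx
      exact mem_erase.2 ⟨fun hxf => hf' (hxf ▸ hx), erase_subset_erase _ hU hx⟩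

lemma Safe.min_dg {U : Finset (Sym2 V)} {c : V → ℝ} (h : Safe U c) :
    Safe U (fun v => min (c v) (dg U v)) := by
  refine ⟨fun U c' => ∃ c, Safe U c ∧ ∀ v, min (c v) (dg U v) ≤ c' v, ⟨c, h, fun _ => le_rfl⟩, ?_⟩
  rintro U c' ⟨c, h, hc⟩
  refine ⟨fun v => (le_min (h.step.1 v) (cnt_nonneg _ _)).trans (hc v), fun e he => ?_⟩
  obtain ⟨U1, h1, h2⟩ := h.step.2 e he
  refine ⟨U1, h1, _, h2, fun v => ?_⟩
  have h3 : dg U1 v ≤ dg U v - ind (v ∈ e) := by
    have := cnt_mono_set h1.subset (fun e => v ∈ e)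
    rw [cnt_erase he] at this
    exact this
  have := hc v
  have h4 : min (c v - ind (v ∈ e)) (dg U1 v) ≤ min (c v) (dg U v) - ind (v ∈ e) := by
    rcases le_total (c v) (dg U v) with h5 | h5
    · rw [min_eq_left h5]; exact min_le_left _ _
    · rw [min_eq_right h5]; exact (min_le_right _ _).trans h3
  show min (c v - ind (v ∈ e)) (dg U1 v) ≤ c' v - ind (v ∈ e)
  linarith

lemma Safe.union {U1 U2 : Finset (Sym2 V)} {c1 c2 : V → ℝ} (h1 : Safe U1 c1) (h2 : Safe U2 c2)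
    (hd : Disjoint U1 U2) : Safe (U1 ∪ U2) (fun v => c1 v + c2 v) := by
  refine ⟨fun U c => ∃ U1 U2 c1 c2, Safe U1 c1 ∧ Safe U2 c2 ∧ Disjoint U1 U2 ∧ U = U1 ∪ U2 ∧
    c = fun v => c1 v + c2 v, ⟨U1, U2, c1, c2, h1, h2, hd, rfl, rfl⟩, ?_⟩
  have key : ∀ (U1 U2 : Finset (Sym2 V)) (c1 : V → ℝ), Safe U1 c1 → Disjoint U1 U2 → ∀ e ∈ U1,
      ∃ U1', Reply (U1 ∪ U2) e (U1' ∪ U2) ∧ Disjoint U1' U2 ∧
        Safe U1' (fun v => c1 v - ind (v ∈ e)) := by
    intro U1 U2 c1 h1 hd e he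
    obtain ⟨U', h3, h4⟩ := h1.step.2 e he
    have he2 : e ∉ U2 := Finset.disjoint_left.1 hd he
    have hE : (U1 ∪ U2).erase e = U1.erase e ∪ U2 := by
      rw [erase_union_distrib, erase_eq_of_notMem he2]
    refine ⟨U', ?_, Finset.disjoint_of_subset_left (h3.subset.trans (erase_subset _ _)) hd, h4⟩
    rcases h3 with rfl | ⟨f, hf, rfl⟩
    · exact Or.inl hE.symm
    · refine Or.inr ⟨f, by rw [hE]; exact mem_union_left _ hf, ?_⟩
      have hf2 : f ∉ U2 := Finset.disjoint_left.1 hd (mem_of_mem_erase hf)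
      rw [hE, erase_union_distrib, erase_eq_of_notMem hf2]
  rintro U c ⟨U1, U2, c1, c2, h1, h2, hd, rfl, rfl⟩
  refine ⟨fun v => add_nonneg (h1.step.1 v) (h2.step.1 v), fun e he => ?_⟩
  rcases mem_union.1 he with he | he
  · obtain ⟨U', h3, h4, h5⟩ := key U1 U2 c1 h1 hd e he
    exact ⟨_, h3, U', U2, _, c2, h5, h2, h4, rfl, by funext v; ring⟩
  · obtain ⟨U', h3, h4, h5⟩ := key U2 U1 c2 h2 hd.symm e he
    refine ⟨_, by rw [union_comm]; exact h3, U1, U', c1, _, h1, h5, h4.symm, union_comm _ _,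
      by funext v; ring⟩

/-- link with the game -/
lemma Safe.not_forces [Fintype V] (G : SimpleGraph V) [DecidableRel G.Adj] (d : ℕ) (t : Bool)
    (M B : Finset (Sym2 V)) (h : MakerForces G d t M B) :
    ∀ (U : Finset (Sym2 V)) (c : V → ℝ), Safe U c →
      (∀ v, dg M v + c v < d) →
      (t = true → ∀ e ∈ G.edgeSet, e ∉ M → e ∉ B → e ∈ U) →
      (t = false → ∃ f, ∀ e ∈ G.edgeSet, e ∉ M → e ∉ B → e ≠ f → e ∈ U) → False := by
  induction h with
  | finish t M B _ h2 =>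
    intro U c hs hc _ _
    obtain ⟨v, hv⟩ := h2
    have h3 := hc v
    have h4 := hs.step.1 v
    rw [dg, cnt_eq_card] at h3
    have : (d : ℝ) ≤ ((M.filter (fun e => v ∈ e)).card : ℝ) := by exact_mod_cast hv
    linarith
  | maker M B e he heM heB _ ih =>
    intro U c hs hc h1 _
    have heU := h1 rfl e he heM heB
    obtain ⟨U', h3, h4⟩ := hs.step.2 e heU
    refine ih U' _ h4 (fun v => ?_) (fun h => by simp at h) (fun _ => ?_)
    · have h5 := cnt_erase (mem_insert_self e M) (fun e => v ∈ e)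
      rw [erase_insert heM] at h5
      have := hc v
      unfold dg at this ⊢
      linarith
    · rcases h3 with rfl | ⟨f, _, rfl⟩
      · refine ⟨e, fun x hx hxM hxB hxe => mem_erase.2 ⟨hxe, h1 rfl x hx
          (fun h => hxM (mem_insert_of_mem h)) hxB⟩⟩
      · refine ⟨f, fun x hx hxM hxB hxf => mem_erase.2 ⟨hxf, mem_erase.2 ⟨fun h => hxM ?_,
          h1 rfl x hx (fun h => hxM (mem_insert_of_mem h)) hxB⟩⟩⟩
        rw [h]; exact mem_insert_self _ _
  | breaker M B hex _ ih =>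
    intro U c hs hc _ h2
    obtain ⟨f, hf⟩ := h2 rfl
    by_cases hff : f ∈ G.edgeSet ∧ f ∉ M ∧ f ∉ B
    · refine ih f hff.1 hff.2.1 hff.2.2 U c hs hc (fun _ x hx hxM hxB => hf x hx hxM
        (fun h => hxB (mem_insert_of_mem h)) (fun h => hxB ?_)) (fun h => by simp at h)
      rw [h]; exact mem_insert_self _ _
    · obtain ⟨g, hg, hgM, hgB⟩ := hex
      refine ih g hg hgM hgB U c hs hc (fun _ x hx hxM hxB => hf x hx hxM
        (fun h => hxB (mem_insert_of_mem h)) (fun h => hff ?_)) (fun h => by simp at h)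
      rw [← h]; exact ⟨hx, hxM, fun h => hxB (mem_insert_of_mem h)⟩

end Pool.Agent.P.MP_0dac36_co
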