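import Pool.Agent.P.MP_0dac36_co.LIter
import Pool.Agent.P.MP_0dac36_co.Safe

set_option linter.unusedSectionVars false

namespace Pool.Agent.P.MP_0dac36_co.LG

open Finset

variable {V : Type} [Fintype V] [DecidableEq V]

/-- `y` is reached from `x` by at most `k` steps -/
def near (G : SimpleGraph V) (x : V) (k : ℕ) : V → Prop :=
  Nat.rec (fun y => y = x) (fun _ P y => P y ∨ ∃ z, P z ∧ G.Adj z y) k

lemma near_zero (G : SimpleGraph V) (x y : V) : near G x 0 y ↔ y = x := Iff.rfl

lemma near_succ (G : SimpleGraph V) (x y : V) (k : ℕ) :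
    near G x (k + 1) y ↔ near G x k y ∨ ∃ z, near G x k z ∧ G.Adj z y := Iff.rfl

lemma near_mono {G : SimpleGraph V} {x y : V} {j k : ℕ} (h : near G x j y) (hjk : j ≤ k) :
    near G x k y := by
  induction hjk with
  | refl => exact h
  | step _ ih => exact Or.inl ih

lemma near_trans {G : SimpleGraph V} {x y : V} {j : ℕ} (h : near G x j y) (k : ℕ) :
    ∀ z, near G y k z → near G x (j + k) z := by
  induction k with
  | zero => intro z hz; rw [near_zero] at hz; subst hz; exact h
  | succ k ih =>
    intro z hz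
    rcases (near_succ _ _ _ _).1 hz with hz | ⟨w, hw, hwz⟩
    · exact Or.inl (ih z hz)
    · exact Or.inr ⟨w, ih w hw, hwz⟩

lemma near_adj {G : SimpleGraph V} {x y : V} (h : G.Adj x y) : near G x 1 y :=
  Or.inr ⟨x, rfl, h⟩

lemma near_symm {G : SimpleGraph V} {x : V} (k : ℕ) : ∀ y, near G x k y → near G y k x := by
  induction k with
  | zero => intro y hy; rw [near_zero] at hy ⊢; exact hy.symm
  | succ k ih =>
    intro y hy
    rcases (near_succ _ _ _ _).1 hy with hy | ⟨w, hw, hwy⟩
    · exact Or.inl (ih y hy)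
    · have := near_trans (near_adj hwy.symm) k x (ih w hw)
      rwa [add_comm] at this

open Classical in
lemma near_card (G : SimpleGraph V) [DecidableRel G.Adj] {n : ℕ} (hdeg : ∀ v, G.degree v ≤ n)
    (x : V) (k : ℕ) : (univ.filter (fun y => near G x k y)).card ≤ (n + 1) ^ k := by
  induction k with
  | zero =>
    rw [pow_zero, Finset.card_le_one]
    intro a ha b hb
    rw [(near_zero _ _ _).1 (mem_filter.1 ha).2, (near_zero _ _ _).1 (mem_filter.1 hb).2]
  | succ k ih =>
    have h1 : univ.filter (fun y => near G x (k + 1) y) ⊆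
        (univ.filter (fun y => near G x k y)).biUnion
          (fun z => insert z (G.neighborFinset z)) := by
      intro y hy
      rcases (near_succ _ _ _ _).1 (mem_filter.1 hy).2 with hy | ⟨w, hw, hwy⟩
      · exact mem_biUnion.2 ⟨y, mem_filter.2 ⟨mem_univ _, hy⟩, mem_insert_self _ _⟩
      · exact mem_biUnion.2 ⟨w, mem_filter.2 ⟨mem_univ _, hw⟩,
          mem_insert_of_mem ((G.mem_neighborFinset _ _).2 hwy)⟩
    refine (card_le_card h1).trans (card_biUnion_le.trans ?_)
    refine (Finset.sum_le_card_nsmul _ _ (n + 1) fun z _ => ?_).trans ?_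
    · refine (card_insert_le _ _).trans ?_
      rw [SimpleGraph.card_neighborFinset_eq_degree]
      have := hdeg z
      omega
    · rw [smul_eq_mul, pow_succ]
      exact Nat.mul_le_mul_right _ ih

lemma exists_met (G : SimpleGraph V) [DecidableRel G.Adj] {n : ℕ} (hn : 1 ≤ n)
    (hdeg : ∀ v, G.degree v ≤ n) :
    ∃ d : V → V → ℕ, Met d ∧ (∀ x k, (ball d x k).card ≤ (n + 1) ^ k) ∧
      ∀ x y, G.Adj x y → d x y ≤ 1 := by
  classical
  have hex : ∀ x y : V, ∃ k, near G x k y ∨ Fintype.card V ≤ k := fun x y => ⟨_, Or.inr le_rfl⟩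
  have hiff : ∀ x y k, Nat.find (hex x y) ≤ k ↔ (near G x k y ∨ Fintype.card V ≤ k) := by
    intro x y k
    rw [Nat.find_le_iff]
    constructor
    · rintro ⟨j, hj, h | h⟩
      · exact Or.inl (near_mono h hj)
      · exact Or.inr (h.trans hj)
    · exact fun h => ⟨k, le_rfl, h⟩
  have hsym : ∀ a b, Nat.find (hex a b) ≤ Nat.find (hex b a) := by
    intro a b
    rw [hiff]
    rcases (hiff b a _).1 le_rfl with h | h
    · exact Or.inl (near_symm _ _ h)
    · exact Or.inr h
  refine ⟨fun x y => Nat.find (hex x y), ⟨fun a b => le_antisymm (hsym a b) (hsym b a),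
    fun a b c => ?_, fun a => ?_⟩, fun x k => ?_, fun x y h => ?_⟩
  · rw [hiff]
    rcases (hiff a b _).1 le_rfl with h | h
    · rcases (hiff b c _).1 le_rfl with h' | h'
      · exact Or.inl (near_trans h _ _ h')
      · exact Or.inr (h'.trans (Nat.le_add_left _ _))
    · exact Or.inr (h.trans (Nat.le_add_right _ _))
  · exact Nat.le_zero.1 ((hiff a a 0).2 (Or.inl rfl))
  · by_cases hk : Fintype.card V ≤ k
    · calc _ ≤ Fintype.card V := card_le_univ _
        _ ≤ k := hk
        _ ≤ 2 ^ k := Nat.lt_two_pow_self.le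
        _ ≤ (n + 1) ^ k := Nat.pow_le_pow_left (by omega) k
    · refine le_trans (card_le_card fun y hy => ?_) (near_card G hdeg x k)
      rcases (hiff x y k).1 (mem_ball.1 hy) with h | h
      · exact mem_filter.2 ⟨mem_univ _, h⟩
      · exact absurd h hk
  · exact (hiff x y 1).2 (Or.inl (near_adj h))

/-- the bookkeeping of one vertex -/
def Book (n : ℕ) (U : Finset (Sym2 V)) (i r : V → ℕ) : Prop :=
  ∀ v, dg U v + i v + 2 * r v ≤ n ∨ (dg U v = 0 ∧ (i v : ℝ) + 2 * r v ≤ n + 1)

lemma dg_mono {U U' : Finset (Sym2 V)} (h : U' ⊆ U) (v : V) : dg U' v ≤ dg U v :=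
  cnt_mono_set h _

lemma dg_nonneg (U : Finset (Sym2 V)) (v : V) : 0 ≤ dg U v := cnt_nonneg _ _

lemma dg_erase {U : Finset (Sym2 V)} {e : Sym2 V} (he : e ∈ U) {v : V} (hv : v ∈ e) :
    dg (U.erase e) v = dg U v - 1 := by
  unfold dg
  rw [cnt_erase he, ind_pos hv]

lemma book_step {n : ℕ} {U : Finset (Sym2 V)} {i r : V → ℕ} (h : Book n U i r) {x y : V}
    (hxy : x ≠ y) (he : s(x, y) ∈ U) :
    ∃ U', Reply U s(x, y) U' ∧
      Book n U' (Function.update i x (i x + 1)) (Function.update r y (r y + 1)) := by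
  have hx : x ∈ s(x, y) := Sym2.mem_mk_left x y
  have hy : y ∈ s(x, y) := Sym2.mem_mk_right x y
  have gen : ∀ U' : Finset (Sym2 V), U' ⊆ U.erase s(x, y) →
      (dg U' y + i y + 2 * (r y + 1) ≤ n ∨ (dg U' y = 0 ∧ (i y : ℝ) + 2 * (r y + 1) ≤ n + 1)) →
      Book n U' (Function.update i x (i x + 1)) (Function.update r y (r y + 1)) := by
    intro U' hU' hy' v
    by_cases hvy : v = y
    · subst hvy
      rw [Function.update_of_ne hxy.symm, Function.update_self]
      push_cast
      exact hy'
    · rw [Function.update_of_ne hvy]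
      by_cases hvx : v = x
      · subst hvx
        rw [Function.update_self]
        have h1 := dg_mono hU' v
        have h2 := dg_erase he hx
        have h3 := dg_nonneg (U.erase s(v, y)) v
        push_cast
        rcases h v with h4 | h4
        · left; linarith
        · exfalso; linarith [h4.1]
      · rw [Function.update_of_ne hvx]
        have h1 := dg_mono (hU'.trans (erase_subset _ _)) v
        have h3 := dg_nonneg U' v
        rcases h v with h4 | h4
        · left; linarith
        · right; exact ⟨by linarith [h4.1], h4.2⟩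
  have h2 := dg_erase he hy
  have h3 := dg_nonneg (U.erase s(x, y)) y
  have h4 : dg U y + i y + 2 * r y ≤ n := by
    rcases h y with h4 | h4
    · exact h4
    · exfalso; linarith [h4.1]
  by_cases hf : ∃ f ∈ U.erase s(x, y), y ∈ f
  · obtain ⟨f, hf1, hf2⟩ := hf
    refine ⟨_, Or.inr ⟨f, hf1, rfl⟩, gen _ (erase_subset _ _) (Or.inl ?_)⟩
    rw [dg_erase hf1 hf2]
    linarith
  · push Not at hf
    have h5 : dg (U.erase s(x, y)) y = 0 := cnt_eq_zero hf
    exact ⟨_, Or.inl rfl, gen _ Subset.rfl (Or.inr ⟨h5, by linarith⟩)⟩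

lemma safe_of_win (G : SimpleGraph V) [DecidableRel G.Adj] {n : ℕ} (hdeg : ∀ v, G.degree v ≤ n)
    {d : V → V → ℕ} (hd : Met d) (hadj : ∀ x y, G.Adj x y → d x y ≤ 1) {a p c0 : ℝ}
    (ha0 : 0 < a) (ha1 : a < 1) (hw : Win d 1 (1 / (1 - a)) (fun _ => p))
    (hc : ∀ i r : ℕ, p * (1 + a) ^ i * (1 - a) ^ r < 1 → (i : ℝ) + 2 * r ≤ n + 1 →
      (i : ℝ) + r ≤ c0) : Safe G.edgeFinset (fun _ => c0) := by
  have hdg : ∀ v, dg G.edgeFinset v = G.degree v := by
    intro v
    rw [dg, cnt_eq_card, ← SimpleGraph.card_incidenceFinset_eq_degree,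
      SimpleGraph.incidenceFinset_eq_filter]
  refine ⟨fun U c => U ⊆ G.edgeFinset ∧ ∃ i r : V → ℕ, Book n U i r ∧
    Win d 1 (1 / (1 - a)) (fun v => p * (1 + a) ^ i v * (1 - a) ^ r v) ∧
    ∀ v, c v = c0 - i v - r v, ⟨Subset.rfl, fun _ => 0, fun _ => 0, fun v => Or.inl ?_,
      by simpa using hw, fun v => by simp⟩, ?_⟩
  · rw [hdg]; simpa using hdeg v
  rintro U c ⟨hU, i, r, hb, hw, hcv⟩
  refine ⟨fun v => ?_, ?_⟩
  · have h1 := hc (i v) (r v) (hw.lt_one v) (by
      have := dg_nonneg U v
      rcases hb v with h | h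
      · linarith
      · exact h.2)
    rw [hcv]; linarith
  have h1a : 0 < 1 - a := by linarith
  have main : ∀ x y u, s(x, y) ∈ U → G.Adj x y → d u x ≤ 1 → d u y ≤ 1 →
      (∀ θ : V → ℝ, θ = (fun z => if z = x then 1 + a else if z = y then 1 - a else 1) →
        (∀ z, 1 < d u z → θ z = 1) → (∀ z, 1 / (1 / (1 - a)) ≤ θ z ∧ θ z ≤ 1 / (1 - a)) →
        Win d 1 (1 / (1 - a)) (fun v => p * (1 + a) ^ i v * (1 - a) ^ r v * θ v)) →
      ∃ U', Reply U s(x, y) U' ∧ U' ⊆ G.edgeFinset ∧ ∃ i r : V → ℕ, Book n U' i r ∧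
        Win d 1 (1 / (1 - a)) (fun v => p * (1 + a) ^ i v * (1 - a) ^ r v) ∧
        ∀ v, c v - ind (v ∈ s(x, y)) = c0 - i v - r v := by
    intro x y u he hxy hux huy hW
    obtain ⟨U', h1, h2⟩ := book_step hb hxy.ne he
    refine ⟨U', h1, h1.subset.trans ((erase_subset _ _).trans hU), _, _, h2, ?_, fun v => ?_⟩
    · have := hW _ rfl (fun z hz => by
          rw [if_neg (by rintro rfl; omega), if_neg (by rintro rfl; omega)]) (fun z => by
          rw [one_div_one_div, le_div_iff₀ h1a]
          split_ifs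
          · constructor <;> nlinarith
          · constructor <;> nlinarith
          · constructor <;> nlinarith)
      convert this using 2 with v
      by_cases hvx : v = x
      · subst hvx
        rw [Function.update_self, Function.update_of_ne hxy.ne, if_pos rfl]; ring
      · rw [Function.update_of_ne hvx, if_neg hvx]
        by_cases hvy : v = y
        · subst hvy
          rw [Function.update_self, if_pos rfl]; ring
        · rw [Function.update_of_ne hvy, if_neg hvy]; ring
    · rw [hcv]
      by_cases hvx : v = x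
      · subst hvx
        rw [Function.update_self, Function.update_of_ne hxy.ne, ind_pos (Sym2.mem_mk_left _ _)]
        push_cast; ring
      · rw [Function.update_of_ne hvx]
        by_cases hvy : v = y
        · subst hvy
          rw [Function.update_self, ind_pos (Sym2.mem_mk_right _ _)]
          push_cast; ring
        · rw [Function.update_of_ne hvy, ind_neg (by simp [hvx, hvy])]; ring
  intro e he
  induction e using Sym2.ind with
  | _ x y =>
    have hxy : G.Adj x y := by simpa using hU he
    obtain ⟨γ, hγ0, hγ⟩ := hw.step x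
    have hs : ∀ x y : V, x ≠ y →
        ∑ z, γ z * ((if z = x then 1 + a else if z = y then 1 - a else 1) - 1) =
          a * (γ x - γ y) := by
      intro x y hne
      have : ∀ z, γ z * ((if z = x then 1 + a else if z = y then 1 - a else 1) - 1) =
          (if z = x then a * γ z else 0) - (if z = y then a * γ z else 0) := by
        intro z
        by_cases h1 : z = x
        · subst h1; simp [hne]; ring
        · by_cases h2 : z = y
          · subst h2; simp [h1]; ring
          · simp [h1, h2]
      simp only [this, Finset.sum_sub_distrib, Finset.sum_ite_eq', mem_univ, if_true]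
      ring
    have hxx : d x x ≤ 1 := by rw [hd.self]; omega
    rcases le_total (γ x) (γ y) with hle | hle
    · refine main x y x he hxy hxx (hadj x y hxy) ?_
      rintro θ rfl h1 h2
      refine hγ _ h1 h2 ?_
      rw [hs x y hxy.ne]; nlinarith
    · have he' : s(y, x) ∈ U := by rwa [Sym2.eq_swap]
      have := main y x x he' hxy.symm (hadj x y hxy) hxx (by
        rintro θ rfl h1 h2
        refine hγ _ h1 h2 ?_
        rw [hs y x hxy.ne.symm]; nlinarith)
      rwa [Sym2.eq_swap] at this

end Pool.Agent.P.MP_0dac36_co.LG
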