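import Mathlib

set_option linter.unusedSectionVars false

namespace Pool.Agent.P.MP_0dac36_co.LG

open Finset

variable {V : Type} [Fintype V] [DecidableEq V]

/-- The linear game in ratio form: the controller can keep all variables below one. -/
def Win (d : V → V → ℕ) (D : ℕ) (l : ℝ) (X : V → ℝ) : Prop :=
  ∃ I : (V → ℝ) → Prop, I X ∧ ∀ X, I X → (∀ v, X v < 1) ∧ ∀ u, ∃ γ : V → ℝ, (∀ z, 0 ≤ γ z) ∧
    ∀ θ : V → ℝ, (∀ z, D < d u z → θ z = 1) → (∀ z, 1 / l ≤ θ z ∧ θ z ≤ l) →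
      ∑ z, γ z * (θ z - 1) ≤ 0 → I (fun z => X z * θ z)

omit [DecidableEq V] in
lemma Win.lt_one {d : V → V → ℕ} {D : ℕ} {l : ℝ} {X : V → ℝ} (h : Win d D l X) (v : V) :
    X v < 1 := by
  obtain ⟨I, h0, hI⟩ := h
  exact (hI X h0).1 v

omit [DecidableEq V] in
lemma Win.step {d : V → V → ℕ} {D : ℕ} {l : ℝ} {X : V → ℝ} (h : Win d D l X) (u : V) :
    ∃ γ : V → ℝ, (∀ z, 0 ≤ γ z) ∧
    ∀ θ : V → ℝ, (∀ z, D < d u z → θ z = 1) → (∀ z, 1 / l ≤ θ z ∧ θ z ≤ l) →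
      ∑ z, γ z * (θ z - 1) ≤ 0 → Win d D l (fun z => X z * θ z) := by
  obtain ⟨I, h0, hI⟩ := h
  obtain ⟨γ, h1, h2⟩ := (hI X h0).2 u
  exact ⟨γ, h1, fun θ a b c => ⟨I, h2 θ a b c, hI⟩⟩

omit [DecidableEq V] in
lemma Win.stepB {d : V → V → ℕ} {D : ℕ} {l : ℝ} {X : V → ℝ} (h : Win d D l X)
    (hX : ∀ v, 0 ≤ X v) (hl : 1 ≤ l) (u : V) :
    ∃ β : V → ℝ, (∀ z, 0 ≤ β z) ∧
    ∀ X' : V → ℝ, (∀ z, D < d u z → X' z = X z) → (∀ z, X z / l ≤ X' z ∧ X' z ≤ X z * l) →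
      ∑ z, β z * X' z ≤ ∑ z, β z * X z → Win d D l X' := by
  classical
  obtain ⟨γ, h1, h2⟩ := h.step u
  have hl0 : 0 < l := by linarith
  refine ⟨fun z => γ z / X z, fun z => div_nonneg (h1 z) (hX z), fun X' a b c => ?_⟩
  have key := h2 (fun z => if X z = 0 then 1 else X' z / X z) ?_ ?_ ?_
  · convert key using 2 with z
    by_cases hz : X z = 0
    · have := b z
      rw [hz] at this
      simp only [hz, if_true]
      simp at this
      linarith [this.1, this.2]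
    · simp only [hz, if_false]
      field_simp
  · intro z hz
    by_cases hz0 : X z = 0
    · simp [hz0]
    · simp only [hz0, if_false]
      rw [a z hz]; exact div_self hz0
  · intro z
    by_cases hz0 : X z = 0
    · simp only [hz0, if_true]
      exact ⟨by rw [div_le_one hl0]; exact hl, hl⟩
    · simp only [hz0, if_false]
      have hp : 0 < X z := lt_of_le_of_ne (hX z) (Ne.symm hz0)
      constructor
      · rw [le_div_iff₀ hp]
        have := (b z).1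
        calc 1 / l * X z = X z / l := by ring
          _ ≤ _ := this
      · rw [div_le_iff₀ hp]
        have := (b z).2
        linarith
  · have : ∑ z, γ z * ((if X z = 0 then 1 else X' z / X z) - 1)
        = ∑ z, γ z / X z * X' z - ∑ z, γ z / X z * X z := by
      rw [← Finset.sum_sub_distrib]
      refine Finset.sum_congr rfl fun z _ => ?_
      by_cases hz0 : X z = 0
      · simp [hz0]
      · simp only [hz0, if_false]
        field_simp
    rw [this]; linarith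

omit [DecidableEq V] in
lemma win_small (d : V → V → ℕ) (D : ℕ) {l p : ℝ} (hl : 1 ≤ l) (hp : 0 ≤ p)
    (hV : (Fintype.card V : ℝ) * p < 1) (X : V → ℝ) (hX : ∀ v, X v ≤ p) : Win d D l X := by
  refine ⟨fun X => ∃ F : V → ℝ, (∀ v, 0 ≤ F v) ∧ (∀ v, X v ≤ F v) ∧ ∑ v, F v < 1,
    ⟨fun _ => p, fun _ => hp, hX, by simpa using hV⟩, ?_⟩
  rintro X ⟨F, h0, h1, h2⟩
  refine ⟨fun v => lt_of_le_of_lt ((h1 v).trans
    (Finset.single_le_sum (fun z _ => h0 z) (mem_univ v))) h2, fun u => ⟨F, h0, ?_⟩⟩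
  intro θ _ hθ hs
  have hθ0 : ∀ z, 0 ≤ θ z := fun z => le_trans (by positivity) (hθ z).1
  refine ⟨fun z => F z * θ z, fun z => mul_nonneg (h0 z) (hθ0 z),
    fun z => mul_le_mul_of_nonneg_right (h1 z) (hθ0 z), ?_⟩
  have : ∑ z, F z * (θ z - 1) = ∑ z, F z * θ z - ∑ z, F z := by
    rw [← Finset.sum_sub_distrib]
    exact Finset.sum_congr rfl fun z _ => by ring
  linarith

/-- natural valued pseudometric -/
structure Met (d : V → V → ℕ) : Prop where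
  symm : ∀ a b, d a b = d b a
  tri : ∀ a b c, d a c ≤ d a b + d b c
  self : ∀ a, d a a = 0

def ball (d : V → V → ℕ) (x : V) (k : ℕ) : Finset V := univ.filter (fun y => d x y ≤ k)

def Sp (d : V → V → ℕ) (D J : ℕ) : Finset (Finset V) :=
  (univ.powersetCard J).filter (fun S => ∀ a ∈ S, ∀ b ∈ S, a ≠ b → 2 * D < d a b)

def nr (d : V → V → ℕ) (D : ℕ) (S : Finset V) : Finset V :=
  univ.filter (fun y => ∃ s ∈ S, d s y ≤ 4 * D)

noncomputable def wt (d : V → V → ℕ) (D : ℕ) (τ : ℝ) (F G : V → ℝ) (S : Finset V) : ℝ :=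
  (∏ z ∈ S, F z / τ) / ∏ y ∈ nr d D S, G y

noncomputable def up (d : V → V → ℕ) (D J : ℕ) (τ c : ℝ) (F G : V → ℝ) (x : V) : ℝ :=
  ∑ S ∈ (Sp d D J).filter (fun S => S ⊆ ball d x (4 * D)), c * wt d D τ F G S

omit [DecidableEq V] in
@[simp] lemma mem_ball {d : V → V → ℕ} {x y : V} {k : ℕ} : y ∈ ball d x k ↔ d x y ≤ k := by
  simp [ball]

@[simp] lemma mem_nr {d : V → V → ℕ} {D : ℕ} {S : Finset V} {y : V} :
    y ∈ nr d D S ↔ ∃ s ∈ S, d s y ≤ 4 * D := by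
  simp [nr]

lemma mem_Sp {d : V → V → ℕ} {D J : ℕ} {S : Finset V} :
    S ∈ Sp d D J ↔ S.card = J ∧ ∀ a ∈ S, ∀ b ∈ S, a ≠ b → 2 * D < d a b := by
  simp [Sp, Finset.mem_powersetCard]

lemma wt_nonneg {d : V → V → ℕ} {D : ℕ} {τ : ℝ} {F G : V → ℝ} (hτ : 0 < τ) (hF : ∀ z, 0 ≤ F z)
    (hG : ∀ z, 0 < G z) (S : Finset V) : 0 ≤ wt d D τ F G S :=
  div_nonneg (Finset.prod_nonneg fun z _ => div_nonneg (hF z) hτ.le)
    (Finset.prod_nonneg fun z _ => (hG z).le)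

lemma up_nonneg {d : V → V → ℕ} {D J : ℕ} {τ c : ℝ} {F G : V → ℝ} (hτ : 0 < τ) (hc : 0 ≤ c)
    (hF : ∀ z, 0 ≤ F z) (hG : ∀ z, 0 < G z) (x : V) : 0 ≤ up d D J τ c F G x :=
  Finset.sum_nonneg fun S _ => mul_nonneg hc (wt_nonneg hτ hF hG S)

/-- a product with at most one factor different from one -/
lemma prod_one_changed {S : Finset V} {φ : V → ℝ}
    (h : ∀ a ∈ S, ∀ b ∈ S, φ a ≠ 1 → φ b ≠ 1 → a = b) :
    (∏ z ∈ S, φ z = 1 + ∑ z ∈ S, (φ z - 1)) ∧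
      (∏ z ∈ S, φ z = 1 ∨ ∃ a ∈ S, ∏ z ∈ S, φ z = φ a) := by
  by_cases h1 : ∃ a ∈ S, φ a ≠ 1
  · obtain ⟨a, ha, ha1⟩ := h1
    have h2 : ∀ b ∈ S, b ≠ a → φ b = 1 := fun b hb hba => by
      by_contra hb1
      exact hba (h b hb a ha hb1 ha1)
    have h3 : ∏ z ∈ S, φ z = φ a := Finset.prod_eq_single a h2 (fun h => absurd ha h)
    have h4 : ∑ z ∈ S, (φ z - 1) = φ a - 1 :=
      Finset.sum_eq_single a (fun b hb hba => by rw [h2 b hb hba]; ring) (fun h => absurd ha h)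
    exact ⟨by rw [h3, h4]; ring, Or.inr ⟨a, ha, h3⟩⟩
  · push Not at h1
    have h3 : ∏ z ∈ S, φ z = 1 := Finset.prod_eq_one h1
    have h4 : ∑ z ∈ S, (φ z - 1) = 0 := Finset.sum_eq_zero fun z hz => by rw [h1 z hz]; ring
    exact ⟨by rw [h3, h4]; ring, Or.inl h3⟩

lemma prod_update_mul (s : Finset V) (G : V → ℝ) (y : V) (ρ : ℝ) :
    ∏ z ∈ s, Function.update G y (G y * ρ) z = (∏ z ∈ s, G z) * (if y ∈ s then ρ else 1) := by
  have : ∀ z, Function.update G y (G y * ρ) z = G z * (if z = y then ρ else 1) := by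
    intro z
    by_cases hz : z = y
    · subst hz; simp
    · simp [hz]
  simp only [this, Finset.prod_mul_distrib, Finset.prod_ite_eq']

lemma wt_update (d : V → V → ℕ) (D : ℕ) (τ : ℝ) (F G φ : V → ℝ) (y : V) (ρ : ℝ) (S : Finset V) :
    wt d D τ (fun z => F z * φ z) (Function.update G y (G y * ρ)) S =
      wt d D τ F G S * ((∏ z ∈ S, φ z) / (if y ∈ nr d D S then ρ else 1)) := by
  unfold wt
  rw [prod_update_mul]
  have : ∏ z ∈ S, F z * φ z / τ = (∏ z ∈ S, F z / τ) * ∏ z ∈ S, φ z := by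
    rw [← Finset.prod_mul_distrib]
    exact Finset.prod_congr rfl fun z _ => by ring
  rw [this, div_mul_div_comm]

/-- coefficient of the weight of `S` in the upper functional -/
noncomputable def co (d : V → V → ℕ) (D : ℕ) (c : ℝ) (β : V → ℝ) (S : Finset V) : ℝ :=
  ∑ x, if S ⊆ ball d x (4 * D) then β x * c else 0

lemma co_nonneg {d : V → V → ℕ} {D : ℕ} {c : ℝ} {β : V → ℝ} (hc : 0 ≤ c) (hβ : ∀ x, 0 ≤ β x)
    (S : Finset V) : 0 ≤ co d D c β S :=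
  Finset.sum_nonneg fun x _ => by
    split_ifs
    · exact mul_nonneg (hβ x) hc
    · exact le_rfl

lemma sum_up (d : V → V → ℕ) (D J : ℕ) (τ c : ℝ) (F G β : V → ℝ) :
    ∑ x, β x * up d D J τ c F G x = ∑ S ∈ Sp d D J, co d D c β S * wt d D τ F G S := by
  unfold up co
  simp only [Finset.sum_filter, Finset.mul_sum, Finset.sum_mul]
  rw [Finset.sum_comm]
  refine Finset.sum_congr rfl fun S _ => Finset.sum_congr rfl fun x _ => ?_
  split_ifs <;> ring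

/-- a product of numbers in `[0,K]` which are one outside `Y` -/
lemma prod_le_pow {s Y : Finset V} {G : V → ℝ} {K : ℝ} {m : ℕ} (hK : 1 ≤ K)
    (h0 : ∀ y ∈ s, 0 ≤ G y) (h1 : ∀ y ∈ s, G y ≤ K) (h2 : ∀ y, y ∉ Y → G y = 1)
    (hm : (s.filter (fun y => y ∈ Y)).card ≤ m) : ∏ y ∈ s, G y ≤ K ^ m := by
  rw [← Finset.prod_filter_mul_prod_filter_not s (fun y => y ∈ Y)]
  have h3 : ∏ y ∈ s.filter (fun y => ¬ y ∈ Y), G y = 1 :=
    Finset.prod_eq_one fun y hy => h2 y (Finset.mem_filter.1 hy).2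
  rw [h3, mul_one]
  calc ∏ y ∈ s.filter (fun y => y ∈ Y), G y ≤ ∏ _y ∈ s.filter (fun y => y ∈ Y), K :=
        Finset.prod_le_prod (fun y hy => h0 y (Finset.mem_filter.1 hy).1)
          (fun y hy => h1 y (Finset.mem_filter.1 hy).1)
    _ = K ^ (s.filter (fun y => y ∈ Y)).card := Finset.prod_const K
    _ ≤ K ^ m := pow_le_pow_right₀ hK hm

end Pool.Agent.P.MP_0dac36_co.LG
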