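import Pool.Agent.P.MP_0dac36_co.LLevel

set_option linter.unusedSectionVars false

namespace Pool.Agent.P.MP_0dac36_co.LG

open Finset

variable {V : Type} [Fintype V] [DecidableEq V]

variable {d : V → V → ℕ} {D J : ℕ} {l K τ : ℝ} {X : V → ℝ} {Y : Finset V} {F G : V → ℝ}
  {H : V → V → ℝ}

lemma lin_sum (hd : Met d) {θ : V → ℝ} {u : V} (hl : 1 ≤ l) (hθ1 : ∀ z, D < d u z → θ z = 1)
    (hθ : ∀ z, 1 / l ≤ θ z ∧ θ z ≤ l) (a : Finset V → ℝ) :
    ∑ S ∈ Sp d D J, a S * (∏ z ∈ S, ph d D Y θ z - 1) =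
      ∑ z, ph d D Y (fun _ => 2) z * (∑ S ∈ Sp d D J, if z ∈ S then a S else 0) * (θ z - 1) -
      ∑ z, (∑ S ∈ Sp d D J, if z ∈ S then a S else 0) * (θ z - 1) := by
  rw [← Finset.sum_sub_distrib]
  have e1 : ∀ z, ph d D Y (fun _ => 2) z * (∑ S ∈ Sp d D J, if z ∈ S then a S else 0) * (θ z - 1)
      - (∑ S ∈ Sp d D J, if z ∈ S then a S else 0) * (θ z - 1) =
      ∑ S ∈ Sp d D J, if z ∈ S then a S * (ph d D Y θ z - 1) else 0 := by
    intro z
    have : ∑ S ∈ Sp d D J, (if z ∈ S then a S * (ph d D Y θ z - 1) else 0) =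
        (∑ S ∈ Sp d D J, if z ∈ S then a S else 0) * (ph d D Y θ z - 1) := by
      rw [Finset.sum_mul]
      exact Finset.sum_congr rfl fun S _ => by split_ifs <;> simp
    rw [this]
    unfold ph
    split_ifs <;> ring
  simp only [e1]
  rw [Finset.sum_comm]
  refine Finset.sum_congr rfl fun S hS => ?_
  rw [(prod_ph (Y := Y) hd hl hθ1 hθ hS).1, add_sub_cancel_left, Finset.mul_sum,
    ← Finset.sum_filter]
  simp

lemma Core.round (hd : Met d) (h : Core d D J l K τ X Y F G H) (hl : 1 ≤ l) (hK : 1 < K)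
    (hτ : 0 < τ) (hun : ∀ z, Unc d D Y z → F z < τ) (u : V) :
    ∃ γ : V → ℝ, (∀ z, 0 ≤ γ z) ∧
    ∀ θ : V → ℝ, (∀ z, D < d u z → θ z = 1) → (∀ z, 1 / l ≤ θ z ∧ θ z ≤ l) →
      ∑ z, γ z * (θ z - 1) ≤ 0 →
      ∃ Y' F' G' H', Core d D J l K τ (fun z => X z * θ z) Y' F' G' H' ∧
        ∀ z, Unc d D Y' z → F' z < τ := by
  have hl0 : 0 < l := by linarith
  have hK0 : 0 < K := by linarith
  have hl2 : 1 ≤ l ^ 2 := one_le_pow₀ hl
  obtain ⟨β, hβ0, hβ⟩ := h.win.stepB
    (up_nonneg hτ (by positivity) h.F0 h.G0) hl2 u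
  set a : Finset V → ℝ := fun S => co d D (K ^ (J * J)) β S * wt d D τ F G S with ha
  have ha0 : ∀ S, 0 ≤ a S := fun S =>
    mul_nonneg (co_nonneg (by positivity) hβ0 S) (wt_nonneg hτ h.F0 h.G0 S)
  set g : V → ℝ := fun z => (ph d D Y (fun _ => 2) z - 1) *
    (∑ S ∈ Sp d D J, if z ∈ S then a S else 0) with hg
  have hg0 : ∀ z, 0 ≤ g z := fun z => mul_nonneg (by unfold ph; split_ifs <;> norm_num)
    (Finset.sum_nonneg fun S _ => by split_ifs; exacts [ha0 S, le_rfl])
  have hlin : ∀ θ : V → ℝ, (∀ z, D < d u z → θ z = 1) → (∀ z, 1 / l ≤ θ z ∧ θ z ≤ l) →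
      ∑ S ∈ Sp d D J, a S * (∏ z ∈ S, ph d D Y θ z - 1) = ∑ z, g z * (θ z - 1) := by
    intro θ h1 h2
    rw [lin_sum hd hl h1 h2, ← Finset.sum_sub_distrib]
    exact Finset.sum_congr rfl fun z _ => by rw [hg]; ring
  have h1l : 1 / l ≤ 1 := by rw [div_le_one hl0]; exact hl
  by_cases hex : ∃ y ∈ Y, d u y ≤ 3 * D
  swap
  · push Not at hex
    refine ⟨g, hg0, fun θ h1 h2 h3 => ?_⟩
    have hps : ∀ z, ps d D Y θ z = 1 := by
      intro z
      by_cases hz : Unc d D Y z
      · unfold ps; rw [if_pos hz]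
      · refine ps_far (h1 z ?_)
        unfold Unc at hz
        push Not at hz
        obtain ⟨y, hy1, hy2⟩ := hz
        have h4 := hex y hy1
        have h5 := hd.tri u z y
        have h6 := hd.symm z y
        omega
    refine h.move (y := u) (ρ := 1) hd hl hK hτ hun (by rw [hd.self]; omega) hβ h1 h2 h1l hl ?_ ?_
      (fun _ => ⟨rfl, hps⟩)
    · rw [← hlin θ h1 h2] at h3
      have : ∑ S ∈ Sp d D J, a S * (∏ z ∈ S, ph d D Y θ z - 1) =
          ∑ S ∈ Sp d D J, a S * ((∏ z ∈ S, ph d D Y θ z) / (if u ∈ nr d D S then 1 else 1)) -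
          ∑ S ∈ Sp d D J, a S := by
        rw [← Finset.sum_sub_distrib]
        exact Finset.sum_congr rfl fun S _ => by simp only [ite_self]; ring
      rw [this] at h3
      exact sub_nonpos.1 h3
    · simp only [hps, mul_one]; exact h.Psi u
  · obtain ⟨y, hyY, hy⟩ := hex
    set W : ℝ := ∑ S ∈ Sp d D J, if y ∈ nr d D S then a S else 0 with hW
    have hW0 : 0 ≤ W := Finset.sum_nonneg fun S _ => by split_ifs; exacts [ha0 S, le_rfl]
    refine ⟨fun z => G y / W * g z +
      (if z ∈ ball d y (4 * D) then H y z * (ps d D Y (fun _ => 2) z - 1) else 0), ?_,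
      fun θ h1 h2 h3 => ?_⟩
    · intro z
      refine add_nonneg (mul_nonneg (div_nonneg (h.G0 y).le hW0) (hg0 z)) ?_
      split_ifs
      · exact mul_nonneg (h.H0 y z) (by unfold ps; split_ifs <;> norm_num)
      · exact le_rfl
    set A : ℝ := ∑ z, g z * (θ z - 1) with hA
    set W' : ℝ := ∑ S ∈ Sp d D J, if y ∈ nr d D S then a S * ∏ z ∈ S, ph d D Y θ z else 0
      with hW'
    have hWA : W' = W + A := by
      rw [hA, ← hlin θ h1 h2, hW, hW', ← Finset.sum_add_distrib]
      refine Finset.sum_congr rfl fun S _ => ?_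
      split_ifs with hc
      · ring
      · rw [prod_ph_far hd h1 hy hc]; ring
    have hW1 : W * (1 / l) ≤ W' := by
      rw [hW, hW', Finset.sum_mul]
      refine Finset.sum_le_sum fun S hS => ?_
      split_ifs
      · exact mul_le_mul_of_nonneg_left (prod_ph (Y := Y) hd hl h1 h2 hS).2.1 (ha0 S)
      · simp
    have hW2 : W' ≤ W * l := by
      rw [hW, hW', Finset.sum_mul]
      refine Finset.sum_le_sum fun S hS => ?_
      split_ifs
      · exact mul_le_mul_of_nonneg_left (prod_ph (Y := Y) hd hl h1 h2 hS).2.2 (ha0 S)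
      · simp
    have hρ : 1 / l ≤ 1 + A / W ∧ 1 + A / W ≤ l ∧ W' / (1 + A / W) = W := by
      rcases hW0.eq_or_lt with h0 | h0
      · rw [← h0] at hW1 hW2 ⊢
        simp only [div_zero, add_zero, div_one]
        exact ⟨h1l, hl, by linarith⟩
      · have e : 1 + A / W = W' / W := by rw [hWA]; field_simp
        have hW'0 : 0 < W' := lt_of_lt_of_le (by positivity) hW1
        rw [e]
        refine ⟨by rw [le_div_iff₀ h0]; linarith, by rw [div_le_iff₀ h0]; linarith, ?_⟩
        field_simp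
    refine h.move (y := y) (ρ := 1 + A / W) hd hl hK hτ hun hy hβ h1 h2 hρ.1 hρ.2.1 ?_ ?_
      (fun hh => absurd hyY hh)
    · have e1 : ∑ S ∈ Sp d D J, a S *
          ((∏ z ∈ S, ph d D Y θ z) / (if y ∈ nr d D S then 1 + A / W else 1)) =
          W' / (1 + A / W) + ∑ S ∈ Sp d D J, if y ∈ nr d D S then 0 else a S := by
        generalize 1 + A / W = ρ
        rw [hW', Finset.sum_div, ← Finset.sum_add_distrib]
        refine Finset.sum_congr rfl fun S _ => ?_
        split_ifs with hc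
        · ring
        · rw [prod_ph_far hd h1 hy hc]; simp
      have e2 : ∑ S ∈ Sp d D J, a S = W + ∑ S ∈ Sp d D J, if y ∈ nr d D S then 0 else a S := by
        rw [hW, ← Finset.sum_add_distrib]
        refine Finset.sum_congr rfl fun S _ => ?_
        split_ifs <;> simp
      refine le_of_eq ?_
      rw [hρ.2.2] at e1
      exact e1.trans e2.symm
    · have e1 : ∑ z, (G y / W * g z +
          (if z ∈ ball d y (4 * D) then H y z * (ps d D Y (fun _ => 2) z - 1) else 0)) *
            (θ z - 1) = G y / W * A + (∑ z ∈ ball d y (4 * D), H y z * ps d D Y θ z -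
              ∑ z ∈ ball d y (4 * D), H y z) := by
        simp only [add_mul]
        rw [Finset.sum_add_distrib, hA, Finset.mul_sum, ← Finset.sum_sub_distrib]
        congr 1
        · exact Finset.sum_congr rfl fun z _ => by ring
        · rw [← Finset.sum_filter_add_sum_filter_not univ (fun z => z ∈ ball d y (4 * D))]
          have e2 : ∑ z ∈ univ.filter (fun z => ¬ z ∈ ball d y (4 * D)),
              (if z ∈ ball d y (4 * D) then H y z * (ps d D Y (fun _ => 2) z - 1) else 0) *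
                (θ z - 1) = 0 :=
            Finset.sum_eq_zero fun z hz => by rw [if_neg (mem_filter.1 hz).2, zero_mul]
          rw [e2, add_zero]
          have e3 : univ.filter (fun z => z ∈ ball d y (4 * D)) = ball d y (4 * D) := by
            ext z; simp
          rw [e3]
          refine Finset.sum_congr rfl fun z hz => ?_
          rw [if_pos hz]
          unfold ps
          split_ifs <;> ring
      rw [e1] at h3
      have e4 : G y * (1 + A / W) = G y + G y / W * A := by ring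
      have := h.Psi y
      linarith

/-- the level step -/
lemma level (hd : Met d) {p : ℝ} (hl : 1 ≤ l) (hK : 1 < K) (hJ : 0 < J) (hp : 0 ≤ p)
    (hball : ∀ x, ((ball d x (4 * D)).card : ℝ) + 1 ≤ K) (hpτ : p * (l * K ^ J) < 1)
    (hup : ∀ X' : V → ℝ, (∀ x, X' x ≤ K ^ (J * J) * K ^ J * (p * (l * K ^ J)) ^ J) →
      Win d (11 * D) (l ^ 2) X')
    (X : V → ℝ) (hX : ∀ v, X v ≤ p) : Win d D l X := by
  have hl0 : 0 < l := by linarith
  have hK0 : 0 < K := by linarith
  set τ : ℝ := 1 / (l * K ^ J) with hτd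
  have hτ : 0 < τ := by positivity
  have hpt : p < τ := by rw [hτd, lt_div_iff₀ (by positivity)]; exact hpτ
  refine ⟨fun X => ∃ Y F G H, Core d D J l K τ X Y F G H ∧ ∀ z, Unc d D Y z → F z < τ,
    ⟨∅, fun _ => p, fun _ => 1, fun _ _ => 1, ⟨fun _ => hp, fun z => by simpa using hX z,
      fun _ => by nlinarith, by simp, by simp, fun _ => one_pos, fun _ _ => zero_le_one,
      fun y => by have := hball y; simp; linarith, fun _ _ => ⟨rfl, fun _ => rfl⟩,
      fun x => by simpa using hJ, hup _ ?_⟩, fun _ _ => hpt⟩, ?_⟩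
  · intro x
    unfold up
    have e1 : ∀ S ∈ (Sp d D J).filter (fun S => S ⊆ ball d x (4 * D)),
        K ^ (J * J) * wt d D τ (fun _ => p) (fun _ => 1) S =
          K ^ (J * J) * (p * (l * K ^ J)) ^ J := by
      intro S hS
      unfold wt
      rw [Finset.prod_const_one, div_one, Finset.prod_const, (mem_Sp.1 (mem_filter.1 hS).1).1, hτd]
      congr 2
      field_simp
    rw [Finset.sum_congr rfl e1, Finset.sum_const, nsmul_eq_mul]
    have e2 : (Sp d D J).filter (fun S => S ⊆ ball d x (4 * D)) ⊆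
        (ball d x (4 * D)).powersetCard J := fun S hS =>
      Finset.mem_powersetCard.2 ⟨(mem_filter.1 hS).2, (mem_Sp.1 (mem_filter.1 hS).1).1⟩
    have e3 : (((Sp d D J).filter (fun S => S ⊆ ball d x (4 * D))).card : ℝ) ≤ K ^ J := by
      have h1 := card_le_card e2
      rw [Finset.card_powersetCard] at h1
      have h2 := h1.trans (Nat.choose_le_pow _ _)
      have h3 : (((Sp d D J).filter (fun S => S ⊆ ball d x (4 * D))).card : ℝ) ≤
          ((ball d x (4 * D)).card : ℝ) ^ J := by exact_mod_cast h2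
      refine h3.trans (pow_le_pow_left₀ (Nat.cast_nonneg _) ?_ _)
      have := hball x
      linarith
    have e4 : 0 ≤ K ^ (J * J) * (p * (l * K ^ J)) ^ J := by positivity
    calc _ ≤ K ^ J * (K ^ (J * J) * (p * (l * K ^ J)) ^ J) := mul_le_mul_of_nonneg_right e3 e4
      _ = _ := by ring
  · rintro X ⟨Y, F, G, H, h1, h2⟩
    exact ⟨h1.lt_one hd hK hl0 hτd, fun u => h1.round hd hl hK hτ h2 u⟩

/-- the online local lemma: iterate the level step -/
lemma win_all (hd : Met d) {m : ℕ} (hm : 2 ≤ m) (hball : ∀ x k, (ball d x k).card ≤ m ^ k)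
    (k : ℕ) : ∀ (D : ℕ) (l p : ℝ), 1 ≤ D → 1 ≤ l → 0 ≤ p →
      p * ((m : ℝ) ^ D * l) ^ 1500 ≤ 1 / 2 →
      (Fintype.card V : ℝ) * (p * ((m : ℝ) ^ D * l) ^ 1500) * (1 / 2) ^ k < 1 →
      ∀ X : V → ℝ, (∀ v, X v ≤ p) → Win d D l X := by
  induction k with
  | zero =>
    intro D l p hD hl hp h1 h2 X hX
    refine win_small d D hl hp (lt_of_le_of_lt ?_ h2) X hX
    have hm1 : (1 : ℝ) ≤ m := by exact_mod_cast (by omega : 1 ≤ m)
    have h3 : 1 ≤ ((m : ℝ) ^ D * l) ^ 1500 :=
      one_le_pow₀ (one_le_mul_of_one_le_of_one_le (one_le_pow₀ hm1) hl)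
    rw [pow_zero, mul_one]
    exact mul_le_mul_of_nonneg_left (le_mul_of_one_le_right hp h3) (Nat.cast_nonneg _)
  | succ k ih =>
    intro D l p hD hl hp h1 h2 X hX
    have hm2 : (2 : ℝ) ≤ m := by exact_mod_cast hm
    set M : ℝ := (m : ℝ) ^ D with hM
    have hM2 : 2 ≤ M := hm2.trans (le_self_pow₀ (by linarith) (by omega))
    have hM1 : 1 ≤ M := by linarith
    have hM0 : 0 < M := by linarith
    have hl0 : 0 < l := by linarith
    have hK : 1 < M ^ 5 := one_lt_pow₀ (by linarith) (by norm_num)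
    set π : ℝ := p * (M * l) ^ 1500 with hπ
    have hπ0 : 0 ≤ π := by positivity
    have hM11 : (m : ℝ) ^ (11 * D) = M ^ 11 := by rw [hM, ← pow_mul, mul_comm]
    have key : (M ^ 5) ^ (12 * 12) * (M ^ 5) ^ 12 * (p * (l * (M ^ 5) ^ 12)) ^ 12 *
        (M ^ 11 * l ^ 2) ^ 1500 ≤ π * (1 / 2) := by
      have e1 : (M ^ 5) ^ (12 * 12) * (M ^ 5) ^ 12 * (p * (l * (M ^ 5) ^ 12)) ^ 12 *
          (M ^ 11 * l ^ 2) ^ 1500 = p ^ 12 * M ^ 18000 * l ^ 3012 := by
        simp only [mul_pow, ← pow_mul]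
        ring
      have e2 : π ^ 12 = p ^ 12 * M ^ 18000 * l ^ 18000 := by
        rw [hπ]
        simp only [mul_pow, ← pow_mul]
        ring
      have e3 : l ^ 3012 ≤ l ^ 18000 := pow_le_pow_right₀ hl (by norm_num)
      have e4 : π ^ 12 ≤ π ^ 2 := pow_le_pow_of_le_one hπ0 (by linarith) (by norm_num)
      have e5 : π ^ 2 ≤ π * (1 / 2) := by rw [sq]; exact mul_le_mul_of_nonneg_left h1 hπ0
      rw [e1]
      calc p ^ 12 * M ^ 18000 * l ^ 3012 ≤ p ^ 12 * M ^ 18000 * l ^ 18000 :=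
            mul_le_mul_of_nonneg_left e3 (by positivity)
        _ = π ^ 12 := e2.symm
        _ ≤ _ := e4.trans e5
    refine level (J := 12) (K := M ^ 5) (p := p) hd hl hK (by norm_num) hp ?_ ?_ ?_ X hX
    · intro x
      have h3 : ((ball d x (4 * D)).card : ℝ) ≤ M ^ 4 := by
        rw [hM, ← pow_mul, mul_comm D 4]
        exact_mod_cast hball x (4 * D)
      have h4 : 1 ≤ M ^ 4 := one_le_pow₀ hM1
      have h5 : M ^ 5 = M ^ 4 * M := by ring
      nlinarith
    · have h3 : l * (M ^ 5) ^ 12 ≤ (M * l) ^ 1500 := by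
        rw [mul_pow, ← pow_mul, mul_comm]
        exact mul_le_mul (pow_le_pow_right₀ hM1 (by norm_num))
          (le_self_pow₀ hl (by norm_num)) hl0.le (by positivity)
      have h4 := mul_le_mul_of_nonneg_left h3 hp
      linarith
    · refine ih (11 * D) (l ^ 2) _ (by omega) (one_le_pow₀ hl) (by positivity) ?_ ?_
      · rw [hM11]; linarith
      · rw [hM11]
        refine lt_of_le_of_lt ?_ h2
        have h6 : (0 : ℝ) ≤ (1 / 2) ^ k := by positivity
        have h7 : (Fintype.card V : ℝ) * π * (1 / 2) ^ (k + 1) =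
            (Fintype.card V : ℝ) * (π * (1 / 2)) * (1 / 2) ^ k := by
          clear_value π
          ring
        rw [h7]
        exact mul_le_mul_of_nonneg_right (mul_le_mul_of_nonneg_left key (Nat.cast_nonneg _)) h6

lemma win_local (hd : Met d) {m : ℕ} (hm : 2 ≤ m) (hball : ∀ x k, (ball d x k).card ≤ m ^ k)
    {p : ℝ} (hD : 1 ≤ D) (hl : 1 ≤ l) (hp : 0 ≤ p) (h : p * ((m : ℝ) ^ D * l) ^ 1500 ≤ 1 / 2)
    (X : V → ℝ) (hX : ∀ v, X v ≤ p) : Win d D l X := by
  refine win_all hd hm hball (Fintype.card V) D l p hD hl hp h ?_ X hX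
  have h1 : (Fintype.card V : ℝ) < 2 ^ Fintype.card V := by
    exact_mod_cast Nat.lt_two_pow_self
  have h2 : (Fintype.card V : ℝ) * (1 / 2) ^ Fintype.card V < 1 := by
    rw [one_div, inv_pow, ← div_eq_mul_inv, div_lt_one (by positivity)]; exact h1
  have h3 : 0 ≤ (Fintype.card V : ℝ) * (1 / 2) ^ Fintype.card V := by positivity
  calc _ = (p * ((m : ℝ) ^ D * l) ^ 1500) * ((Fintype.card V : ℝ) * (1 / 2) ^ Fintype.card V) := by
        ring
    _ ≤ 1 * ((Fintype.card V : ℝ) * (1 / 2) ^ Fintype.card V) :=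
        mul_le_mul_of_nonneg_right (by linarith) h3
    _ < 1 := by linarith

end Pool.Agent.P.MP_0dac36_co.LG
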