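import Pool.Agent.P.MP_0dac36_co.LGame

set_option linter.unusedSectionVars false

namespace Pool.Agent.P.MP_0dac36_co.LG

open Finset

variable {V : Type} [Fintype V] [DecidableEq V]

/-- the state of the controller at one level -/
structure Core (d : V → V → ℕ) (D J : ℕ) (l K τ : ℝ) (X : V → ℝ) (Y : Finset V) (F G : V → ℝ)
    (H : V → V → ℝ) : Prop where
  F0 : ∀ z, 0 ≤ F z
  XF : ∀ z, X z ≤ F z * ∏ y ∈ ball d z (4 * D), H y z
  Fle : ∀ z, F z ≤ l * τ
  Fc : ∀ y ∈ Y, τ ≤ F y
  sep : ∀ a ∈ Y, ∀ b ∈ Y, a ≠ b → 2 * D < d a b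
  G0 : ∀ y, 0 < G y
  H0 : ∀ y z, 0 ≤ H y z
  Psi : ∀ y, G y + ∑ z ∈ ball d y (4 * D), H y z ≤ K
  out : ∀ y, y ∉ Y → G y = 1 ∧ ∀ z, H y z = 1
  cntY : ∀ x, ((ball d x (4 * D)).filter (fun y => y ∈ Y)).card < J
  win : Win d (11 * D) (l ^ 2) (up d D J τ (K ^ (J * J)) F G)

/-- `z` is not covered by a board -/
def Unc (d : V → V → ℕ) (D : ℕ) (Y : Finset V) (z : V) : Prop := ∀ y ∈ Y, 2 * D < d y z

variable {d : V → V → ℕ} {D J : ℕ} {l K τ : ℝ} {X : V → ℝ} {Y : Finset V} {F G : V → ℝ}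
  {H : V → V → ℝ}

lemma Core.G_le (h : Core d D J l K τ X Y F G H) (y : V) : G y ≤ K := by
  have h1 := h.Psi y
  have h2 : 0 ≤ ∑ z ∈ ball d y (4 * D), H y z := Finset.sum_nonneg fun z _ => h.H0 y z
  linarith

lemma Core.H_le (h : Core d D J l K τ X Y F G H) {y z : V} (hz : d y z ≤ 4 * D) : H y z ≤ K := by
  have h1 := h.Psi y
  have h2 : H y z ≤ ∑ z ∈ ball d y (4 * D), H y z :=
    Finset.single_le_sum (f := fun z => H y z) (fun z _ => h.H0 y z) (mem_ball.2 hz)
  have := h.G0 y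
  linarith

lemma Core.lt_one (hd : Met d) (h : Core d D J l K τ X Y F G H) (hK : 1 < K) (hl : 0 < l)
    (hτ : τ = 1 / (l * K ^ J)) (z : V) : X z < 1 := by
  have hJ := h.cntY z
  have h1 : ∏ y ∈ ball d z (4 * D), H y z ≤ K ^ (J - 1) :=
    prod_le_pow (Y := Y) (G := fun y => H y z) hK.le (fun y _ => h.H0 y z)
      (fun y hy => h.H_le (by rw [hd.symm]; exact mem_ball.1 hy))
      (fun y hy => (h.out y hy).2 z) (by omega)
  have h2 : 0 ≤ ∏ y ∈ ball d z (4 * D), H y z := Finset.prod_nonneg fun y _ => h.H0 y z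
  have hK0 : 0 < K := by linarith
  have h3 : l * τ = 1 / K ^ J := by rw [hτ]; field_simp
  have h4 : K ^ (J - 1) < K ^ J := pow_lt_pow_right₀ hK (by omega)
  calc X z ≤ F z * ∏ y ∈ ball d z (4 * D), H y z := h.XF z
    _ ≤ (l * τ) * K ^ (J - 1) := mul_le_mul (h.Fle z) h1 h2 (by rw [h3]; positivity)
    _ = K ^ (J - 1) / K ^ J := by rw [h3]; ring
    _ < 1 := by rw [div_lt_one (by positivity)]; exact h4

lemma Core.openc (hd : Met d) (h : Core d D J l K τ X Y F G H) (hK : 1 < K) (hτ : 0 < τ) (u : V)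
    (hu : ∀ z, Unc d D Y z → τ ≤ F z → d u z ≤ D) :
    ∃ Y', Core d D J l K τ X Y' F G H ∧ ∀ z, Unc d D Y' z → F z < τ := by
  by_cases hex : ∃ z, Unc d D Y z ∧ τ ≤ F z
  swap
  · push Not at hex
    exact ⟨Y, h, hex⟩
  obtain ⟨z0, hz1, hz2⟩ := hex
  have hFc : ∀ y ∈ insert z0 Y, τ ≤ F y := by
    intro y hy
    rcases mem_insert.1 hy with rfl | hy
    · exact hz2
    · exact h.Fc y hy
  have hsep : ∀ a ∈ insert z0 Y, ∀ b ∈ insert z0 Y, a ≠ b → 2 * D < d a b := by
    intro a ha b hb hab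
    rcases mem_insert.1 ha with rfl | ha' <;> rcases mem_insert.1 hb with rfl | hb'
    · exact absurd rfl hab
    · rw [hd.symm]; exact hz1 b hb'
    · exact hz1 a ha'
    · exact h.sep a ha' b hb' hab
  refine ⟨insert z0 Y, ⟨h.F0, h.XF, h.Fle, hFc, hsep, h.G0, h.H0, h.Psi,
    fun y hy => h.out y (fun hy' => hy (mem_insert_of_mem hy')), ?_, h.win⟩, ?_⟩
  · intro x
    by_contra hcon
    push Not at hcon
    obtain ⟨S, hS1, hS2⟩ := Finset.exists_subset_card_eq hcon
    have hS3 : S ∈ (Sp d D J).filter (fun S => S ⊆ ball d x (4 * D)) := by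
      refine mem_filter.2 ⟨mem_Sp.2 ⟨hS2, fun a ha b hb hab => hsep a ?_ b ?_ hab⟩,
        fun a ha => ?_⟩
      · exact (mem_filter.1 (hS1 ha)).2
      · exact (mem_filter.1 (hS1 hb)).2
      · exact (mem_filter.1 (hS1 ha)).1
    have hK0 : 0 < K := by linarith
    have h1 : K ^ (J * J) * wt d D τ F G S ≤ up d D J τ (K ^ (J * J)) F G x :=
      Finset.single_le_sum (f := fun S => K ^ (J * J) * wt d D τ F G S)
        (fun S _ => mul_nonneg (by positivity) (wt_nonneg hτ h.F0 h.G0 S)) hS3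
    have h2 : 1 ≤ ∏ z ∈ S, F z / τ :=
      Finset.one_le_prod (fun z hz => by
        rw [le_div_iff₀ hτ, one_mul]; exact hFc z (mem_filter.1 (hS1 hz)).2)
    have h3 : ∏ y ∈ nr d D S, G y ≤ K ^ (J * J) := by
      refine prod_le_pow (Y := Y) hK.le (fun y _ => (h.G0 y).le) (fun y _ => h.G_le y)
        (fun y hy => (h.out y hy).1) ?_
      have h4 : (nr d D S).filter (fun y => y ∈ Y) ⊆
          S.biUnion (fun s => (ball d s (4 * D)).filter (fun y => y ∈ Y)) := by
        intro y hy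
        obtain ⟨hy1, hy2⟩ := mem_filter.1 hy
        obtain ⟨s, hs1, hs2⟩ := mem_nr.1 hy1
        exact mem_biUnion.2 ⟨s, hs1, mem_filter.2 ⟨mem_ball.2 hs2, hy2⟩⟩
      refine (card_le_card h4).trans (card_biUnion_le.trans ?_)
      rw [← hS2]
      refine (Finset.sum_le_card_nsmul S _ S.card fun s _ => ?_).trans (by simp)
      rw [hS2]; exact (h.cntY s).le
    have h5 : 0 < ∏ y ∈ nr d D S, G y := Finset.prod_pos fun y _ => h.G0 y
    have h6 : 1 ≤ K ^ (J * J) * wt d D τ F G S := by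
      unfold wt
      rw [← mul_div_assoc, le_div_iff₀ h5, one_mul]
      calc ∏ y ∈ nr d D S, G y ≤ K ^ (J * J) * 1 := by rw [mul_one]; exact h3
        _ ≤ _ := mul_le_mul_of_nonneg_left h2 (by positivity)
    have := h.win.lt_one x
    linarith
  · intro z hz
    by_contra hcon
    push Not at hcon
    have h1 := hu z (fun y hy => hz y (mem_insert_of_mem hy)) hcon
    have h2 := hu z0 hz1 hz2
    have h3 := hz z0 (mem_insert_self _ _)
    have h4 := hd.tri z0 u z
    have h5 := hd.symm z0 u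
    omega

open Classical in
/-- part of the ratio acting on uncovered points -/
noncomputable def ph (d : V → V → ℕ) (D : ℕ) (Y : Finset V) (θ : V → ℝ) (z : V) : ℝ :=
  if Unc d D Y z then θ z else 1

open Classical in
/-- part of the ratio acting on covered points -/
noncomputable def ps (d : V → V → ℕ) (D : ℕ) (Y : Finset V) (θ : V → ℝ) (z : V) : ℝ :=
  if Unc d D Y z then 1 else θ z

lemma ph_mul_ps (θ : V → ℝ) (z : V) : ph d D Y θ z * ps d D Y θ z = θ z := by
  unfold ph ps; split_ifs <;> simp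

lemma ph_far {θ : V → ℝ} {z : V} (h : θ z = 1) : ph d D Y θ z = 1 := by
  unfold ph; split_ifs <;> simp [h]

lemma ps_far {θ : V → ℝ} {z : V} (h : θ z = 1) : ps d D Y θ z = 1 := by
  unfold ps; split_ifs <;> simp [h]

lemma ph_bd {θ : V → ℝ} (hl : 1 ≤ l) (hθ : ∀ z, 1 / l ≤ θ z ∧ θ z ≤ l) (z : V) :
    1 / l ≤ ph d D Y θ z ∧ ph d D Y θ z ≤ l := by
  unfold ph; split_ifs
  · exact hθ z
  · exact ⟨by rw [div_le_one (by linarith)]; exact hl, hl⟩

lemma ps_bd {θ : V → ℝ} (hl : 1 ≤ l) (hθ : ∀ z, 1 / l ≤ θ z ∧ θ z ≤ l) (z : V) :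
    1 / l ≤ ps d D Y θ z ∧ ps d D Y θ z ≤ l := by
  unfold ps; split_ifs
  · exact ⟨by rw [div_le_one (by linarith)]; exact hl, hl⟩
  · exact hθ z

lemma prod_ph (hd : Met d) {θ : V → ℝ} {u : V} (hl : 1 ≤ l) (hθ1 : ∀ z, D < d u z → θ z = 1)
    (hθ : ∀ z, 1 / l ≤ θ z ∧ θ z ≤ l) {S : Finset V} (hS : S ∈ Sp d D J) :
    (∏ z ∈ S, ph d D Y θ z = 1 + ∑ z ∈ S, (ph d D Y θ z - 1)) ∧
      1 / l ≤ ∏ z ∈ S, ph d D Y θ z ∧ ∏ z ∈ S, ph d D Y θ z ≤ l := by
  have key := prod_one_changed (S := S) (φ := ph d D Y θ) (by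
    intro a ha b hb h1 h2
    by_contra hab
    have h3 := (mem_Sp.1 hS).2 a ha b hb hab
    have h4 : d u a ≤ D := by
      by_contra h; exact h1 (ph_far (hθ1 a (by omega)))
    have h5 : d u b ≤ D := by
      by_contra h; exact h2 (ph_far (hθ1 b (by omega)))
    have h6 := hd.tri a u b
    have h7 := hd.symm a u
    omega)
  refine ⟨key.1, ?_⟩
  rcases key.2 with h | ⟨a, _, h⟩
  · rw [h]; exact ⟨by rw [div_le_one (by linarith)]; exact hl, hl⟩
  · rw [h]; exact ph_bd hl hθ a

lemma prod_ph_far (hd : Met d) {θ : V → ℝ} {u y : V} (hθ1 : ∀ z, D < d u z → θ z = 1)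
    (hy : d u y ≤ 3 * D) {S : Finset V} (hS : y ∉ nr d D S) :
    ∏ z ∈ S, ph d D Y θ z = 1 := by
  refine Finset.prod_eq_one fun z hz => ph_far (hθ1 z ?_)
  have h1 : ¬ d z y ≤ 4 * D := fun h => hS (mem_nr.2 ⟨z, hz, h⟩)
  have h2 := hd.tri z u y
  have h3 := hd.symm z u
  omega

lemma Core.move (hd : Met d) (h : Core d D J l K τ X Y F G H) (hl : 1 ≤ l) (hK : 1 < K)
    (hτ : 0 < τ) (hun : ∀ z, Unc d D Y z → F z < τ) {u y : V} (hy : d u y ≤ 3 * D)
    {β : V → ℝ}
    (hβ : ∀ X' : V → ℝ, (∀ z, 11 * D < d u z → X' z = up d D J τ (K ^ (J * J)) F G z) →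
      (∀ z, up d D J τ (K ^ (J * J)) F G z / l ^ 2 ≤ X' z ∧
        X' z ≤ up d D J τ (K ^ (J * J)) F G z * l ^ 2) →
      ∑ z, β z * X' z ≤ ∑ z, β z * up d D J τ (K ^ (J * J)) F G z → Win d (11 * D) (l ^ 2) X')
    {θ : V → ℝ} (hθ1 : ∀ z, D < d u z → θ z = 1) (hθ : ∀ z, 1 / l ≤ θ z ∧ θ z ≤ l)
    {ρ : ℝ} (hρ1 : 1 / l ≤ ρ) (hρ2 : ρ ≤ l)
    (hfun : ∑ S ∈ Sp d D J, co d D (K ^ (J * J)) β S * wt d D τ F G S *
        ((∏ z ∈ S, ph d D Y θ z) / (if y ∈ nr d D S then ρ else 1)) ≤
      ∑ S ∈ Sp d D J, co d D (K ^ (J * J)) β S * wt d D τ F G S)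
    (hΨ : G y * ρ + ∑ z ∈ ball d y (4 * D), H y z * ps d D Y θ z ≤ K)
    (hnY : y ∉ Y → ρ = 1 ∧ ∀ z, ps d D Y θ z = 1) :
    ∃ Y' F' G' H', Core d D J l K τ (fun z => X z * θ z) Y' F' G' H' ∧
      ∀ z, Unc d D Y' z → F' z < τ := by
  have hl0 : 0 < l := by linarith
  have hli : 0 < 1 / l := by positivity
  have hρ0 : 0 < ρ := by linarith
  have hK0 : 0 < K := by linarith
  have hph0 : ∀ z, 0 ≤ ph d D Y θ z := fun z => hli.le.trans (ph_bd hl hθ z).1
  have hps0 : ∀ z, 0 ≤ ps d D Y θ z := fun z => hli.le.trans (ps_bd hl hθ z).1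
  have hcore : Core d D J l K τ (fun z => X z * θ z) Y (fun z => F z * ph d D Y θ z)
      (Function.update G y (G y * ρ))
      (Function.update H y (fun z => H y z * ps d D Y θ z)) := by
    refine ⟨fun z => mul_nonneg (h.F0 z) (hph0 z), ?_, ?_, ?_, h.sep, ?_, ?_, ?_, ?_, h.cntY, ?_⟩
    · intro z
      have e1 : ∀ y', Function.update H y (fun z => H y z * ps d D Y θ z) y' z =
          Function.update (fun y' => H y' z) y (H y z * ps d D Y θ z) y' := by
        intro y'
        by_cases hy' : y' = y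
        · subst hy'; simp
        · simp [hy']
      have e2 := prod_update_mul (ball d z (4 * D)) (fun y' => H y' z) y (ps d D Y θ z)
      simp only [e1]
      rw [e2]
      have e3 : (if y ∈ ball d z (4 * D) then ps d D Y θ z else 1) = ps d D Y θ z := by
        split_ifs with hc
        · rfl
        · refine (ps_far (hθ1 z ?_)).symm
          have h1 : ¬ d z y ≤ 4 * D := fun h => hc (mem_ball.2 h)
          have h2 := hd.tri z u y
          have h3 := hd.symm z u
          omega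
      rw [e3]
      have hθ0 : 0 ≤ θ z := hli.le.trans (hθ z).1
      calc X z * θ z ≤ (F z * ∏ y ∈ ball d z (4 * D), H y z) * θ z :=
            mul_le_mul_of_nonneg_right (h.XF z) hθ0
        _ = _ := by rw [← ph_mul_ps (d := d) (D := D) (Y := Y) θ z]; ring
    · intro z
      by_cases hz : Unc d D Y z
      · calc F z * ph d D Y θ z ≤ τ * l :=
            mul_le_mul (hun z hz).le (ph_bd hl hθ z).2 (hph0 z) hτ.le
          _ = l * τ := mul_comm _ _
      · have : ph d D Y θ z = 1 := by unfold ph; rw [if_neg hz]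
        rw [this, mul_one]; exact h.Fle z
    · intro y' hy'
      have hz : ¬ Unc d D Y y' := fun hh => by
        have h1 := hh y' hy'
        have h2 := hd.self y'
        omega
      have : ph d D Y θ y' = 1 := by unfold ph; rw [if_neg hz]
      rw [this, mul_one]; exact h.Fc y' hy'
    · intro y'
      by_cases hy' : y' = y
      · subst hy'; simp only [Function.update_self]; exact mul_pos (h.G0 _) hρ0
      · rw [Function.update_of_ne hy']; exact h.G0 y'
    · intro y' z
      by_cases hy' : y' = y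
      · subst hy'; simp only [Function.update_self]; exact mul_nonneg (h.H0 _ _) (hps0 z)
      · rw [Function.update_of_ne hy']; exact h.H0 y' z
    · intro y'
      by_cases hy' : y' = y
      · subst hy'; simp only [Function.update_self]; exact hΨ
      · rw [Function.update_of_ne hy', Function.update_of_ne hy']; exact h.Psi y'
    · intro y' hy'Y
      by_cases hy' : y' = y
      · subst hy'
        simp only [Function.update_self]
        obtain ⟨a1, a2⟩ := hnY hy'Y
        obtain ⟨b1, b2⟩ := h.out _ hy'Y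
        exact ⟨by rw [a1, b1, one_mul], fun z => by rw [a2, b2, one_mul]⟩
      · rw [Function.update_of_ne hy', Function.update_of_ne hy']; exact h.out y' hy'Y
    · refine hβ _ ?_ ?_ ?_
      · intro x hx
        unfold up
        refine Finset.sum_congr rfl fun S hS => ?_
        have hS2 := (mem_filter.1 hS).2
        have hyn : y ∉ nr d D S := fun hh => by
          obtain ⟨s, hs1, hs2⟩ := mem_nr.1 hh
          have h1 := mem_ball.1 (hS2 hs1)
          have h2 := hd.tri u y x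
          have h3 := hd.tri y s x
          have h4 := hd.symm y s
          have h5 := hd.symm s x
          omega
        rw [wt_update, prod_ph_far hd hθ1 hy hyn, if_neg hyn]; ring
      · intro x
        have hr : ∀ S ∈ Sp d D J,
            1 / l ^ 2 ≤ (∏ z ∈ S, ph d D Y θ z) / (if y ∈ nr d D S then ρ else 1) ∧
            (∏ z ∈ S, ph d D Y θ z) / (if y ∈ nr d D S then ρ else 1) ≤ l ^ 2 := by
          intro S hS
          obtain ⟨-, p1, p2⟩ := prod_ph (Y := Y) hd hl hθ1 hθ hS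
          have q : 1 / l ≤ (if y ∈ nr d D S then ρ else 1) ∧
              (if y ∈ nr d D S then ρ else 1) ≤ l := by
            split_ifs
            · exact ⟨hρ1, hρ2⟩
            · exact ⟨by rw [div_le_one hl0]; exact hl, hl⟩
          have q0 : 0 < (if y ∈ nr d D S then ρ else 1) := hli.trans_le q.1
          constructor
          · rw [le_div_iff₀ q0]
            calc 1 / l ^ 2 * (if y ∈ nr d D S then ρ else 1) ≤ 1 / l ^ 2 * l :=
                  mul_le_mul_of_nonneg_left q.2 (by positivity)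
              _ = 1 / l := by field_simp
              _ ≤ _ := p1
          · rw [div_le_iff₀ q0]
            calc ∏ z ∈ S, ph d D Y θ z ≤ l := p2
              _ = l ^ 2 * (1 / l) := by field_simp
              _ ≤ _ := mul_le_mul_of_nonneg_left q.1 (by positivity)
        unfold up
        rw [Finset.sum_div, Finset.sum_mul]
        constructor
        · refine Finset.sum_le_sum fun S hS => ?_
          have w0 : 0 ≤ K ^ (J * J) * wt d D τ F G S :=
            mul_nonneg (by positivity) (wt_nonneg hτ h.F0 h.G0 S)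
          rw [wt_update, ← mul_assoc, div_eq_mul_one_div]
          exact mul_le_mul_of_nonneg_left (hr S (mem_filter.1 hS).1).1 w0
        · refine Finset.sum_le_sum fun S hS => ?_
          have w0 : 0 ≤ K ^ (J * J) * wt d D τ F G S :=
            mul_nonneg (by positivity) (wt_nonneg hτ h.F0 h.G0 S)
          rw [wt_update, ← mul_assoc]
          exact mul_le_mul_of_nonneg_left (hr S (mem_filter.1 hS).1).2 w0
      · rw [sum_up, sum_up]
        refine le_trans (le_of_eq (Finset.sum_congr rfl fun S _ => ?_)) hfun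
        rw [wt_update, mul_assoc]
  obtain ⟨Y', h1, h2⟩ := hcore.openc hd hK hτ u (by
    intro z hz hF
    by_contra hcon
    rw [ph_far (hθ1 z (by omega)), mul_one] at hF
    exact absurd (hun z hz) (not_lt.2 hF))
  exact ⟨Y', _, _, _, h1, h2⟩

end Pool.Agent.P.MP_0dac36_co.LG
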