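import Pool.Agent.P.MP_0dac36_co.Safe

namespace Pool.Agent.P.MP_0dac36_co

open Finset

variable {V : Type} [DecidableEq V] {ι : Type}

/-- multiply the values at the end points of `e` by `γ` -/
def scale (E : V → ℝ) (γ : ℝ) (e : Sym2 V) : V → ℝ := fun v => if v ∈ e then γ * E v else E v

noncomputable def Phi (T : Finset ι) (Y : ι → Finset V) (w : ι → ℝ) (E : V → ℝ) : ℝ :=
  ∑ τ ∈ T, w τ * ∏ v ∈ Y τ, E v

noncomputable def Wt (T : Finset ι) (Y : ι → Finset V) (w : ι → ℝ) (E : V → ℝ) (e : Sym2 V) : ℝ :=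
  ∑ τ ∈ T, (w τ * ∏ v ∈ Y τ, E v) * (((Y τ).filter (fun v => v ∈ e)).card : ℝ)

lemma card_filter_mem_le_two (S : Finset V) (e : Sym2 V) :
    (S.filter (fun v => v ∈ e)).card ≤ 2 := by
  induction e using Sym2.ind with
  | _ x y =>
    have : S.filter (fun v => v ∈ s(x, y)) ⊆ {x, y} := by
      intro v hv
      have := (mem_filter.1 hv).2
      simpa using this
    exact (card_le_card this).trans card_le_two

lemma prod_scale (S : Finset V) (E : V → ℝ) (γ : ℝ) (e : Sym2 V) :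
    ∏ v ∈ S, scale E γ e v = γ ^ (S.filter (fun v => v ∈ e)).card * ∏ v ∈ S, E v := by
  have : ∀ v, scale E γ e v = (if v ∈ e then γ else 1) * E v := by
    intro v; unfold scale; split_ifs <;> simp
  simp_rw [this]
  rw [prod_mul_distrib, prod_ite]
  simp

lemma pow_le_lin (γ : ℝ) (j : ℕ) (hj : j ≤ 2) : γ ^ j ≤ 1 + (γ ^ 2 - 1) / 2 * (j : ℝ) := by
  interval_cases j
  · simp
  · simp only [pow_one, Nat.cast_one, mul_one]; nlinarith [sq_nonneg (γ - 1)]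
  · push_cast; linarith

lemma Phi_scale_le {T : Finset ι} {Y : ι → Finset V} {w : ι → ℝ} (hw : ∀ τ ∈ T, 0 ≤ w τ)
    {E : V → ℝ} (hE : ∀ v, 0 ≤ E v) (γ : ℝ) (e : Sym2 V) :
    Phi T Y w (scale E γ e) ≤ Phi T Y w E + (γ ^ 2 - 1) / 2 * Wt T Y w E e := by
  unfold Phi Wt
  rw [mul_sum, ← sum_add_distrib]
  refine sum_le_sum fun τ hτ => ?_
  rw [prod_scale]
  have h0 : 0 ≤ w τ * ∏ v ∈ Y τ, E v := mul_nonneg (hw τ hτ) (prod_nonneg fun v _ => hE v)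
  have h1 := pow_le_lin γ _ (card_filter_mem_le_two (Y τ) e)
  have h2 := mul_le_mul_of_nonneg_left h1 h0
  nlinarith [h2]

lemma Phi_scale_le' {T : Finset ι} {Y : ι → Finset V} {w : ι → ℝ} (hw : ∀ τ ∈ T, 0 ≤ w τ)
    {E : V → ℝ} (hE : ∀ v, 0 ≤ E v) (γ : ℝ) (h1 : 1 ≤ γ ^ 2) (e : Sym2 V) :
    Phi T Y w (scale E γ e) ≤ γ ^ 2 * Phi T Y w E := by
  refine (Phi_scale_le hw hE γ e).trans ?_
  have : Wt T Y w E e ≤ 2 * Phi T Y w E := by
    unfold Phi Wt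
    rw [mul_sum]
    refine sum_le_sum fun τ hτ => ?_
    have h0 : 0 ≤ w τ * ∏ v ∈ Y τ, E v := mul_nonneg (hw τ hτ) (prod_nonneg fun v _ => hE v)
    have h2 : (((Y τ).filter (fun v => v ∈ e)).card : ℝ) ≤ 2 := by
      exact_mod_cast card_filter_mem_le_two (Y τ) e
    nlinarith
  nlinarith

lemma Wt_mono {T : Finset ι} {Y : ι → Finset V} {w : ι → ℝ} (hw : ∀ τ ∈ T, 0 ≤ w τ)
    {E E' : V → ℝ} (hE : ∀ v, 0 ≤ E' v) (h : ∀ v, E' v ≤ E v) (e : Sym2 V) :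
    Wt T Y w E' e ≤ Wt T Y w E e := by
  unfold Wt
  refine sum_le_sum fun τ hτ => ?_
  refine mul_le_mul_of_nonneg_right ?_ (Nat.cast_nonneg _)
  exact mul_le_mul_of_nonneg_left (prod_le_prod (fun v _ => hE v) (fun v _ => h v)) (hw τ hτ)

lemma Wt_nonneg {T : Finset ι} {Y : ι → Finset V} {w : ι → ℝ} (hw : ∀ τ ∈ T, 0 ≤ w τ)
    {E : V → ℝ} (hE : ∀ v, 0 ≤ E v) (e : Sym2 V) : 0 ≤ Wt T Y w E e :=
  sum_nonneg fun τ hτ => mul_nonneg (mul_nonneg (hw τ hτ) (prod_nonneg fun v _ => hE v))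
    (Nat.cast_nonneg _)

/-- the greedy reply: Breaker takes an edge of largest weight -/
lemma Phi_greedy {T : Finset ι} {Y : ι → Finset V} {w : ι → ℝ} (hw : ∀ τ ∈ T, 0 ≤ w τ)
    {E : V → ℝ} (hE : ∀ v, 0 ≤ E v) {α β : ℝ} (hα : 1 ≤ α) (hβ0 : 0 ≤ β) (hβ : β ≤ 1)
    (hs : α ^ 2 + β ^ 2 ≤ 2) {f g : Sym2 V} (hfg : Wt T Y w E g ≤ Wt T Y w E f) :
    Phi T Y w (scale (scale E β f) α g) ≤ Phi T Y w E := by
  have hE' : ∀ v, 0 ≤ scale E β f v := by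
    intro v; unfold scale; split_ifs
    · exact mul_nonneg hβ0 (hE v)
    · exact hE v
  have hle : ∀ v, scale E β f v ≤ E v := by
    intro v; unfold scale; split_ifs
    · nlinarith [hE v]
    · exact le_rfl
  have h1 := Phi_scale_le (T := T) (Y := Y) hw hE' α g
  have h2 := Phi_scale_le (T := T) (Y := Y) hw hE β f
  have h3 := Wt_mono (T := T) (Y := Y) hw hE' hle g
  have h4 := Wt_nonneg (T := T) (Y := Y) hw hE f
  have h5 : 0 ≤ (α ^ 2 - 1) / 2 := by nlinarith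
  have h6 : (α ^ 2 - 1) / 2 * Wt T Y w (scale E β f) g ≤ (α ^ 2 - 1) / 2 * Wt T Y w E f :=
    mul_le_mul_of_nonneg_left (h3.trans hfg) h5
  nlinarith

omit [DecidableEq V] in
lemma term_le_Phi {T : Finset ι} {Y : ι → Finset V} {w : ι → ℝ} (hw : ∀ τ ∈ T, 0 ≤ w τ)
    {E : V → ℝ} (hE : ∀ v, 0 ≤ E v) {τ : ι} (hτ : τ ∈ T) :
    w τ * ∏ v ∈ Y τ, E v ≤ Phi T Y w E :=
  single_le_sum (f := fun τ => w τ * ∏ v ∈ Y τ, E v)
    (fun τ hτ => mul_nonneg (hw τ hτ) (prod_nonneg fun v _ => hE v)) hτ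

lemma exp_pair {a : ℝ} (ha : 0 ≤ a) (ha' : a ≤ 1 / 16) :
    Real.exp a ^ 2 + Real.exp (-(a + 8 * a ^ 2)) ^ 2 ≤ 2 := by
  have e1 : Real.exp a ^ 2 = Real.exp (2 * a) := by rw [← Real.exp_nat_mul]; norm_num
  have e2 : Real.exp (-(a + 8 * a ^ 2)) ^ 2 = Real.exp (-(2 * (a + 8 * a ^ 2))) := by
    rw [← Real.exp_nat_mul]; congr 1; push_cast; ring
  rw [e1, e2]
  have h1 := Real.abs_exp_sub_one_sub_id_le (x := 2 * a) (by rw [abs_le]; constructor <;> linarith)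
  have h2 := Real.abs_exp_sub_one_sub_id_le (x := -(2 * (a + 8 * a ^ 2)))
    (by rw [abs_le]; constructor <;> nlinarith)
  have h3 := (abs_le.1 h1).2
  have h4 := (abs_le.1 h2).2
  have h5 : a + 8 * a ^ 2 ≤ 3 / 2 * a := by nlinarith
  have h6 : (a + 8 * a ^ 2) ^ 2 ≤ (3 / 2 * a) ^ 2 := by
    apply pow_le_pow_left₀ (by positivity) h5
  nlinarith

end Pool.Agent.P.MP_0dac36_co
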