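import Pool.Agent.P.MP_0dac36_co.Core

namespace Pool.Agent.P.MP_0dac36_co

open Finset

lemma exists_sq_le_exp {c : ℝ} (hc : 0 < c) (A : ℝ) :
    ∃ n0 : ℕ, ∀ n : ℕ, n0 ≤ n → A * (n : ℝ) ^ 2 ≤ Real.exp (c * n) := by
  obtain ⟨n0, hn0⟩ := exists_nat_ge (6 * |A| / c ^ 3)
  refine ⟨n0, fun n hn => ?_⟩
  have h1 := Real.pow_div_factorial_le_exp (c * n) (by positivity) 3
  have h2 : 6 * |A| / c ^ 3 ≤ n := hn0.trans (by exact_mod_cast hn)
  rw [div_le_iff₀ (by positivity)] at h2
  have h3 : A * (n : ℝ) ^ 2 ≤ |A| * (n : ℝ) ^ 2 :=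
    mul_le_mul_of_nonneg_right (le_abs_self A) (by positivity)
  have h4 : 6 * |A| * (n : ℝ) ^ 2 ≤ n * c ^ 3 * (n : ℝ) ^ 2 :=
    mul_le_mul_of_nonneg_right h2 (by positivity)
  have h5 : ((Nat.factorial 3 : ℕ) : ℝ) = 6 := by norm_num [Nat.factorial]
  rw [h5] at h1
  nlinarith

theorem core {δ : ℝ} (hδ : 0 < δ) (hδ1 : δ ≤ 1) : ∃ n0 : ℕ, ∀ n : ℕ, n0 ≤ n →
    ∀ (V : Type) [DecidableEq V] (U : Finset (Sym2 V)) (W : Finset V) (s : ℕ),
      (∀ e ∈ U, ∀ v ∈ e, v ∈ W) → (∀ v, dg U v ≤ n) → 1 ≤ s →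
      (∀ S : Finset V, S.card ≤ s → es U S ≤ δ * n * S.card) →
      8 * (W.card : ℝ) ≤ Real.exp (δ ^ 2 / 128 * s) → Safe U (fun v => dg U v / 2 + 3 * δ * n) := by
  obtain ⟨n1, hn1⟩ := exists_sq_le_exp (c := δ ^ 2 / 128) (by positivity) 4
  obtain ⟨n2, hn2⟩ := exists_nat_ge (2 / δ)
  refine ⟨max 1 (max n1 n2), fun n hn V _ U W s hW hn' hs hsp hN => ?_⟩
  have hn0 : 1 ≤ n := (le_max_left _ _).trans hn
  have hnR : (1 : ℝ) ≤ n := by exact_mod_cast hn0
  have h1 := hn1 n ((le_max_left _ _).trans ((le_max_right _ _).trans hn))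
  have h2 : 2 ≤ δ * n := by
    have : (n2 : ℝ) ≤ n := by exact_mod_cast (le_max_right _ _).trans ((le_max_right _ _).trans hn)
    have h3 := hn2.trans this
    rw [div_le_iff₀ hδ] at h3
    linarith
  set x := Real.exp (δ ^ 2 / 128 * n) with hx
  have hx0 : 0 < x := Real.exp_pos _
  have hx4 : 4 ≤ x := by nlinarith
  have hρ : 4 * (n : ℝ) ^ 2 / x ^ 2 ≤ 1 / x := by
    rw [div_le_div_iff₀ (by positivity) hx0]; nlinarith
  have hρ2 : 4 * (n : ℝ) ^ 2 / x ^ 2 ≤ 1 / 2 :=
    hρ.trans (one_div_le_one_div_of_le (by norm_num) (by linarith))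
  obtain ⟨T, w, hw, hsum, hfam⟩ := exists_family (W := W) hn' hn0 ((s - 1) / n) s
    (k := x ^ 2) (by nlinarith) hρ2
  have hm : n * ((s - 1) / n) + 1 ≤ s := by
    have := Nat.mul_div_le (s - 1) n
    omega
  have hm' : s ≤ n * ((s - 1) / n + 1) := by
    have := Nat.lt_mul_div_succ (s - 1) hn0
    omega
  refine core_abs (θ := δ * n) (X := δ * n) (a := δ / 16) (K := (x ^ 2) ^ 2) (m0 := (s - 1) / n)
    (m := s) (Y := fun τ => τ.2.2) hW hn' (by positivity) (by positivity) (by positivity)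
    (by linarith) hm ((Nat.div_le_self _ _).trans (by omega)) hsp (by linarith) (by positivity)
    ?_ hw ?_ hfam
  · rw [hx, ← pow_mul, ← Real.exp_nat_mul]
    refine le_of_eq (congrArg _ ?_)
    push_cast; ring
  · have h3 : Real.exp (δ / 16) ^ 2 ≤ 2 := by
      have := exp_pair (a := δ / 16) (by positivity) (by linarith)
      nlinarith [sq_nonneg (Real.exp (-(δ / 16 + 8 * (δ / 16) ^ 2)))]
    have h4 : (4 * (n : ℝ) ^ 2 / x ^ 2) ^ ((s - 1) / n + 1) ≤ 1 / Real.exp (δ ^ 2 / 128 * s) := by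
      refine (pow_le_pow_left₀ (by positivity) hρ _).trans ?_
      rw [div_pow, one_pow]
      refine one_div_le_one_div_of_le (Real.exp_pos _) ?_
      rw [hx, ← Real.exp_nat_mul, Real.exp_le_exp]
      have : (s : ℝ) ≤ n * (((s - 1) / n + 1 : ℕ) : ℝ) := by exact_mod_cast hm'
      have h5 := mul_le_mul_of_nonneg_left this (by positivity : 0 ≤ δ ^ 2 / 128)
      linarith
    have h5 : (W.card : ℝ) * (2 * (4 * (n : ℝ) ^ 2 / x ^ 2) ^ ((s - 1) / n + 1)) ≤ 1 / 4 := by
      have h6 : (W.card : ℝ) * (1 / Real.exp (δ ^ 2 / 128 * s)) ≤ 1 / 8 := by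
        rw [mul_one_div, div_le_iff₀ (Real.exp_pos _)]; linarith
      have h7 := mul_le_mul_of_nonneg_left h4 (Nat.cast_nonneg W.card)
      linarith
    have h6 : 0 ≤ ∑ τ ∈ T, w τ := sum_nonneg hw
    nlinarith

variable {V : Type} [DecidableEq V]

omit [DecidableEq V] in
lemma es_mono {U U' : Finset (Sym2 V)} (h : U' ⊆ U) (S : Finset V) : es U' S ≤ es U S :=
  cnt_mono_set h _

/-- splitting off small dense pieces as separate boards -/
lemma decomp {U0 : Finset (Sym2 V)} {θ η q : ℝ} (hθ : 0 < θ) (hη : 0 ≤ η) {m : ℕ}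
    (hcore : ∀ U ⊆ U0, (∀ S : Finset V, S.card ≤ m → es U S ≤ θ * S.card) →
      Safe U (fun v => dg U v / 2 + q))
    (hsmall : ∀ U ⊆ U0, ∀ S : Finset V, S.card ≤ m → (∀ e ∈ U, ∀ v ∈ e, v ∈ S) →
      Safe U (fun v => dg U v / 2 + η)) :
    ∀ (k : ℕ) (U : Finset (Sym2 V)), U.card ≤ k → U ⊆ U0 →
      Safe U (fun v => dg U v / 2 + dg U v * (η / θ) + q) := by
  classical
  have base : ∀ U ⊆ U0, (∀ S : Finset V, S.card ≤ m → es U S ≤ θ * S.card) →
      Safe U (fun v => dg U v / 2 + dg U v * (η / θ) + q) := by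
    intro U hU h
    refine (hcore U hU h).mono Subset.rfl fun v => ?_
    have : 0 ≤ dg U v * (η / θ) := mul_nonneg (cnt_nonneg _ _) (by positivity)
    linarith
  intro k
  induction k with
  | zero =>
    intro U hk hU
    refine base U hU fun S _ => ?_
    have : U = ∅ := card_eq_zero.1 (by omega)
    have h2 : es U S = 0 := cnt_eq_zero fun e he => by rw [this] at he; simp at he
    rw [h2]; positivity
  | succ k ih =>
    intro U hk hU
    by_cases hsp : ∀ S : Finset V, S.card ≤ m → es U S ≤ θ * S.card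
    · exact base U hU hsp
    push Not at hsp
    obtain ⟨S0, hS0, hS0'⟩ := hsp
    obtain ⟨S, hS, hmin⟩ := exists_min_image
      (S0.powerset.filter (fun S => θ * S.card < es U S)) Finset.card
      ⟨S0, mem_filter.2 ⟨mem_powerset.2 Subset.rfl, hS0'⟩⟩
    obtain ⟨hS1, hS2⟩ := mem_filter.1 hS
    rw [mem_powerset] at hS1
    set H := U.filter (fun e => ∀ u ∈ e, u ∈ S) with hH
    have hHU : H ⊆ U := filter_subset _ _
    have hdeg : ∀ v ∈ S, θ ≤ dg H v := by
      intro v hv
      have h1 : es U (S.erase v) ≤ θ * (S.erase v).card := by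
        by_contra hc
        push Not at hc
        have := hmin _ (mem_filter.2 ⟨mem_powerset.2 ((erase_subset _ _).trans hS1), hc⟩)
        have h2 := card_erase_lt_of_mem hv
        omega
      have h2 : es U S ≤ es U (S.erase v) + dg H v := by
        unfold es dg
        rw [cnt_split U _ (fun e => v ∈ e), add_comm]
        refine add_le_add (cnt_mono_pred fun e _ h u hu => mem_erase.2
          ⟨fun h' => h.2 (h' ▸ hu), h.1 u hu⟩) (le_of_eq ?_)
        rw [cnt_eq_card, cnt_eq_card, hH, filter_filter]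
      have h3 : ((S.erase v).card : ℝ) = S.card - 1 := by
        rw [card_erase_of_mem hv, Nat.cast_sub (card_pos.2 ⟨v, hv⟩)]; simp
      rw [h3] at h1
      linarith
    have hHne : H.Nonempty := by
      rw [← card_pos]
      have h1 : es U S = (H.card : ℝ) := cnt_eq_card _ _
      have h2 : (0 : ℝ) ≤ θ * S.card := by positivity
      have : (0 : ℝ) < H.card := by linarith
      exact_mod_cast this
    have h1 := (hsmall H (hHU.trans hU) S ((card_le_card hS1).trans hS0)
      (fun e he => (mem_filter.1 he).2)).min_dg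
    have h2 := ih (U \ H) (by
      have := card_lt_card (sdiff_ssubset hHU hHne)
      omega) (sdiff_subset.trans hU)
    have h3 := h1.union h2 disjoint_sdiff
    rw [union_sdiff_of_subset hHU] at h3
    refine h3.mono Subset.rfl fun v => ?_
    have h4 : dg (U \ H) v = dg U v - dg H v := cnt_sdiff hHU _
    have h5 : min (dg H v / 2 + η) (dg H v) ≤ dg H v / 2 + dg H v * (η / θ) := by
      by_cases hv : v ∈ S
      · refine (min_le_left _ _).trans ?_
        have h6 := mul_le_mul_of_nonneg_right (hdeg v hv) (by positivity : 0 ≤ η / θ)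
        have h7 : θ * (η / θ) = η := by field_simp
        linarith
      · have h6 : dg H v = 0 := cnt_eq_zero fun e he h => hv ((mem_filter.1 he).2 v h)
        refine (min_le_right _ _).trans ?_
        rw [h6]; simp
    rw [h4]
    linarith

lemma le_tower (h s : ℕ) : s ≤ tower h s := by
  induction h with
  | zero => exact le_rfl
  | succ h ih => exact ih.trans (Nat.lt_two_pow_self).le

lemma tower_mono (h : ℕ) {s t : ℕ} (hst : s ≤ t) : tower h s ≤ tower h t := by
  induction h with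
  | zero => exact hst
  | succ h ih => exact Nat.pow_le_pow_right (by norm_num) ih

lemma tower_succ' (h s : ℕ) : tower (h + 1) s = tower h (2 ^ s) := by
  induction h with
  | zero => rfl
  | succ h ih => exact congrArg (fun t => 2 ^ t) ih

theorem tower_safe (h : ℕ) : ∀ (A : ℕ) (ε : ℝ), 0 < ε → ∃ δ : ℝ, 0 < δ ∧ ∃ s0 n0 : ℕ,
    ∀ n : ℕ, n0 ≤ n → ∀ s : ℕ, s0 ≤ s →
    ∀ (V : Type) [DecidableEq V] (U : Finset (Sym2 V)) (W : Finset V),
      (∀ e ∈ U, ∀ v ∈ e, v ∈ W) → (∀ v, dg U v ≤ n) →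
      (∀ S : Finset V, S.card ≤ s → es U S ≤ δ * n * S.card) →
      W.card ≤ A * tower h s → Safe U (fun v => dg U v / 2 + ε * n) := by
  induction h with
  | zero =>
    intro A ε hε
    have hδ : 0 < min (ε / 3) 1 := lt_min (by positivity) one_pos
    obtain ⟨n0, hn0⟩ := core hδ (min_le_right _ _)
    obtain ⟨s1, hs1⟩ := exists_sq_le_exp (c := (min (ε / 3) 1) ^ 2 / 128) (by positivity) (8 * A)
    refine ⟨_, hδ, max 1 s1, n0, fun n hn s hs V _ U W hW hd hsp hN => ?_⟩
    have hs0 : 1 ≤ s := (le_max_left _ _).trans hs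
    refine (hn0 n hn V U W s hW hd hs0 hsp ?_).mono Subset.rfl fun v => ?_
    · refine le_trans ?_ (hs1 s ((le_max_right _ _).trans hs))
      have h1 : (W.card : ℝ) ≤ A * s := by exact_mod_cast hN
      have h2 : (1 : ℝ) ≤ s := by exact_mod_cast hs0
      have h3 : (0 : ℝ) ≤ A := Nat.cast_nonneg _
      have h4 : (A : ℝ) * s ≤ A * s ^ 2 := mul_le_mul_of_nonneg_left (by nlinarith) h3
      linarith
    · have h1 : min (ε / 3) 1 ≤ ε / 3 := min_le_left _ _
      have h2 : (0 : ℝ) ≤ n := Nat.cast_nonneg _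
      nlinarith
  | succ h ih =>
    intro A ε hε
    set δ1 := min (ε / 6) 1 with hδ1
    have hδ : 0 < δ1 := lt_min (by positivity) one_pos
    obtain ⟨n0, hn0⟩ := core hδ (min_le_right _ _)
    obtain ⟨A', hA'⟩ := exists_nat_ge ((8 * A + 1) * 128 / δ1 ^ 2)
    obtain ⟨δ, hδ0, s0, n1, hI⟩ := ih A' (ε * δ1 / 2) (by positivity)
    refine ⟨δ, hδ0, max 1 s0, max 1 (max n0 n1), fun n hn s hs V _ U W hW hd hsp hN => ?_⟩
    have hs0 : 1 ≤ s := (le_max_left _ _).trans hs
    have hn1 : 1 ≤ n := (le_max_left _ _).trans hn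
    have hnR : (1 : ℝ) ≤ n := by exact_mod_cast hn1
    have hT : 1 ≤ tower h s := hs0.trans (le_tower h s)
    have hTR : (1 : ℝ) ≤ tower h s := by exact_mod_cast hT
    have hA1 : (8 * A + 1 : ℝ) ≤ δ1 ^ 2 / 128 * A' := by
      rw [div_le_iff₀ (by positivity)] at hA'
      linarith
    have hA0 : (0 : ℝ) ≤ A := Nat.cast_nonneg _
    have hA2 : 1 ≤ A' := by
      rcases Nat.eq_zero_or_pos A' with h0 | h0
      · rw [h0] at hA1; simp at hA1; linarith
      · exact h0
    have key := decomp (U0 := U) (θ := δ1 * n) (η := ε * δ1 / 2 * n) (q := 3 * δ1 * n)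
      (by positivity) (by positivity) (m := A' * tower h s) ?_ ?_ U.card U le_rfl Subset.rfl
    · refine key.mono Subset.rfl fun v => ?_
      have h1 : ε * δ1 / 2 * n / (δ1 * n) = ε / 2 := by field_simp
      rw [h1]
      have h2 := mul_le_mul_of_nonneg_right (hd v) (by positivity : 0 ≤ ε / 2)
      have h3 : δ1 ≤ ε / 6 := min_le_left _ _
      nlinarith
    · intro U' hU' hsp'
      refine hn0 n ((le_max_left _ _).trans ((le_max_right _ _).trans hn)) V U' W _
        (fun e he => hW e (hU' he)) (fun v => (cnt_mono_set hU' _).trans (hd v))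
        (Nat.mul_pos hA2 hT) hsp' ?_
      have h1 : (W.card : ℝ) ≤ A * 2 ^ tower h s := by exact_mod_cast hN
      have h2 : (2 : ℝ) ^ tower h s ≤ Real.exp (tower h s) := by
        rw [← Real.exp_one_pow]
        refine pow_le_pow_left₀ (by norm_num) ?_ _
        have := Real.add_one_le_exp 1
        linarith
      have h3 : (8 * A : ℝ) ≤ Real.exp (8 * A) := by
        have := Real.add_one_le_exp (8 * A : ℝ)
        linarith
      have h4 : Real.exp (8 * A) * Real.exp (tower h s) ≤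
          Real.exp (δ1 ^ 2 / 128 * ((A' * tower h s : ℕ) : ℝ)) := by
        rw [← Real.exp_add, Real.exp_le_exp]
        push_cast
        have h5 := mul_le_mul_of_nonneg_right hA1 (by positivity : (0 : ℝ) ≤ tower h s)
        nlinarith
      have h5 : (8 * A : ℝ) * 2 ^ tower h s ≤ Real.exp (8 * A) * Real.exp (tower h s) :=
        mul_le_mul h3 h2 (by positivity) (Real.exp_pos _).le
      linarith
    · intro U' hU' S hS hUS
      exact hI n ((le_max_right _ _).trans ((le_max_right _ _).trans hn)) s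
        ((le_max_right _ _).trans hs) V U' S hUS (fun v => (cnt_mono_set hU' _).trans (hd v))
        (fun S' hS' => (es_mono hU' S').trans (hsp S' hS')) hS

end Pool.Agent.P.MP_0dac36_co
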