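import Pool.Agent.P.MP_0dac36_co.LMain

namespace Pool.Agent.P.MP_0dac36_co.VariantTwoThirds

open Pool.Agent.P.MP_0dac36_co

/-- Q1 has the answer yes. First part: Q1 as posed (some constant `c < 3/4` bounds the degree
Maker can force on every finite `n`-regular graph, for all large `n`). Second part: in fact
every constant `c > 2/3` works, on every finite graph of maximum degree at most `n`. -/
theorem result :
    (∃ c : ℝ, c < 3 / 4 ∧ ∃ n₀ : ℕ, ∀ n : ℕ, n₀ ≤ n →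
      ∀ (V : Type) [Fintype V] [DecidableEq V] (G : SimpleGraph V) [DecidableRel G.Adj],
        G.IsRegularOfDegree n →
        ∀ d : ℕ, MakerForces G d true ∅ ∅ → (d : ℝ) ≤ c * (n : ℝ)) ∧
    (∀ c : ℝ, 2 / 3 < c → ∃ n₀ : ℕ, ∀ n : ℕ, n₀ ≤ n →
      ∀ (V : Type) [Fintype V] [DecidableEq V] (G : SimpleGraph V) [DecidableRel G.Adj],
        (∀ v : V, G.degree v ≤ n) →
        ∀ d : ℕ, MakerForces G d true ∅ ∅ → (d : ℝ) ≤ c * (n : ℝ)) := by
  refine ⟨⟨7 / 10, by norm_num, ?_⟩, LG.two_thirds⟩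
  obtain ⟨n₀, h⟩ := LG.two_thirds (7 / 10) (by norm_num)
  exact ⟨n₀, fun n hn V _ _ G _ hreg => h n hn V G fun v => (hreg.degree_eq v).le⟩

end Pool.Agent.P.MP_0dac36_co.VariantTwoThirds
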