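import Pool.Agent.P.MP_0dac36_co.Built

namespace Pool.Agent.P.MP_0dac36_co

open Finset

variable {V : Type} [DecidableEq V]

/-- bookkeeping part of the invariant -/
structure WInv (U0 U : Finset (Sym2 V)) (c : V → ℝ) (P : Finset V) (own : Sym2 V → V)
    (D : V → ℝ) (Q : ℝ) : Prop where
  sub : U ⊆ U0
  own_mem : ∀ e ∈ U, (∃ u ∈ e, u ∈ P) → own e ∈ e ∧ own e ∈ P
  out : ∀ v ∉ P, dg U v + 2 * Q ≤ 2 * c v + nm (U0 \ U) P v + D v
  inn : ∀ v ∈ P, dg U v + cnt U (fun e => v ∈ e ∧ own e ≠ v) + 1 ≤ 2 * c v ∨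
    ((∀ e ∈ U, v ∈ e → own e ≠ v) ∧ dg U v + cnt U (fun e => v ∈ e ∧ own e ≠ v) ≤ 2 * c v)

omit [DecidableEq V] in
lemma nm_mono_right (U : Finset (Sym2 V)) {P P' : Finset V} (h : P ⊆ P') (v : V) :
    nm U P v ≤ nm U P' v :=
  cnt_mono_pred fun _ _ h1 => ⟨h1.1, by obtain ⟨u, hu, huP⟩ := h1.2; exact ⟨u, hu, h huP⟩⟩

lemma nm_union_le (U : Finset (Sym2 V)) (P P' : Finset V) (v : V) :
    nm U (P ∪ P') v ≤ nm U P v + nm U P' v := by
  unfold nm
  rw [cnt_split U _ (fun e => ∃ u ∈ e, u ∈ P)]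
  refine add_le_add (cnt_mono_pred fun e _ h => ⟨h.1.1, h.2⟩) (cnt_mono_pred fun e _ h => ⟨h.1.1, ?_⟩)
  obtain ⟨u, hu, huP⟩ := h.1.2
  exact ⟨u, hu, (mem_union.1 huP).resolve_left fun h' => h.2 ⟨u, hu, h'⟩⟩

lemma WInv.join {U0 U : Finset (Sym2 V)} {c : V → ℝ} {P : Finset V} {own : Sym2 V → V}
    {D : V → ℝ} {Q : ℝ} (h : WInv U0 U c P own D Q) {v : V} (hv : v ∉ P)
    (hQ : nm U0 P v + D v + 1 ≤ 2 * Q) : ∃ own', WInv U0 U c (insert v P) own' D Q := by
  classical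
  refine ⟨fun e => if ∃ u ∈ e, u ∈ P then own e else v, h.sub, ?_, ?_, ?_⟩
  · intro e he hex
    by_cases h1 : ∃ u ∈ e, u ∈ P
    · rw [if_pos h1]
      exact ⟨(h.own_mem e he h1).1, mem_insert_of_mem (h.own_mem e he h1).2⟩
    · rw [if_neg h1]
      obtain ⟨u, hu, huP⟩ := hex
      have : u = v := (mem_insert.1 huP).resolve_right fun h' => h1 ⟨u, hu, h'⟩
      exact ⟨this ▸ hu, mem_insert_self _ _⟩
  · intro x hx
    have h1 := h.out x (fun h' => hx (mem_insert_of_mem h'))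
    have h2 := nm_mono_right (U0 \ U) (subset_insert v P) x
    linarith
  · intro x hx
    rcases mem_insert.1 hx with rfl | hx
    · left
      have h1 := h.out x hv
      have h2 : cnt U (fun e => x ∈ e ∧ (if ∃ u ∈ e, u ∈ P then own e else x) ≠ x) ≤ nm U P x := by
        refine cnt_mono_pred fun e _ h3 => ⟨h3.1, ?_⟩
        by_contra h4
        exact h3.2 (if_neg h4)
      have h3 : nm (U0 \ U) P x = nm U0 P x - nm U P x := cnt_sdiff h.sub _
      linarith
    · have h1 : cnt U (fun e => x ∈ e ∧ (if ∃ u ∈ e, u ∈ P then own e else v) ≠ x) =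
          cnt U (fun e => x ∈ e ∧ own e ≠ x) := by
        refine cnt_congr fun e _ => and_congr_right fun h2 => ?_
        rw [if_pos ⟨x, h2, hx⟩]
      rw [h1]
      refine (h.inn x hx).imp_right fun h2 => ⟨fun e he hxe => ?_, h2.2⟩
      rw [if_pos ⟨x, hxe, hx⟩]
      exact h2.1 e he hxe

lemma WInv.joinAll {U0 U : Finset (Sym2 V)} {c : V → ℝ} {P : Finset V} {own : Sym2 V → V}
    {D : V → ℝ} {Q θ : ℝ} (h : WInv U0 U c P own D Q) :
    ∀ (k : ℕ) (X : Finset V), X.card = k → Disjoint X P →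
      (∀ S ⊆ X, S.Nonempty → ∃ v ∈ S, nm U0 (S.erase v) v ≤ 2 * θ) →
      (∀ v ∈ X, nm U0 P v + 2 * θ + D v + 1 ≤ 2 * Q) → ∃ own', WInv U0 U c (P ∪ X) own' D Q := by
  intro k
  induction k with
  | zero =>
    intro X hX _ _ _
    rw [card_eq_zero.1 hX, union_empty]
    exact ⟨own, h⟩
  | succ k ih =>
    intro X hX hd hlow hQ
    obtain ⟨v, hv, hv2⟩ := hlow X Subset.rfl (card_pos.1 (by omega))
    obtain ⟨own1, h1⟩ := ih (X.erase v) (by rw [card_erase_of_mem hv]; omega)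
      (disjoint_of_subset_left (erase_subset _ _) hd)
      (fun S hS => hlow S (hS.trans (erase_subset _ _)))
      (fun x hx => hQ x (mem_of_mem_erase hx))
    have hvn : v ∉ P ∪ X.erase v := by
      rw [mem_union]
      rintro (h2 | h2)
      · exact disjoint_left.1 hd hv h2
      · exact notMem_erase v X h2
    have h2 := nm_union_le U0 P (X.erase v) v
    have h3 := hQ v hv
    obtain ⟨own2, h4⟩ := h1.join hvn (by linarith)
    refine ⟨own2, ?_⟩
    rwa [← union_insert, insert_erase hv] at h4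

lemma sdiff_erase_cnt {U0 U : Finset (Sym2 V)} (h : U ⊆ U0) {e : Sym2 V} (he : e ∈ U)
    (p : Sym2 V → Prop) : cnt (U0 \ U.erase e) p = cnt (U0 \ U) p + ind (p e) := by
  rw [cnt_sdiff h, cnt_sdiff ((erase_subset _ _).trans h), cnt_erase he]; ring

lemma dg_erase {U : Finset (Sym2 V)} {e : Sym2 V} (he : e ∈ U) (v : V) :
    dg (U.erase e) v = dg U v - ind (v ∈ e) := cnt_erase he _

lemma nm_sdiff_erase {U0 U : Finset (Sym2 V)} (h : U ⊆ U0) {e : Sym2 V} (he : e ∈ U)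
    (P : Finset V) (v : V) :
    nm (U0 \ U.erase e) P v = nm (U0 \ U) P v + ind (v ∈ e ∧ ∃ u ∈ e, u ∈ P) :=
  sdiff_erase_cnt h he _

/-- Maker takes a main edge -/
lemma WInv.maker_main {U0 U : Finset (Sym2 V)} {c : V → ℝ} {P : Finset V} {own : Sym2 V → V}
    {D : V → ℝ} {Q : ℝ} (h : WInv U0 U c P own D Q) {e : Sym2 V} (he : e ∈ U)
    (hm : ∀ u ∈ e, u ∉ P) :
    WInv U0 (U.erase e) (fun v => c v - ind (v ∈ e)) P own (fun v => D v + ind (v ∈ e)) Q := by
  refine ⟨(erase_subset _ _).trans h.sub, fun f hf => h.own_mem f (mem_of_mem_erase hf), ?_, ?_⟩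
  · intro v hv
    have h1 := h.out v hv
    have h2 := ind_nonneg (v ∈ e ∧ ∃ u ∈ e, u ∈ P)
    rw [dg_erase he, nm_sdiff_erase h.sub he]
    linarith
  · intro v hv
    have h0 : v ∉ e := fun h' => hm v h' hv
    rw [dg_erase he, cnt_erase he, ind_neg h0, ind_neg (fun h' => h0 h'.1)]
    simp only [sub_zero]
    exact (h.inn v hv).imp_right fun h2 => ⟨fun f hf => h2.1 f (mem_of_mem_erase hf), h2.2⟩

/-- Breaker takes a main edge -/
lemma WInv.breaker_main {U0 U : Finset (Sym2 V)} {c : V → ℝ} {P : Finset V} {own : Sym2 V → V}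
    {D : V → ℝ} {Q : ℝ} (h : WInv U0 U c P own D Q) {e : Sym2 V} (he : e ∈ U)
    (hm : ∀ u ∈ e, u ∉ P) :
    WInv U0 (U.erase e) c P own (fun v => D v - ind (v ∈ e)) Q := by
  refine ⟨(erase_subset _ _).trans h.sub, fun f hf => h.own_mem f (mem_of_mem_erase hf), ?_, ?_⟩
  · intro v hv
    have h1 := h.out v hv
    have h2 := ind_nonneg (v ∈ e ∧ ∃ u ∈ e, u ∈ P)
    rw [dg_erase he, nm_sdiff_erase h.sub he]
    linarith
  · intro v hv
    have h0 : v ∉ e := fun h' => hm v h' hv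
    rw [dg_erase he, cnt_erase he, ind_neg h0, ind_neg (fun h' => h0 h'.1)]
    simp only [sub_zero]
    exact (h.inn v hv).imp_right fun h2 => ⟨fun f hf => h2.1 f (mem_of_mem_erase hf), h2.2⟩

/-- Maker takes an owned edge and Breaker answers at its owner -/
lemma WInv.owned {U0 U : Finset (Sym2 V)} {c : V → ℝ} {P : Finset V} {own : Sym2 V → V}
    {D : V → ℝ} {Q : ℝ} (h : WInv U0 U c P own D Q) {e : Sym2 V} (he : e ∈ U)
    (hm : ∃ u ∈ e, u ∈ P) :
    ∃ U', Reply U e U' ∧ (∀ f ∈ U', (∀ u ∈ f, u ∉ P) → f ∈ U) ∧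
      WInv U0 U' (fun v => c v - ind (v ∈ e)) P own D Q := by
  obtain ⟨hoe, hoP⟩ := h.own_mem e he hm
  have hsub : U.erase e ⊆ U0 := (erase_subset _ _).trans h.sub
  have hout : ∀ v ∉ P, dg (U.erase e) v + 2 * Q ≤
      2 * (c v - ind (v ∈ e)) + nm (U0 \ U.erase e) P v + D v := by
    intro v hv
    have h1 := h.out v hv
    rw [dg_erase he, nm_sdiff_erase h.sub he]
    have h2 : ind (v ∈ e) ≤ ind (v ∈ e ∧ ∃ u ∈ e, u ∈ P) := ind_mono fun h' => ⟨h', hm⟩
    linarith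
  have hinn : ∀ v ∈ P, v ≠ own e →
      dg (U.erase e) v + cnt (U.erase e) (fun f => v ∈ f ∧ own f ≠ v) + 1 ≤ 2 * (c v - ind (v ∈ e)) ∨
      ((∀ f ∈ U.erase e, v ∈ f → own f ≠ v) ∧
        dg (U.erase e) v + cnt (U.erase e) (fun f => v ∈ f ∧ own f ≠ v) ≤ 2 * (c v - ind (v ∈ e))) := by
    intro v hv hne
    have h2 : ind (v ∈ e) ≤ ind (v ∈ e ∧ own e ≠ v) := ind_mono fun h' => ⟨h', hne.symm⟩
    rw [dg_erase he, cnt_erase he]
    rcases h.inn v hv with h3 | h3
    · left; linarith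
    · right; exact ⟨fun f hf => h3.1 f (mem_of_mem_erase hf), by linarith [h3.2]⟩
  have hown : dg (U.erase e) (own e) + cnt (U.erase e) (fun f => own e ∈ f ∧ own f ≠ own e) ≤
      2 * (c (own e) - ind (own e ∈ e)) := by
    rw [dg_erase he, cnt_erase he, ind_pos hoe, ind_neg (fun h' => h'.2 rfl)]
    rcases h.inn _ hoP with h3 | h3
    · linarith
    · exact absurd rfl (h3.1 e he hoe)
  by_cases hex : ∃ f ∈ U.erase e, own e ∈ f ∧ own f = own e
  · obtain ⟨f, hf, hf1, hf2⟩ := hex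
    refine ⟨(U.erase e).erase f, Or.inr ⟨f, hf, rfl⟩,
      fun g hg _ => mem_of_mem_erase (mem_of_mem_erase hg), (erase_subset _ _).trans hsub,
      fun g hg => h.own_mem g (mem_of_mem_erase (mem_of_mem_erase hg)), ?_, ?_⟩
    · intro v hv
      have h1 := hout v hv
      rw [dg_erase hf, nm_sdiff_erase hsub hf]
      have h2 := ind_nonneg (v ∈ f ∧ ∃ u ∈ f, u ∈ P)
      have h3 := ind_nonneg (v ∈ f)
      linarith
    · intro v hv
      rw [dg_erase hf, cnt_erase hf]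
      have h2 := ind_nonneg (v ∈ f ∧ own f ≠ v)
      have h3 := ind_nonneg (v ∈ f)
      by_cases hne : v = own e
      · left
        subst hne
        rw [ind_pos hf1]
        linarith
      · rcases hinn v hv hne with h4 | h4
        · left; linarith
        · right; exact ⟨fun g hg => h4.1 g (mem_of_mem_erase hg), by linarith [h4.2]⟩
  · refine ⟨U.erase e, Or.inl rfl, fun g hg _ => mem_of_mem_erase hg, hsub,
      fun g hg => h.own_mem g (mem_of_mem_erase hg), hout, ?_⟩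
    intro v hv
    by_cases hne : v = own e
    · right
      subst hne
      exact ⟨fun f hf h1 h2 => hex ⟨f, hf, h1, h2⟩, hown⟩
    · exact hinn v hv hne

end Pool.Agent.P.MP_0dac36_co
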